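import Mathlib
import Pool.Agent.Lib_MP_a891d2_an.SRB
import Pool.Agent.Lib_MP_a891d2_an.Basin

/-!
# MP_a891d2_an FullSupport: definitions

The map is `f (x, y) = (3 x, g_x y)` on `(ℝ/ℤ)²`, `tan (π g_x y) = a(x) tan (π y) + b(x)`,
`a(x) = exp (-√2 + 3 cos 2πx)`, `b(x) = sin (2πx)³ / 10`. The measure is the law of
`(x_0, Y(t(x)))` for Haar measure on the solenoid, `t(x) = ∑ (∏_{j<n} a(x_{-j-1})) b(x_{-n-1})`,
`Y(t) = arctan t / π`.
-/

namespace Pool.Agent.FS

open MeasureTheory Filter Topology Finset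
open Pool.Agent.Results.MP_a891d2_an.TorusExample

/-- The multiplier `a(x) = exp (-√2 + 3 cos 2πx)`. -/
noncomputable def fa (x : ℝ) : ℝ := Real.exp (-Real.sqrt 2 + 3 * Real.cos (2 * Real.pi * x))

/-- The translation `b(x) = sin (2πx)³ / 10`. -/
noncomputable def fb (x : ℝ) : ℝ := Real.sin (2 * Real.pi * x) ^ 3 / 10

/-- `c² + b s c + a s²`, where `s = sin πy`, `c = cos πy`. -/
noncomputable def fden (v : ℝ × ℝ) : ℝ :=
  Real.cos (Real.pi * v.2) ^ 2 +
    fb v.1 * Real.sin (Real.pi * v.2) * Real.cos (Real.pi * v.2) +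
    fa v.1 * Real.sin (Real.pi * v.2) ^ 2

/-- The argument `c ((a - 1) s + b c) / (c² + b s c + a s²)` of the arctangent. -/
noncomputable def fquo (v : ℝ × ℝ) : ℝ :=
  Real.cos (Real.pi * v.2) * ((fa v.1 - 1) * Real.sin (Real.pi * v.2) +
    fb v.1 * Real.cos (Real.pi * v.2)) / fden v

/-- The lift of the fibre map. -/
noncomputable def ffib (v : ℝ × ℝ) : ℝ := v.2 + Real.arctan (fquo v) / Real.pi

/-- The lift of the map. -/
noncomputable def flift (v : ℝ × ℝ) : ℝ × ℝ := (3 * v.1, ffib v)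

/-- The map of the torus. -/
noncomputable def fmap (p : Torus) : Torus := toTorus (flift (rep p))

/-- `sin (2πξ)` on the circle (`cc ξ` is `cos (2πξ)`). -/
noncomputable def cs (ξ : UnitAddCircle) : ℝ := (fourier 1 ξ : ℂ).im

/-- The multiplier on the circle. -/
noncomputable def ka (ξ : UnitAddCircle) : ℝ := Real.exp (-Real.sqrt 2 + 3 * cc ξ)

/-- The translation on the circle. -/
noncomputable def kb (ξ : UnitAddCircle) : ℝ := cs ξ ^ 3 / 10

/-- The chart `t ↦ arctan t / π` of the fibre minus the point `1/2`. -/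
noncomputable def yy (t : ℝ) : UnitAddCircle := ((Real.arctan t / Real.pi : ℝ) : UnitAddCircle)

/-- The affine fibre map iterated `n` times over `ξ, 3ξ, 9ξ, …`. -/
noncomputable def fiter : ℕ → UnitAddCircle → ℝ → ℝ
  | 0, _, t => t
  | n + 1, ξ, t => ka ((3 ^ n : ℕ) • ξ) * fiter n ξ t + kb ((3 ^ n : ℕ) • ξ)

/-- The product of the multipliers along the past. -/
noncomputable def pp (ξ : ℕ → UnitAddCircle) (n : ℕ) : ℝ := ∏ j ∈ range n, ka (ξ (j + 1))

/-- The fibre coordinate of the attractor over the past `ξ`. -/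
noncomputable def tt (ξ : ℕ → UnitAddCircle) : ℝ := ∑' n, pp ξ n * kb (ξ (n + 1))

/-- The derivative of the `n`-th term of `tt` along the flow of the solenoid. -/
noncomputable def dterm (ξ : ℕ → UnitAddCircle) (n : ℕ) : ℝ :=
  pp ξ n * ((∑ j ∈ range n, -(6 * Real.pi) * cs (ξ (j + 1)) / 3 ^ (j + 1)) * kb (ξ (n + 1)) +
    6 * Real.pi / 10 * cs (ξ (n + 1)) ^ 2 * cc (ξ (n + 1)) / 3 ^ (n + 1))

/-- The derivative of `tt` along the flow of the solenoid. -/
noncomputable def dd (ξ : ℕ → UnitAddCircle) : ℝ := ∑' n, dterm ξ n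

/-- The backward averages of `cos 2πξ` vanish. -/
def Good (ξ : ℕ → UnitAddCircle) : Prop :=
  Tendsto (fun n : ℕ => (∑ k ∈ range n, cc (ξ (k + 1))) / n) atTop (𝓝 0)

/-- The forward averages of `cos 2πξ` vanish. -/
def FGood (η : UnitAddCircle) : Prop :=
  Tendsto (fun n : ℕ => (∑ k ∈ range n, cc ((3 ^ k : ℕ) • η)) / n) atTop (𝓝 0)

/-- The tail of a sequence. -/
def tlq (ξ : ℕ → UnitAddCircle) (n : ℕ) : ℕ → UnitAddCircle := fun k => ξ (k + n)

/-- The tail `(x_{-n}, x_{-n-1}, …)` of a point of the solenoid (`triple^{-n} x`). -/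
def stl (x : Sol) (n : ℕ) : Sol :=
  ⟨tlq x.1 n, by
    intro k
    show (3 : ℕ) • x.1 (k + 1 + n) = x.1 (k + n)
    have := x.2 (k + n)
    rwa [show k + n + 1 = k + 1 + n by omega] at this⟩

/-- The point of the natural extension over the point `x` of the solenoid. -/
noncomputable def femb (x : Sol) : ℕ → Torus := fun n => (x.1 n, yy (tt (tlq x.1 n)))

/-- The invariant measure on the natural extension. -/
noncomputable def fmu' : Measure (ℕ → Torus) := haarSol.map femb

/-- The invariant measure on the torus. -/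
noncomputable def fmu : Measure Torus := haarSol.map (fun x => femb x 0)

/-- The unstable curve of `femb x`, parametrised by the first coordinate. -/
noncomputable def fcurve (x : Sol) (s : ℝ) : ℝ × ℝ :=
  (cr (x.1 0) + s, Real.arctan (tt (x + flow s).1) / Real.pi)

/-- The slope of the unstable direction at `femb x`. -/
noncomputable def sig (x : Sol) : ℝ := dd x.1 / (Real.pi * (1 + tt x.1 ^ 2))

/-- The map whose level sets are the subordinate partition. -/
noncomputable def fpart (y : ℕ → Torus) : (ℕ → ℤ) × (ℕ → UnitAddCircle) :=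
  (fun n => digit (y n).1, fun n => (y n).2 - yy (tt (tlq (fun k => (y k).1) n)))

/-- The points `(ξ, t)` of the cylinder which lie in the support of `fmu`. -/
def KK : Set (UnitAddCircle × ℝ) := {p | (p.1, yy p.2) ∈ fmu.support}

/-- The leaf of the constant past `1/2`: `t*(s) = ∑ ∏_{j=1}^n a(1/2 + s/3^j) b(1/2 + s/3^{n+1})`. -/
noncomputable def tstar (s : ℝ) : ℝ :=
  ∑' n : ℕ, (∏ j ∈ range n, fa (1 / 2 + s / 3 ^ (j + 1))) * fb (1 / 2 + s / 3 ^ (n + 1))

end Pool.Agent.FS
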