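import Mathlib
import Pool.Agent.Lib_MP_a891d2_fs.FSDefs

/-! # M1 (model: Lib_MP_a891d2_an/Map.lean) -/

namespace Pool.Agent.FS

open MeasureTheory Filter Topology Finset
open Pool.Agent.Results.MP_a891d2_an.TorusExample

lemma fa_pos (x : ℝ) : 0 < fa x := Real.exp_pos _

lemma M1_fa_gt (x : ℝ) : 1 / 400 < fa x := by
  have h1 : Real.exp (-5) ≤ fa x := by
    unfold fa
    apply Real.exp_le_exp.2
    have h2 := Real.neg_one_le_cos (2 * Real.pi * x)
    have h3 : Real.sqrt 2 ≤ 2 := by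
      rw [Real.sqrt_le_left (by norm_num)]
      norm_num
    linarith
  have h4 : Real.exp 5 < 400 := by
    have h5 : Real.exp 5 = Real.exp 1 ^ 5 := by
      rw [← Real.exp_nat_mul]
      norm_num
    rw [h5]
    calc Real.exp 1 ^ 5 < 2.7182818286 ^ 5 :=
          pow_lt_pow_left₀ Real.exp_one_lt_d9 (Real.exp_pos 1).le (by norm_num)
      _ < 400 := by norm_num
  have h6 : 1 / 400 < Real.exp (-5) := by
    rw [Real.exp_neg, ← one_div]
    exact one_div_lt_one_div_of_lt (Real.exp_pos 5) h4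
  exact h6.trans_le h1

lemma M1_fb_sq (x : ℝ) : fb x ^ 2 ≤ 1 / 100 := by
  unfold fb
  have h1 : Real.sin (2 * Real.pi * x) ^ 2 ≤ 1 := Real.sin_sq_le_one _
  have h2 : 0 ≤ Real.sin (2 * Real.pi * x) ^ 2 := sq_nonneg _
  have h3 : (Real.sin (2 * Real.pi * x) ^ 3 / 10) ^ 2 =
      (Real.sin (2 * Real.pi * x) ^ 2) ^ 3 / 100 := by ring
  rw [h3]
  have h4 : (Real.sin (2 * Real.pi * x) ^ 2) ^ 3 ≤ 1 := pow_le_one₀ h2 h1
  linarith

lemma fden_pos (v : ℝ × ℝ) : 0 < fden v := by
  unfold fden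
  have h1 := Real.sin_sq_add_cos_sq (Real.pi * v.2)
  have h2 := M1_fa_gt v.1
  have h3 := M1_fb_sq v.1
  set s := Real.sin (Real.pi * v.2)
  set c := Real.cos (Real.pi * v.2)
  set a := fa v.1
  set b := fb v.1
  have h4 : c ^ 2 + b * s * c + a * s ^ 2 = (c + b * s / 2) ^ 2 + (a - b ^ 2 / 4) * s ^ 2 := by ring
  rw [h4]
  have h5 : 0 < a - b ^ 2 / 4 := by linarith
  rcases eq_or_ne s 0 with h | h
  · rw [h] at h1 ⊢
    nlinarith
  · have h6 : 0 < s ^ 2 := by positivity
    have h7 : 0 < (a - b ^ 2 / 4) * s ^ 2 := mul_pos h5 h6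
    have h8 : 0 ≤ (c + b * s / 2) ^ 2 := sq_nonneg _
    linarith

lemma M1_fa_add_int (x : ℝ) (k : ℤ) : fa (x + k) = fa x := by
  unfold fa
  have : 2 * Real.pi * (x + k) = 2 * Real.pi * x + k * (2 * Real.pi) := by ring
  rw [this, Real.cos_add_int_mul_two_pi]

lemma M1_fb_add_int (x : ℝ) (k : ℤ) : fb (x + k) = fb x := by
  unfold fb
  have : 2 * Real.pi * (x + k) = 2 * Real.pi * x + k * (2 * Real.pi) := by ring
  rw [this, Real.sin_add_int_mul_two_pi]

lemma M1_fden_add_int (v : ℝ × ℝ) (m n : ℤ) : fden (v.1 + m, v.2 + n) = fden v := by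
  unfold fden
  simp only
  have : Real.pi * (v.2 + n) = Real.pi * v.2 + n * Real.pi := by ring
  rw [this, cos_sq_add_int_mul_pi, sin_sq_add_int_mul_pi, mul_assoc (fb _),
    sin_add_int_mul_pi_mul_cos, M1_fa_add_int, M1_fb_add_int, ← mul_assoc]

lemma M1_fquo_add_int (v : ℝ × ℝ) (m n : ℤ) : fquo (v.1 + m, v.2 + n) = fquo v := by
  unfold fquo
  rw [M1_fden_add_int]
  congr 1
  simp only
  have e : ∀ c s a b : ℝ, c * ((a - 1) * s + b * c) = (a - 1) * (s * c) + b * c ^ 2 := by
    intro c s a b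
    ring
  have : Real.pi * (v.2 + n) = Real.pi * v.2 + n * Real.pi := by ring
  rw [this, e, e, sin_add_int_mul_pi_mul_cos, cos_sq_add_int_mul_pi, M1_fa_add_int,
    M1_fb_add_int]

lemma flift_add_int (v : ℝ × ℝ) (m n : ℤ) :
    flift (v.1 + m, v.2 + n) = ((flift v).1 + (3 * m : ℤ), (flift v).2 + n) := by
  unfold flift ffib
  rw [M1_fquo_add_int]
  simp only [Prod.mk.injEq]
  constructor
  · push_cast; ring
  · ring

lemma fmap_toTorus (v : ℝ × ℝ) : fmap (toTorus v) = toTorus (flift v) := by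
  unfold fmap
  obtain ⟨m, n, h⟩ := exists_rep_toTorus v
  rw [h, flift_add_int]
  exact toTorus_add_int (flift v) (3 * m) n

lemma M1_contDiff_fa {n : WithTop ℕ∞} : ContDiff ℝ n fa := by
  unfold fa
  exact Real.contDiff_exp.comp
    (contDiff_const.add (contDiff_const.mul (Real.contDiff_cos.comp (contDiff_const.mul contDiff_id))))

lemma M1_contDiff_fb {n : WithTop ℕ∞} : ContDiff ℝ n fb := by
  unfold fb
  exact ((Real.contDiff_sin.comp (contDiff_const.mul contDiff_id)).pow 3).div_const _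

lemma M1_contDiff_fden {n : WithTop ℕ∞} : ContDiff ℝ n fden := by
  unfold fden
  have h1 : ContDiff ℝ n (fun v : ℝ × ℝ => Real.cos (Real.pi * v.2)) :=
    Real.contDiff_cos.comp (contDiff_const.mul contDiff_snd)
  have h2 : ContDiff ℝ n (fun v : ℝ × ℝ => Real.sin (Real.pi * v.2)) :=
    Real.contDiff_sin.comp (contDiff_const.mul contDiff_snd)
  exact ((h1.pow 2).add (((M1_contDiff_fb.comp contDiff_fst).mul h2).mul h1)).add
    ((M1_contDiff_fa.comp contDiff_fst).mul (h2.pow 2))

lemma M1_contDiff_fquo {n : WithTop ℕ∞} : ContDiff ℝ n fquo := by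
  unfold fquo
  have h1 : ContDiff ℝ n (fun v : ℝ × ℝ => Real.cos (Real.pi * v.2)) :=
    Real.contDiff_cos.comp (contDiff_const.mul contDiff_snd)
  have h2 : ContDiff ℝ n (fun v : ℝ × ℝ => Real.sin (Real.pi * v.2)) :=
    Real.contDiff_sin.comp (contDiff_const.mul contDiff_snd)
  exact (h1.mul ((((M1_contDiff_fa.comp contDiff_fst).sub contDiff_const).mul h2).add
    ((M1_contDiff_fb.comp contDiff_fst).mul h1))).div M1_contDiff_fden
    (fun v => (fden_pos v).ne')

lemma M1_contDiff_ffib {n : WithTop ℕ∞} : ContDiff ℝ n ffib := by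
  unfold ffib
  exact contDiff_snd.add ((Real.contDiff_arctan.comp M1_contDiff_fquo).div_const _)

lemma contDiff_flift {n : WithTop ℕ∞} : ContDiff ℝ n flift := by
  unfold flift
  exact (contDiff_const.mul contDiff_fst).prodMk M1_contDiff_ffib

lemma M1_fquo_mul (v : ℝ × ℝ) : fquo v * fden v =
    Real.cos (Real.pi * v.2) * ((fa v.1 - 1) * Real.sin (Real.pi * v.2) +
      fb v.1 * Real.cos (Real.pi * v.2)) := by
  have hd := (fden_pos v).ne'
  unfold fquo
  field_simp

lemma M1_one_add_fquo_sq (v : ℝ × ℝ) :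
    (1 + fquo v ^ 2) * fden v ^ 2 = Real.cos (Real.pi * v.2) ^ 2 +
      (fa v.1 * Real.sin (Real.pi * v.2) + fb v.1 * Real.cos (Real.pi * v.2)) ^ 2 := by
  have h1 := Real.sin_sq_add_cos_sq (Real.pi * v.2)
  have h3 : (1 + fquo v ^ 2) * fden v ^ 2 = fden v ^ 2 + (fquo v * fden v) ^ 2 := by ring
  rw [h3, M1_fquo_mul]
  unfold fden
  set s := Real.sin (Real.pi * v.2)
  set c := Real.cos (Real.pi * v.2)
  set a := fa v.1
  set b := fb v.1
  have h4 : (c ^ 2 + b * s * c + a * s ^ 2) ^ 2 + (c * ((a - 1) * s + b * c)) ^ 2 =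
      (s ^ 2 + c ^ 2) * (c ^ 2 + (a * s + b * c) ^ 2) := by ring
  rw [h4, h1, one_mul]

/-- common factor of sine and cosine of the image. -/
lemma fexists_factor (v : ℝ × ℝ) : ∃ w : ℝ, 0 < w ∧
    Real.sin (Real.pi * ffib v) * w =
      fa v.1 * Real.sin (Real.pi * v.2) + fb v.1 * Real.cos (Real.pi * v.2) ∧
    Real.cos (Real.pi * ffib v) * w = Real.cos (Real.pi * v.2) := by
  have h1 := Real.sin_sq_add_cos_sq (Real.pi * v.2)
  have hd := fden_pos v
  have h2 := M1_fquo_mul v
  have hpi : Real.pi * ffib v = Real.pi * v.2 + Real.arctan (fquo v) := by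
    unfold ffib
    field_simp
  have hr : 0 < Real.sqrt (1 + fquo v ^ 2) := by positivity
  have hsin : Real.sin (Real.arctan (fquo v)) * Real.sqrt (1 + fquo v ^ 2) = fquo v := by
    rw [Real.sin_arctan]
    field_simp
  have hcos : Real.cos (Real.arctan (fquo v)) * Real.sqrt (1 + fquo v ^ 2) = 1 := by
    rw [Real.cos_arctan]
    field_simp
  refine ⟨Real.sqrt (1 + fquo v ^ 2) * fden v, by positivity, ?_, ?_⟩
  · rw [hpi, Real.sin_add]
    calc (Real.sin (Real.pi * v.2) * Real.cos (Real.arctan (fquo v)) +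
          Real.cos (Real.pi * v.2) * Real.sin (Real.arctan (fquo v))) *
          (Real.sqrt (1 + fquo v ^ 2) * fden v)
        = Real.sin (Real.pi * v.2) * (Real.cos (Real.arctan (fquo v)) * Real.sqrt (1 + fquo v ^ 2))
            * fden v + Real.cos (Real.pi * v.2) *
            (Real.sin (Real.arctan (fquo v)) * Real.sqrt (1 + fquo v ^ 2)) * fden v := by ring
      _ = Real.sin (Real.pi * v.2) * fden v + Real.cos (Real.pi * v.2) * (fquo v * fden v) := by
          rw [hsin, hcos]; ring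
      _ = (Real.sin (Real.pi * v.2) ^ 2 + Real.cos (Real.pi * v.2) ^ 2) *
            (fa v.1 * Real.sin (Real.pi * v.2) + fb v.1 * Real.cos (Real.pi * v.2)) := by
          rw [h2]
          unfold fden
          ring
      _ = fa v.1 * Real.sin (Real.pi * v.2) + fb v.1 * Real.cos (Real.pi * v.2) := by
          rw [h1, one_mul]
  · rw [hpi, Real.cos_add]
    calc (Real.cos (Real.pi * v.2) * Real.cos (Real.arctan (fquo v)) -
          Real.sin (Real.pi * v.2) * Real.sin (Real.arctan (fquo v))) *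
          (Real.sqrt (1 + fquo v ^ 2) * fden v)
        = Real.cos (Real.pi * v.2) * (Real.cos (Real.arctan (fquo v)) * Real.sqrt (1 + fquo v ^ 2))
            * fden v - Real.sin (Real.pi * v.2) *
            (Real.sin (Real.arctan (fquo v)) * Real.sqrt (1 + fquo v ^ 2)) * fden v := by ring
      _ = Real.cos (Real.pi * v.2) * fden v - Real.sin (Real.pi * v.2) * (fquo v * fden v) := by
          rw [hsin, hcos]; ring
      _ = (Real.sin (Real.pi * v.2) ^ 2 + Real.cos (Real.pi * v.2) ^ 2) *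
            Real.cos (Real.pi * v.2) := by
          rw [h2]
          unfold fden
          ring
      _ = Real.cos (Real.pi * v.2) := by
          rw [h1, one_mul]

lemma M1_E_pos (x y : ℝ) : 0 < Real.cos (Real.pi * y) ^ 2 +
    (fa x * Real.sin (Real.pi * y) + fb x * Real.cos (Real.pi * y)) ^ 2 := by
  have h := M1_one_add_fquo_sq (x, y)
  simp only at h
  rw [← h]
  have hd := fden_pos (x, y)
  positivity

/-- the derivative of the fibre map in the direction of the fibre. -/
lemma hasDerivAt_ffib (x y : ℝ) :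
    HasDerivAt (fun t : ℝ => ffib (x, t)) (fa x / (Real.cos (Real.pi * y) ^ 2 +
      (fa x * Real.sin (Real.pi * y) + fb x * Real.cos (Real.pi * y)) ^ 2)) y := by
  have hs : HasDerivAt (fun t : ℝ => Real.sin (Real.pi * t))
      (Real.cos (Real.pi * y) * Real.pi) y := by
    exact (((hasDerivAt_id' y).const_mul Real.pi).sin).congr_deriv (by ring)
  have hc : HasDerivAt (fun t : ℝ => Real.cos (Real.pi * t))
      (-Real.sin (Real.pi * y) * Real.pi) y := by
    exact (((hasDerivAt_id' y).const_mul Real.pi).cos).congr_deriv (by ring)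
  have hden : HasDerivAt (fun t : ℝ => fden (x, t))
      (Real.pi * (2 * (fa x - 1) * Real.sin (Real.pi * y) * Real.cos (Real.pi * y) +
        fb x * (Real.cos (Real.pi * y) ^ 2 - Real.sin (Real.pi * y) ^ 2))) y := by
    have h := ((hc.fun_pow 2).fun_add ((hs.const_mul (fb x)).fun_mul hc)).fun_add
      ((hs.fun_pow 2).const_mul (fa x))
    refine h.congr_deriv ?_
    simp only [Nat.cast_ofNat, Nat.add_one_sub_one, pow_one]
    ring
  have hnum : HasDerivAt
      (fun t : ℝ => Real.cos (Real.pi * t) * ((fa x - 1) * Real.sin (Real.pi * t) +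
        fb x * Real.cos (Real.pi * t)))
      (Real.pi * ((fa x - 1) * (Real.cos (Real.pi * y) ^ 2 - Real.sin (Real.pi * y) ^ 2) -
        2 * fb x * Real.sin (Real.pi * y) * Real.cos (Real.pi * y))) y := by
    exact (hc.fun_mul ((hs.const_mul (fa x - 1)).fun_add (hc.const_mul (fb x)))).congr_deriv
      (by ring)
  have hquo : HasDerivAt (fun t : ℝ => fquo (x, t))
      ((Real.pi * ((fa x - 1) * (Real.cos (Real.pi * y) ^ 2 - Real.sin (Real.pi * y) ^ 2) -
        2 * fb x * Real.sin (Real.pi * y) * Real.cos (Real.pi * y)) * fden (x, y) -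
        Real.cos (Real.pi * y) * ((fa x - 1) * Real.sin (Real.pi * y) +
        fb x * Real.cos (Real.pi * y)) *
        (Real.pi * (2 * (fa x - 1) * Real.sin (Real.pi * y) * Real.cos (Real.pi * y) +
        fb x * (Real.cos (Real.pi * y) ^ 2 - Real.sin (Real.pi * y) ^ 2)))) /
        fden (x, y) ^ 2) y := by
    exact hnum.fun_div hden (fden_pos (x, y)).ne'
  have hfib := (hasDerivAt_id' y).fun_add (hquo.arctan.div_const Real.pi)
  have hq := M1_one_add_fquo_sq (x, y)
  simp only at hq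
  have hd := fden_pos (x, y)
  have h1 := Real.sin_sq_add_cos_sq (Real.pi * y)
  have hE := M1_E_pos x y
  refine hfib.congr_deriv ?_
  have hq' : 1 + fquo (x, y) ^ 2 = (Real.cos (Real.pi * y) ^ 2 +
      (fa x * Real.sin (Real.pi * y) + fb x * Real.cos (Real.pi * y)) ^ 2) / fden (x, y) ^ 2 := by
    rw [← hq]
    field_simp
  rw [hq']
  have hdn : fden (x, y) = Real.cos (Real.pi * y) ^ 2 +
    fb x * Real.sin (Real.pi * y) * Real.cos (Real.pi * y) +
    fa x * Real.sin (Real.pi * y) ^ 2 := rfl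
  set s := Real.sin (Real.pi * y)
  set c := Real.cos (Real.pi * y)
  set a := fa x
  set b := fb x
  set d := fden (x, y)
  set E := c ^ 2 + (a * s + b * c) ^ 2 with hEdef
  have key : ((a - 1) * (c ^ 2 - s ^ 2) - 2 * b * s * c) * d -
      c * ((a - 1) * s + b * c) * (2 * (a - 1) * s * c + b * (c ^ 2 - s ^ 2)) = a - E := by
    have h2 : ((a - 1) * (c ^ 2 - s ^ 2) - 2 * b * s * c) * d -
      c * ((a - 1) * s + b * c) * (2 * (a - 1) * s * c + b * (c ^ 2 - s ^ 2)) =
      (s ^ 2 + c ^ 2) * (a * (s ^ 2 + c ^ 2) - E) := by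
      rw [hdn, hEdef]
      ring
    rw [h2, h1]
    ring
  have h3 : (Real.pi * ((a - 1) * (c ^ 2 - s ^ 2) - 2 * b * s * c) * d -
      c * ((a - 1) * s + b * c) * (Real.pi * (2 * (a - 1) * s * c + b * (c ^ 2 - s ^ 2)))) =
      Real.pi * (a - E) := by
    rw [← key]
    ring
  rw [h3]
  have hE' := hE.ne'
  have hd' := hd.ne'
  have hpi := Real.pi_ne_zero
  field_simp
  ring

lemma fvert_pos (x y : ℝ) : 0 < fa x / (Real.cos (Real.pi * y) ^ 2 +
      (fa x * Real.sin (Real.pi * y) + fb x * Real.cos (Real.pi * y)) ^ 2) :=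
  div_pos (fa_pos x) (M1_E_pos x y)

end Pool.Agent.FS
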