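import Mathlib
import Pool.Agent.Lib_MP_a891d2_fs.FSMap

/-! # M2 (model: Lib_MP_a891d2_an/Facts.lean; uses M1) -/

namespace Pool.Agent.FS

open MeasureTheory Filter Topology Finset
open Pool.Agent.Results.MP_a891d2_an.TorusExample

/-! ### Functions on the circle -/

lemma M2_cs_coe (x : ℝ) : cs (x : UnitAddCircle) = Real.sin (2 * Real.pi * x) := by
  unfold cs
  rw [fourier_coe_apply]
  have : (2 * (Real.pi : ℂ) * Complex.I * ((1 : ℤ) : ℂ) * (x : ℂ) / ((1 : ℝ) : ℂ))
      = ((2 * Real.pi * x : ℝ) : ℂ) * Complex.I := by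
    push_cast
    ring
  rw [this, Complex.exp_ofReal_mul_I_im]

lemma M2_abs_cs_le (ξ : UnitAddCircle) : |cs ξ| ≤ 1 := by
  refine (Complex.abs_im_le_norm _).trans ?_
  rw [fourier_apply]
  simp

lemma M2_continuous_cs : Continuous cs :=
  Complex.continuous_im.comp (ContinuousMap.continuous _)

lemma ka_coe (x : ℝ) : ka (x : UnitAddCircle) = fa x := by
  unfold ka fa
  rw [cc_coe]

lemma kb_coe (x : ℝ) : kb (x : UnitAddCircle) = fb x := by
  unfold kb fb
  rw [M2_cs_coe]

lemma ka_pos (ξ : UnitAddCircle) : 0 < ka ξ := Real.exp_pos _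

lemma abs_kb_le (ξ : UnitAddCircle) : |kb ξ| ≤ 1 / 10 := by
  unfold kb
  rw [abs_div, abs_pow, abs_of_pos (by norm_num : (0 : ℝ) < 10)]
  have h := pow_le_one₀ (n := 3) (abs_nonneg _) (M2_abs_cs_le ξ)
  linarith

lemma continuous_ka : Continuous ka := by
  unfold ka
  exact Real.continuous_exp.comp (continuous_const.add (continuous_const.mul continuous_cc))

lemma continuous_kb : Continuous kb := by
  unfold kb
  exact (M2_continuous_cs.pow 3).div_const _

lemma M2_continuous_coe : Continuous (fun x : ℝ => (x : UnitAddCircle)) :=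
  (QuotientAddGroup.isOpenQuotientMap_mk (N := AddSubgroup.zmultiples (1 : ℝ))).continuous

lemma continuous_yy : Continuous yy := by
  unfold yy
  exact M2_continuous_coe.comp (Real.continuous_arctan.div_const _)

lemma M2_pi_mul_div (t : ℝ) : Real.pi * (Real.arctan t / Real.pi) = Real.arctan t :=
  mul_div_cancel₀ _ Real.pi_ne_zero

lemma ct_yy (t : ℝ) : ct (yy t) = t := by
  unfold yy
  rw [ct_coe, M2_pi_mul_div, Real.tan_arctan]

lemma yy_ne_half (t : ℝ) : yy t ≠ ((1 / 2 : ℝ) : UnitAddCircle) := by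
  unfold yy
  rw [Ne, coe_eq_half_iff, M2_pi_mul_div]
  exact (Real.cos_arctan_pos t).ne'

lemma yy_ct {η : UnitAddCircle} (h : η ≠ ((1 / 2 : ℝ) : UnitAddCircle)) : yy (ct η) = η := by
  set t : ℝ := (AddCircle.equivIco 1 0 η : ℝ) with ht
  have h2 : ct η = Real.tan (Real.pi * (t - round t)) := by
    unfold ct
    rw [← ht]
    have : Real.pi * t = Real.pi * (t - round t) + (round t : ℤ) * Real.pi := by ring
    rw [this, Real.tan_periodic.int_mul (round t)]
  set u := t - round t with hu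
  have hpi := Real.pi_pos
  have hle : |u| ≤ 1 / 2 := abs_sub_round t
  have hcoe : (u : UnitAddCircle) = η := by
    have h0 : (((round t : ℤ) : ℝ) : UnitAddCircle) = 0 := by
      rw [AddCircle.coe_eq_zero_iff]
      exact ⟨round t, by simp⟩
    rw [hu, AddCircle.coe_sub, h0, sub_zero, ht, coe_equivIco]
  have hlt : |u| < 1 / 2 := by
    rcases lt_or_eq_of_le hle with h3 | h3
    · exact h3
    · exfalso
      apply h
      rw [← hcoe, coe_eq_half_iff]
      have : Real.cos (Real.pi * |u|) = 0 := by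
        rw [h3, show Real.pi * (1 / 2) = Real.pi / 2 by ring, Real.cos_pi_div_two]
      rcases abs_choice u with h4 | h4
      · rwa [h4] at this
      · rw [h4] at this
        rw [← Real.cos_neg]
        rw [← this]
        congr 1
        ring
  rw [abs_lt] at hlt
  have h5 : Real.arctan (Real.tan (Real.pi * u)) = Real.pi * u :=
    Real.arctan_tan (by nlinarith [hlt.1]) (by nlinarith [hlt.2])
  unfold yy
  rw [h2, h5, mul_div_cancel_left₀ _ hpi.ne', hcoe]

/-! ### The map -/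

lemma fmap_fst (p : Torus) : (fmap p).1 = (3 : ℕ) • p.1 := by
  unfold fmap toTorus flift
  simp only
  have : p.1 = ((rep p).1 : UnitAddCircle) := by
    simp [rep]
  conv_rhs => rw [this]
  rw [← AddCircle.coe_nsmul]
  simp

lemma M2_cos_ffib_eq_zero_iff (v : ℝ × ℝ) :
    Real.cos (Real.pi * ffib v) = 0 ↔ Real.cos (Real.pi * v.2) = 0 := by
  obtain ⟨w, hw, h1, h2⟩ := fexists_factor v
  rw [← h2]
  simp [hw.ne']

lemma M2_tan_ffib {v : ℝ × ℝ} (hc : Real.cos (Real.pi * v.2) ≠ 0) :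
    Real.tan (Real.pi * ffib v) = fa v.1 * Real.tan (Real.pi * v.2) + fb v.1 := by
  obtain ⟨w, hw, h1, h2⟩ := fexists_factor v
  have hc' : Real.cos (Real.pi * ffib v) ≠ 0 := fun h =>
    hc ((M2_cos_ffib_eq_zero_iff v).1 h)
  have h3 : Real.sin (Real.pi * ffib v) =
      (fa v.1 * Real.sin (Real.pi * v.2) + fb v.1 * Real.cos (Real.pi * v.2)) / w := by
    rw [eq_div_iff hw.ne', h1]
  have h4 : Real.cos (Real.pi * ffib v) = Real.cos (Real.pi * v.2) / w := by
    rw [eq_div_iff hw.ne', h2]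
  rw [Real.tan_eq_sin_div_cos, Real.tan_eq_sin_div_cos, h3, h4]
  have := hw.ne'
  field_simp

lemma fmap_yy (ξ : UnitAddCircle) (t : ℝ) :
    fmap (ξ, yy t) = ((3 : ℕ) • ξ, yy (ka ξ * t + kb ξ)) := by
  obtain ⟨x, hx⟩ : ∃ x : ℝ, (x : UnitAddCircle) = ξ := ⟨_, coe_equivIco ξ⟩
  have h1 : ((ξ, yy t) : Torus) = toTorus (x, Real.arctan t / Real.pi) := by
    rw [← hx]
    rfl
  have hc : Real.cos (Real.pi * ((x, Real.arctan t / Real.pi) : ℝ × ℝ).2) ≠ 0 := by
    show Real.cos (Real.pi * (Real.arctan t / Real.pi)) ≠ 0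
    rw [M2_pi_mul_div]
    exact (Real.cos_arctan_pos t).ne'
  have h2 : ((ffib (x, Real.arctan t / Real.pi) : ℝ) : UnitAddCircle) =
      yy (ka ξ * t + kb ξ) := by
    have h3 : ((ffib (x, Real.arctan t / Real.pi) : ℝ) : UnitAddCircle) ≠
        ((1 / 2 : ℝ) : UnitAddCircle) := by
      rw [Ne, coe_eq_half_iff, M2_cos_ffib_eq_zero_iff]
      exact hc
    rw [← yy_ct h3, ct_coe, M2_tan_ffib hc]
    show yy (fa x * Real.tan (Real.pi * (Real.arctan t / Real.pi)) + fb x) = _
    rw [M2_pi_mul_div, Real.tan_arctan, ← hx, ka_coe, kb_coe]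
  refine Prod.ext (fmap_fst _) ?_
  rw [h1, fmap_toTorus]
  exact h2

lemma fmap_snd_eq_half_iff (p : Torus) :
    (fmap p).2 = ((1 / 2 : ℝ) : UnitAddCircle) ↔ p.2 = ((1 / 2 : ℝ) : UnitAddCircle) := by
  have h1 : p = toTorus (rep p) := (toTorus_rep p).symm
  rw [h1, fmap_toTorus]
  simp only [toTorus, flift]
  rw [coe_eq_half_iff, coe_eq_half_iff, M2_cos_ffib_eq_zero_iff]

lemma fmap_iterate_yy (n : ℕ) (ξ : UnitAddCircle) (t : ℝ) :
    fmap^[n] (ξ, yy t) = ((3 ^ n : ℕ) • ξ, yy (fiter n ξ t)) := by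
  induction n with
  | zero => simp [fiter]
  | succ n ih =>
    rw [Function.iterate_succ_apply', ih, fmap_yy, smul_smul, pow_succ, mul_comm 3]
    rfl

lemma continuous_fmap : Continuous fmap := by
  rw [← isOpenQuotientMap_toTorus.isQuotientMap.continuous_iff.symm.trans Iff.rfl]
  have : fmap ∘ toTorus = toTorus ∘ flift := by
    funext v
    exact fmap_toTorus v
  rw [this]
  exact continuous_toTorus.comp (contDiff_flift (n := 0)).continuous

/-! ### The derivative -/

lemma M2_differentiable_flift : Differentiable ℝ flift :=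
  (contDiff_flift (n := 1)).differentiable one_ne_zero

lemma M2_hasFDerivAt_flift (v : ℝ × ℝ) : HasFDerivAt flift (fderiv ℝ flift v) v :=
  (M2_differentiable_flift v).hasFDerivAt

lemma M2_differentiable_iterate (n : ℕ) : Differentiable ℝ (flift^[n]) :=
  M2_differentiable_flift.iterate n

lemma M2_iterate_fst (n : ℕ) (v : ℝ × ℝ) : (flift^[n] v).1 = 3 ^ n * v.1 := by
  induction n with
  | zero => simp
  | succ n ih =>
    rw [Function.iterate_succ_apply']
    show 3 * (flift^[n] v).1 = _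
    rw [ih]
    ring

lemma M2_fderiv_iterate_fst (n : ℕ) (v w : ℝ × ℝ) :
    (fderiv ℝ (flift^[n]) v w).1 = 3 ^ n * w.1 := by
  have h1 : HasFDerivAt (fun u : ℝ × ℝ => (flift^[n] u).1)
      ((ContinuousLinearMap.fst ℝ ℝ ℝ).comp (fderiv ℝ (flift^[n]) v)) v :=
    (M2_differentiable_iterate n v).hasFDerivAt.fst
  have h2 : HasFDerivAt (fun u : ℝ × ℝ => (flift^[n] u).1)
      (((3 : ℝ) ^ n) • ContinuousLinearMap.fst ℝ ℝ ℝ) v := by
    have e : (fun u : ℝ × ℝ => (flift^[n] u).1) = fun u : ℝ × ℝ => (3 : ℝ) ^ n * u.1 := by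
      funext u
      exact M2_iterate_fst n u
    rw [e]
    exact (hasFDerivAt_fst (𝕜 := ℝ) (p := v)).const_mul _
  have h3 := h1.unique h2
  have h4 := congrArg (fun L : ℝ × ℝ →L[ℝ] ℝ => L w) h3
  simpa using h4

/-- the first row of the derivative is `(3^n, 0)`. -/
lemma fD_fst (n : ℕ) (p : Torus) (w : ℝ × ℝ) : (D flift n p w).1 = 3 ^ n * w.1 :=
  M2_fderiv_iterate_fst n (rep p) w

lemma M2_fderiv_vert (x y : ℝ) : fderiv ℝ flift (x, y) (0, 1) =
    (0, fa x / (Real.cos (Real.pi * y) ^ 2 +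
      (fa x * Real.sin (Real.pi * y) + fb x * Real.cos (Real.pi * y)) ^ 2)) := by
  have h0 : HasDerivAt (fun t : ℝ => ((x, t) : ℝ × ℝ)) ((0 : ℝ), (1 : ℝ)) y :=
    (hasDerivAt_const y x).prodMk (hasDerivAt_id' y)
  have h1 : HasDerivAt (fun t : ℝ => flift (x, t)) (fderiv ℝ flift (x, y) (0, 1)) y :=
    (M2_hasFDerivAt_flift (x, y)).comp_hasDerivAt y h0
  have h2 : HasDerivAt (fun t : ℝ => flift (x, t)) ((0 : ℝ),
      fa x / (Real.cos (Real.pi * y) ^ 2 +
        (fa x * Real.sin (Real.pi * y) + fb x * Real.cos (Real.pi * y)) ^ 2)) y := by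
    unfold flift
    exact (hasDerivAt_const y (3 * x)).prodMk (hasDerivAt_ffib x y)
  exact h1.unique h2

lemma M2_fderiv_succ (n : ℕ) (v : ℝ × ℝ) : fderiv ℝ (flift^[n + 1]) v =
    (fderiv ℝ flift (flift^[n] v)).comp (fderiv ℝ (flift^[n]) v) := by
  rw [Function.iterate_succ']
  exact ((M2_hasFDerivAt_flift (flift^[n] v)).comp v
    (M2_differentiable_iterate n v).hasFDerivAt).fderiv

lemma M2_vert (n : ℕ) (v : ℝ × ℝ) (hc : Real.cos (Real.pi * v.2) ≠ 0) :
    Real.cos (Real.pi * (flift^[n] v).2) ≠ 0 ∧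
    Real.tan (Real.pi * (flift^[n] v).2) =
      fiter n (v.1 : UnitAddCircle) (Real.tan (Real.pi * v.2)) ∧
    fderiv ℝ (flift^[n]) v (0, 1) = (0, (∏ k ∈ range n, ka ((3 ^ k : ℕ) •
      (v.1 : UnitAddCircle))) * (1 + Real.tan (Real.pi * v.2) ^ 2) /
      (1 + fiter n (v.1 : UnitAddCircle) (Real.tan (Real.pi * v.2)) ^ 2)) := by
  induction n with
  | zero =>
    refine ⟨hc, rfl, ?_⟩
    have h1 : fderiv ℝ (flift^[0]) v = ContinuousLinearMap.id ℝ (ℝ × ℝ) := by
      rw [Function.iterate_zero]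
      exact fderiv_id
    rw [h1]
    simp only [ContinuousLinearMap.coe_id', id_eq, Finset.range_zero, Finset.prod_empty, one_mul,
      fiter]
    rw [div_self (by positivity)]
  | succ n ih =>
    obtain ⟨h1, h2, h3⟩ := ih
    have hx : ((3 ^ n : ℕ) • (v.1 : UnitAddCircle)) = (((flift^[n] v).1 : ℝ) : UnitAddCircle) := by
      rw [M2_iterate_fst, ← AddCircle.coe_nsmul]
      simp
    have hcos : Real.cos (Real.pi * (flift^[n + 1] v).2) ≠ 0 := by
      rw [Function.iterate_succ_apply']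
      exact fun h => h1 ((M2_cos_ffib_eq_zero_iff _).1 h)
    have htan : Real.tan (Real.pi * (flift^[n + 1] v).2) =
        fiter (n + 1) (v.1 : UnitAddCircle) (Real.tan (Real.pi * v.2)) := by
      rw [Function.iterate_succ_apply']
      show Real.tan (Real.pi * ffib (flift^[n] v)) = _
      rw [M2_tan_ffib h1, h2]
      show _ = ka ((3 ^ n : ℕ) • (v.1 : UnitAddCircle)) * _ + kb ((3 ^ n : ℕ) • _)
      rw [hx, ka_coe, kb_coe]
    refine ⟨hcos, htan, ?_⟩
    rw [M2_fderiv_succ, ContinuousLinearMap.comp_apply, h3]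
    have h4 : ((0 : ℝ), (∏ k ∈ range n, ka ((3 ^ k : ℕ) • (v.1 : UnitAddCircle))) *
        (1 + Real.tan (Real.pi * v.2) ^ 2) /
        (1 + fiter n (v.1 : UnitAddCircle) (Real.tan (Real.pi * v.2)) ^ 2)) =
        ((∏ k ∈ range n, ka ((3 ^ k : ℕ) • (v.1 : UnitAddCircle))) *
        (1 + Real.tan (Real.pi * v.2) ^ 2) /
        (1 + fiter n (v.1 : UnitAddCircle) (Real.tan (Real.pi * v.2)) ^ 2)) •
          ((0 : ℝ), (1 : ℝ)) := by
      rw [Prod.smul_mk, smul_zero, smul_eq_mul, mul_one]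
    rw [h4, map_smul, show flift^[n] v = ((flift^[n] v).1, (flift^[n] v).2) from rfl,
      M2_fderiv_vert, Prod.smul_mk, smul_zero, smul_eq_mul, Finset.prod_range_succ, ← htan, ← h2]
    rw [Function.iterate_succ_apply']
    show _ = ((0 : ℝ), _ / (1 + Real.tan (Real.pi * ffib (flift^[n] v)) ^ 2))
    rw [M2_tan_ffib h1, hx, ka_coe]
    congr 1
    generalize (flift^[n] v).1 = x
    generalize (flift^[n] v).2 = y at h1
    generalize (∏ k ∈ range n, ka ((3 ^ k : ℕ) • (v.1 : UnitAddCircle))) = Q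
    generalize Real.tan (Real.pi * v.2) = t0
    have h5 : Real.tan (Real.pi * y) = Real.sin (Real.pi * y) / Real.cos (Real.pi * y) :=
      Real.tan_eq_sin_div_cos _
    rw [h5]
    have h6 := Real.sin_sq_add_cos_sq (Real.pi * y)
    generalize Real.sin (Real.pi * y) = s at h6 ⊢
    generalize Real.cos (Real.pi * y) = c at h1 h6 ⊢
    have e1 : 1 + (s / c) ^ 2 = 1 / c ^ 2 := by
      field_simp
      linarith
    have e2 : 1 + (fa x * (s / c) + fb x) ^ 2 =
        (c ^ 2 + (fa x * s + fb x * c) ^ 2) / c ^ 2 := by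
      field_simp
    have hpos : 0 < c ^ 2 + (fa x * s + fb x * c) ^ 2 := by positivity
    rw [e1, e2]
    field_simp

lemma M2_rep_coe (p : Torus) : (((rep p).1 : ℝ) : UnitAddCircle) = p.1 ∧
    (((rep p).2 : ℝ) : UnitAddCircle) = p.2 := by
  have h := toTorus_rep p
  exact ⟨congrArg Prod.fst h, congrArg Prod.snd h⟩

/-- the derivative maps vertical vectors to vertical vectors. -/
lemma fD_vert (n : ℕ) (ξ : UnitAddCircle) (t : ℝ) : D flift n (ξ, yy t) (0, 1) =
    (0, (∏ k ∈ range n, ka ((3 ^ k : ℕ) • ξ)) * (1 + t ^ 2) / (1 + fiter n ξ t ^ 2)) := by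
  obtain ⟨h1, h2⟩ := M2_rep_coe (ξ, yy t)
  have h3 : Real.tan (Real.pi * (rep (ξ, yy t)).2) = t := by
    rw [← ct_coe, h2, ct_yy]
  have h4 : Real.cos (Real.pi * (rep (ξ, yy t)).2) ≠ 0 := by
    intro h
    rw [← coe_eq_half_iff, h2] at h
    exact yy_ne_half t h
  have h5 := (M2_vert n (rep (ξ, yy t)) h4).2.2
  rw [h3, h1] at h5
  exact h5

lemma M2_fderiv_injective (v : ℝ × ℝ) : Function.Injective (fderiv ℝ flift v) := by
  rw [injective_iff_map_eq_zero]
  intro w hw
  have h1 := M2_fderiv_iterate_fst 1 v w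
  rw [Function.iterate_one, hw] at h1
  have hw1 : w.1 = 0 := by
    simp only [Prod.fst_zero, pow_one] at h1
    linarith
  have hw2 : w = w.2 • ((0 : ℝ), (1 : ℝ)) := by
    ext <;> simp [hw1]
  rw [hw2, map_smul, show v = (v.1, v.2) from rfl, M2_fderiv_vert] at hw
  have h2 := congrArg Prod.snd hw
  simp only [Prod.smul_mk, smul_eq_mul, mul_zero, Prod.snd_zero] at h2
  have h3 : w.2 = 0 := by
    rcases mul_eq_zero.1 h2 with h | h
    · exact h
    · exact absurd h (fvert_pos v.1 v.2).ne'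
  rw [hw2, h3]
  simp

lemma M2_iterate_injective (n : ℕ) (v : ℝ × ℝ) :
    Function.Injective (fderiv ℝ (flift^[n]) v) := by
  induction n with
  | zero =>
    have h1 : fderiv ℝ (flift^[0]) v = ContinuousLinearMap.id ℝ (ℝ × ℝ) := by
      rw [Function.iterate_zero]
      exact fderiv_id
    rw [h1]
    exact Function.injective_id
  | succ n ih =>
    rw [M2_fderiv_succ]
    exact (M2_fderiv_injective _).comp ih

lemma fD_bijective (n : ℕ) (p : Torus) : Function.Bijective (D flift n p) :=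
  ⟨M2_iterate_injective n (rep p),
    (LinearMap.injective_iff_surjective (f := (D flift n p).toLinearMap)).1
      (M2_iterate_injective n (rep p))⟩

theorem isEndomorphism_fmap : IsEndomorphism flift fmap where
  lift := fmap_toTorus
  smooth := contDiff_flift
  localDiffeo := by
    intro v
    refine ⟨M2_fderiv_injective v, ?_⟩
    exact (LinearMap.injective_iff_surjective (f := (fderiv ℝ flift v).toLinearMap)).1
      (M2_fderiv_injective v)
  not_injective := by
    intro hinj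
    have h1 : fmap (((1 / 3 : ℝ) : UnitAddCircle),
        yy (-kb ((1 / 3 : ℝ) : UnitAddCircle) / ka ((1 / 3 : ℝ) : UnitAddCircle))) =
        fmap (0, yy 0) := by
      rw [fmap_yy, fmap_yy, smul_zero, ← AddCircle.coe_nsmul,
        mul_div_cancel₀ _ (ka_pos _).ne', neg_add_cancel, mul_zero, zero_add]
      have h2 : kb 0 = 0 := by
        have := kb_coe 0
        rw [AddCircle.coe_zero] at this
        rw [this]
        simp [fb]
      rw [h2]
      simp only [Prod.mk.injEq, and_true]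
      rw [AddCircle.coe_eq_zero_iff]
      exact ⟨1, by norm_num⟩
    have h2 := congrArg Prod.fst (hinj h1)
    simp only at h2
    rw [AddCircle.coe_eq_zero_iff] at h2
    obtain ⟨n, hn⟩ := h2
    simp only [zsmul_eq_mul, mul_one] at hn
    have h3 : (n : ℝ) * 3 = 1 := by rw [hn]; norm_num
    have h4 : n * 3 = 1 := by exact_mod_cast h3
    omega

/-! ### Lifts -/

/-- `F^n` commutes with integer translations up to integer translations. -/
lemma flift_iterate_add_int (n : ℕ) (v : ℝ × ℝ) (k l : ℤ) :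
    flift^[n] (v.1 + k, v.2 + l) = ((flift^[n] v).1 + (3 ^ n * k : ℤ), (flift^[n] v).2 + l) := by
  induction n with
  | zero => simp
  | succ n ih =>
    rw [Function.iterate_succ_apply', ih, flift_add_int, Function.iterate_succ_apply']
    refine Prod.ext ?_ rfl
    show (flift (flift^[n] v)).1 + ((3 * (3 ^ n * k) : ℤ) : ℝ) = _
    congr 2
    ring

/-- the derivative at a point of the torus may be computed at any lift. -/
lemma fD_toTorus (n : ℕ) (v : ℝ × ℝ) : D flift n (toTorus v) = fderiv ℝ (flift^[n]) v := by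
  obtain ⟨k, l, h⟩ := exists_rep_toTorus v
  unfold D
  rw [h]
  have h1 : (fun u : ℝ × ℝ => flift^[n] (u + ((k : ℝ), (l : ℝ)))) =
      fun u : ℝ × ℝ => flift^[n] u + (((3 ^ n * k : ℤ) : ℝ), (l : ℝ)) := by
    funext u
    have h2 : u + ((k : ℝ), (l : ℝ)) = (u.1 + k, u.2 + l) := rfl
    rw [h2, flift_iterate_add_int]
    rfl
  have h2 : fderiv ℝ (fun u : ℝ × ℝ => flift^[n] (u + ((k : ℝ), (l : ℝ)))) v =
      fderiv ℝ (flift^[n]) (v + ((k : ℝ), (l : ℝ))) := fderiv_comp_add_right _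
  rw [h1, fderiv_add_const] at h2
  exact h2.symm

lemma fmap_iterate_toTorus (n : ℕ) (v : ℝ × ℝ) :
    fmap^[n] (toTorus v) = toTorus (flift^[n] v) := by
  induction n with
  | zero => rfl
  | succ n ih => rw [Function.iterate_succ_apply', ih, fmap_toTorus, Function.iterate_succ_apply']

/-! ### The fixed points -/

lemma M2_flift_zero {x : ℝ} (hx : Real.sin (2 * Real.pi * x) = 0) : flift (x, 0) = (3 * x, 0) := by
  unfold flift ffib fquo fb
  simp [hx]

lemma M2_fderiv_zero {x : ℝ} (hx : Real.sin (2 * Real.pi * x) = 0) :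
    fderiv ℝ flift (x, 0) = diag 3 (fa x) := by
  have h0 : HasDerivAt (fun t : ℝ => ((t, 0) : ℝ × ℝ)) ((1 : ℝ), (0 : ℝ)) x :=
    (hasDerivAt_id' x).prodMk (hasDerivAt_const x 0)
  have hl : HasFDerivAt flift (fderiv ℝ flift ((x : ℝ), (0 : ℝ)))
      ((fun t : ℝ => ((t, 0) : ℝ × ℝ)) x) :=
    M2_hasFDerivAt_flift _
  have h1 : HasDerivAt (flift ∘ fun t : ℝ => ((t, 0) : ℝ × ℝ)) (fderiv ℝ flift (x, 0) (1, 0)) x :=
    hl.comp_hasDerivAt x h0
  have hs : HasDerivAt (fun t : ℝ => Real.sin (2 * Real.pi * t))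
      (Real.cos (2 * Real.pi * x) * (2 * Real.pi)) x := by
    exact (((hasDerivAt_id' x).const_mul (2 * Real.pi)).sin).congr_deriv (by ring)
  have hb : HasDerivAt fb 0 x := by
    unfold fb
    have h := (hs.fun_pow 3).div_const 10
    refine h.congr_deriv ?_
    rw [hx]
    simp
  have hb' : HasDerivAt (fun t : ℝ => Real.arctan (fb t) / Real.pi) 0 x := by
    refine (hb.arctan.div_const Real.pi).congr_deriv ?_
    simp
  have h2 : HasDerivAt (flift ∘ fun t : ℝ => ((t, 0) : ℝ × ℝ)) ((3 : ℝ), (0 : ℝ)) x := by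
    have e : (flift ∘ fun t : ℝ => ((t, 0) : ℝ × ℝ)) =
        fun t : ℝ => (3 * t, Real.arctan (fb t) / Real.pi) := by
      funext t
      simp [flift, ffib, fquo, fden]
    rw [e]
    have := ((hasDerivAt_id' x).const_mul 3).prodMk hb'
    simpa using this
  have h3 := h1.unique h2
  have h4 := M2_fderiv_vert x 0
  have h5 : fb x = 0 := by
    unfold fb
    rw [hx]
    norm_num
  simp only [mul_zero, Real.cos_zero, Real.sin_zero, h5] at h4
  ext
  · simp [h3]
  · simp [h3]
  · simp [h4]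
  · simp [h4]

lemma M2_sin_three {x : ℝ} (hx : Real.sin (2 * Real.pi * x) = 0) :
    Real.sin (2 * Real.pi * (3 * x)) = 0 := by
  have : 2 * Real.pi * (3 * x) = 3 * (2 * Real.pi * x) := by ring
  rw [this, Real.sin_three_mul, hx]
  norm_num

lemma M2_iterate_zero {x : ℝ} (hx : Real.sin (2 * Real.pi * x) = 0) (n : ℕ) :
    Real.sin (2 * Real.pi * (3 ^ n * x)) = 0 ∧ flift^[n] (x, 0) = (3 ^ n * x, 0) ∧
    HasFDerivAt (flift^[n]) (diag (3 ^ n) (∏ k ∈ range n, fa (3 ^ k * x))) (x, 0) := by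
  induction n with
  | zero =>
    refine ⟨by simpa using hx, by simp, ?_⟩
    have : diag (3 ^ 0) (∏ k ∈ range 0, fa (3 ^ k * x)) = ContinuousLinearMap.id ℝ (ℝ × ℝ) := by
      ext <;> simp
    rw [this]
    exact hasFDerivAt_id _
  | succ n ih =>
    obtain ⟨h1, h2, h3⟩ := ih
    have e : (3 : ℝ) ^ (n + 1) * x = 3 * (3 ^ n * x) := by ring
    refine ⟨?_, ?_, ?_⟩
    · rw [e]
      exact M2_sin_three h1
    · rw [Function.iterate_succ_apply', h2, M2_flift_zero h1, e]
    · rw [Function.iterate_succ']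
      have h4 : HasFDerivAt flift (diag 3 (fa (3 ^ n * x))) (flift^[n] (x, 0)) := by
        rw [h2, ← M2_fderiv_zero h1]
        exact M2_hasFDerivAt_flift _
      have h5 := h4.comp (x, 0) h3
      rw [diag_comp] at h5
      have h6 : diag (3 ^ (n + 1)) (∏ k ∈ range (n + 1), fa (3 ^ k * x)) =
          diag (3 * 3 ^ n) (fa (3 ^ n * x) * ∏ k ∈ range n, fa (3 ^ k * x)) := by
        rw [Finset.prod_range_succ, pow_succ]
        congr 1 <;> ring
      rw [h6]
      exact h5

lemma M2_fixed {x : ℝ} (hx : Real.sin (2 * Real.pi * x) = 0)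
    (h3 : ∀ k : ℕ, ((3 ^ k : ℕ) • (x : UnitAddCircle)) = (x : UnitAddCircle)) (n : ℕ) :
    D flift n ((x : UnitAddCircle), 0) = diag (3 ^ n) (ka (x : UnitAddCircle) ^ n) := by
  have h1 : (((x : UnitAddCircle), 0) : Torus) = toTorus (x, 0) := by
    simp [toTorus]
  rw [h1, fD_toTorus, (M2_iterate_zero hx n).2.2.fderiv]
  congr 1
  have h2 : ∀ k ∈ range n, fa (3 ^ k * x) = ka (x : UnitAddCircle) := by
    intro k _
    rw [← h3 k, ← AddCircle.coe_nsmul, ka_coe]
    congr 1
    simp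
  rw [Finset.prod_congr rfl h2, Finset.prod_const, Finset.card_range]

/-- the derivative at the fixed point `(0, 0)`. -/
lemma fD_zero (n : ℕ) : D flift n (0, 0) = diag (3 ^ n) (ka 0 ^ n) := by
  have h := M2_fixed (x := 0) (by simp) (fun k => by rw [AddCircle.coe_zero, smul_zero]) n
  rw [AddCircle.coe_zero] at h
  exact h

/-- the derivative at the fixed point `(1/2, 0)`. -/
lemma fD_half (n : ℕ) : D flift n (((1 / 2 : ℝ) : UnitAddCircle), 0) =
    diag (3 ^ n) (ka ((1 / 2 : ℝ) : UnitAddCircle) ^ n) := by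
  have h1 : (3 : ℕ) • ((1 / 2 : ℝ) : UnitAddCircle) = ((1 / 2 : ℝ) : UnitAddCircle) := by
    rw [← sub_eq_zero, ← AddCircle.coe_nsmul, ← AddCircle.coe_sub, AddCircle.coe_eq_zero_iff]
    exact ⟨1, by norm_num⟩
  refine M2_fixed ?_ (fun k => ?_) n
  · rw [show 2 * Real.pi * (1 / 2) = Real.pi by ring, Real.sin_pi]
  · induction k with
    | zero => simp
    | succ k ih => rw [pow_succ, mul_comm, mul_smul, ih, h1]

end Pool.Agent.FS
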