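import Mathlib
import Pool.Agent.Lib_MP_a891d2_fs.FSFacts

/-! # S1: estimates along the past -/

namespace Pool.Agent.FS

open MeasureTheory Filter Topology Finset
open Pool.Agent.Results.MP_a891d2_an.TorusExample

/-- the sums of `cos 2πξ` along the past -/
private noncomputable def S1_sg (ξ : ℕ → UnitAddCircle) (n : ℕ) : ℝ :=
  ∑ k ∈ range n, cc (ξ (k + 1))

private lemma S1_abs_sg_le (ξ : ℕ → UnitAddCircle) (n : ℕ) : |S1_sg ξ n| ≤ n := by
  unfold S1_sg
  calc |∑ k ∈ range n, cc (ξ (k + 1))| ≤ ∑ k ∈ range n, |cc (ξ (k + 1))| :=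
        abs_sum_le_sum_abs _ _
    _ ≤ ∑ _k ∈ range n, (1 : ℝ) := sum_le_sum fun k _ => abs_cc_le _
    _ = n := by simp

private lemma S1_sg_tlq (ξ : ℕ → UnitAddCircle) (n m : ℕ) :
    S1_sg (tlq ξ n) m = S1_sg ξ (n + m) - S1_sg ξ n := by
  unfold S1_sg tlq
  rw [sum_range_add]
  have : ∀ k, ξ (k + 1 + n) = ξ (n + k + 1) := fun k => by
    congr 1
    omega
  simp only [this]
  ring

/-- `Good` in terms of linear bounds -/
private lemma S1_good_iff (ξ : ℕ → UnitAddCircle) :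
    Good ξ ↔ ∀ e : ℝ, 0 < e → ∃ C : ℝ, ∀ n : ℕ, |S1_sg ξ n| ≤ C + e * n := by
  constructor
  · intro h e he
    have h1 : ∀ᶠ n : ℕ in atTop, |S1_sg ξ n / n| < e := by
      have h2 := (tendsto_order.1 (h.abs)).2 e (by simpa using he)
      exact h2
    obtain ⟨N, hN⟩ := eventually_atTop.1 h1
    refine ⟨N, fun n => ?_⟩
    rcases le_total N n with hn | hn
    · rcases Nat.eq_zero_or_pos n with h0 | h0
      · subst h0
        have := S1_abs_sg_le ξ 0
        simp only [Nat.cast_zero, mul_zero, add_zero] at this ⊢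
        exact this.trans (Nat.cast_nonneg _)
      · have h3 := hN n hn
        have h4 : (0 : ℝ) < n := by exact_mod_cast h0
        rw [abs_div, abs_of_pos h4, div_lt_iff₀ h4] at h3
        have h5 : (0 : ℝ) ≤ N := Nat.cast_nonneg _
        linarith
    · have h3 := S1_abs_sg_le ξ n
      have h4 : (n : ℝ) ≤ N := by exact_mod_cast hn
      have h5 : 0 ≤ e * n := by positivity
      linarith
  · intro h
    unfold Good
    rw [Metric.tendsto_atTop]
    intro ε hε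
    obtain ⟨C, hC⟩ := h (ε / 2) (by positivity)
    obtain ⟨N, hN⟩ := exists_nat_gt (2 * (|C| + 1) / ε)
    refine ⟨N, fun n hn => ?_⟩
    have hC0 : 0 ≤ |C| := abs_nonneg C
    have h1 : 2 * (|C| + 1) / ε < n := hN.trans_le (by exact_mod_cast hn)
    have h2 : 0 < 2 * (|C| + 1) / ε := by positivity
    have h3 : (0 : ℝ) < n := h2.trans h1
    rw [div_lt_iff₀ hε] at h1
    rw [Real.dist_eq, sub_zero, abs_div, abs_of_pos h3, div_lt_iff₀ h3]
    have h4 := hC n
    unfold S1_sg at h4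
    have h5 := le_abs_self C
    nlinarith

private lemma S1_prod_eq (ξ : ℕ → UnitAddCircle) (n m : ℕ) :
    ∏ j ∈ range m, ka (ξ (n + j + 1)) =
      Real.exp (-Real.sqrt 2 * m + 3 * (S1_sg ξ (n + m) - S1_sg ξ n)) := by
  unfold ka
  rw [← Real.exp_sum, sum_add_distrib, sum_const, card_range, nsmul_eq_mul, ← mul_sum]
  have : S1_sg ξ (n + m) - S1_sg ξ n = ∑ j ∈ range m, cc (ξ (n + j + 1)) := by
    unfold S1_sg
    rw [sum_range_add]
    ring
  rw [this]
  ring_nf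

private lemma S1_pp_eq (ξ : ℕ → UnitAddCircle) (n : ℕ) :
    pp ξ n = Real.exp (-Real.sqrt 2 * n + 3 * S1_sg ξ n) := by
  have h := S1_prod_eq ξ 0 n
  have e1 : ∏ j ∈ range n, ka (ξ (0 + j + 1)) = pp ξ n := by
    unfold pp
    refine prod_congr rfl fun j _ => ?_
    rw [zero_add]
  rw [e1] at h
  rw [h, zero_add]
  congr 2
  unfold S1_sg
  simp

private lemma S1_pp_pos (ξ : ℕ → UnitAddCircle) (n : ℕ) : 0 < pp ξ n := by
  rw [S1_pp_eq]
  exact Real.exp_pos _

/-- uniform estimate of the products of multipliers along the past. -/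
lemma prod_le {ξ : ℕ → UnitAddCircle} (h : Good ξ) {e : ℝ} (he : 0 < e) :
    ∃ C : ℝ, 0 < C ∧ ∀ n m : ℕ, ∏ j ∈ range m, ka (ξ (n + j + 1)) ≤
      C * Real.exp (e * n - (Real.sqrt 2 - e) * m) := by
  obtain ⟨C, hC⟩ := (S1_good_iff ξ).1 h (e / 6) (by positivity)
  refine ⟨Real.exp (6 * C), Real.exp_pos _, fun n m => ?_⟩
  rw [S1_prod_eq, ← Real.exp_add, Real.exp_le_exp]
  have h1 := hC (n + m)
  have h2 := hC n
  have h3 := le_abs_self (S1_sg ξ (n + m))
  have h4 := neg_abs_le (S1_sg ξ n)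
  push_cast at h1
  have h5 : 0 ≤ e * m := by positivity
  nlinarith

private lemma S1_sqrt2 : 1 < Real.sqrt 2 := by
  rw [Real.lt_sqrt] <;> norm_num

private lemma S1_ratio_lt : Real.exp (-(Real.sqrt 2 - 1)) < 1 := by
  rw [Real.exp_lt_one_iff]
  have := S1_sqrt2
  linarith

private lemma S1_pp_tlq_le {ξ : ℕ → UnitAddCircle} (h : Good ξ) {e : ℝ} (he : 0 < e) :
    ∃ C : ℝ, 0 < C ∧ ∀ n m : ℕ,
      pp (tlq ξ n) m ≤ C * Real.exp (e * n) * Real.exp (-(Real.sqrt 2 - 1)) ^ m := by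
  obtain ⟨C, hC0, hC⟩ := prod_le h (e := min e 1) (lt_min he one_pos)
  refine ⟨C, hC0, fun n m => ?_⟩
  have e1 : pp (tlq ξ n) m = ∏ j ∈ range m, ka (ξ (n + j + 1)) := by
    unfold pp tlq
    refine prod_congr rfl fun j _ => ?_
    congr 2
    omega
  rw [e1, mul_assoc, ← Real.exp_nat_mul, ← Real.exp_add]
  refine (hC n m).trans ?_
  refine mul_le_mul_of_nonneg_left ?_ hC0.le
  rw [Real.exp_le_exp]
  have h1 : min e 1 ≤ e := min_le_left _ _
  have h2 : min e 1 ≤ 1 := min_le_right _ _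
  have h3 : (0 : ℝ) ≤ n := Nat.cast_nonneg _
  have h4 : (0 : ℝ) ≤ m := Nat.cast_nonneg _
  nlinarith [mul_le_mul_of_nonneg_right h1 h3, mul_le_mul_of_nonneg_right h2 h4]

private lemma S1_tlq_zero (ξ : ℕ → UnitAddCircle) : tlq ξ 0 = ξ := rfl

lemma summable_pp {ξ : ℕ → UnitAddCircle} (h : Good ξ) : Summable (pp ξ) := by
  obtain ⟨C, hC0, hC⟩ := S1_pp_tlq_le h one_pos
  refine Summable.of_nonneg_of_le (fun n => (S1_pp_pos ξ n).le) (fun m => ?_)
    ((summable_geometric_of_lt_one (Real.exp_pos _).le S1_ratio_lt).mul_left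
      (C * Real.exp (1 * (0 : ℕ))))
  exact hC 0 m

private lemma S1_term_le (ξ : ℕ → UnitAddCircle) (n : ℕ) (a : UnitAddCircle) :
    ‖pp ξ n * kb a‖ ≤ pp ξ n := by
  rw [norm_mul, Real.norm_of_nonneg (S1_pp_pos ξ n).le, Real.norm_eq_abs]
  have h1 := abs_kb_le a
  have h2 := S1_pp_pos ξ n
  nlinarith

lemma summable_tt {ξ : ℕ → UnitAddCircle} (h : Good ξ) :
    Summable fun n => pp ξ n * kb (ξ (n + 1)) :=
  Summable.of_norm_bounded (summable_pp h) fun n => S1_term_le ξ n _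

lemma good_tlq {ξ : ℕ → UnitAddCircle} (h : Good ξ) (n : ℕ) : Good (tlq ξ n) := by
  rw [S1_good_iff] at h ⊢
  intro e he
  obtain ⟨C, hC⟩ := h e he
  refine ⟨C + e * n + |S1_sg ξ n|, fun m => ?_⟩
  rw [S1_sg_tlq]
  have h1 := hC (n + m)
  have h2 := abs_sub (S1_sg ξ (n + m)) (S1_sg ξ n)
  push_cast at h1
  linarith

lemma good_of_tlq {ξ : ℕ → UnitAddCircle} {n : ℕ} (h : Good (tlq ξ n)) : Good ξ := by
  rw [S1_good_iff] at h ⊢
  intro e he
  obtain ⟨C, hC⟩ := h e he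
  have hC0 : 0 ≤ C := by
    have := hC 0
    simp only [Nat.cast_zero, mul_zero, add_zero] at this
    exact (abs_nonneg _).trans this
  refine ⟨C + |S1_sg ξ n| + n, fun m => ?_⟩
  have h0 : 0 ≤ |S1_sg ξ n| := abs_nonneg _
  rcases le_total n m with hnm | hnm
  · obtain ⟨k, rfl⟩ := Nat.exists_eq_add_of_le hnm
    have h1 := hC k
    rw [S1_sg_tlq] at h1
    have h2 : |S1_sg ξ (n + k)| ≤ |S1_sg ξ (n + k) - S1_sg ξ n| + |S1_sg ξ n| := by
      have := abs_add_le (S1_sg ξ (n + k) - S1_sg ξ n) (S1_sg ξ n)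
      rwa [sub_add_cancel] at this
    push_cast
    have h3 : 0 ≤ e * n := by positivity
    have h4 : (0 : ℝ) ≤ n := Nat.cast_nonneg _
    nlinarith
  · have h1 := S1_abs_sg_le ξ m
    have h2 : (m : ℝ) ≤ n := by exact_mod_cast hnm
    have h3 : 0 ≤ e * m := by positivity
    linarith

private lemma S1_pp_succ (ξ : ℕ → UnitAddCircle) (n : ℕ) :
    pp ξ (n + 1) = ka (ξ 1) * pp (tlq ξ 1) n := by
  unfold pp tlq
  rw [prod_range_succ', mul_comm]

lemma tt_cons {ξ : ℕ → UnitAddCircle} (h : Good ξ) :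
    tt ξ = ka (ξ 1) * tt (tlq ξ 1) + kb (ξ 1) := by
  have e1 : tt ξ = pp ξ 0 * kb (ξ (0 + 1)) + ∑' n, pp ξ (n + 1) * kb (ξ (n + 1 + 1)) :=
    (summable_tt h).tsum_eq_zero_add
  have e2 : pp ξ 0 = 1 := by
    unfold pp
    simp
  have e3 : ∑' n, pp ξ (n + 1) * kb (ξ (n + 1 + 1)) = ka (ξ 1) * tt (tlq ξ 1) := by
    unfold tt
    rw [← tsum_mul_left]
    refine tsum_congr fun n => ?_
    rw [S1_pp_succ, mul_assoc]
    rfl
  rw [e1, e2, e3, one_mul, zero_add, add_comm]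

private lemma S1_tlq_tlq (ξ : ℕ → UnitAddCircle) (n : ℕ) : tlq (tlq ξ n) 1 = tlq ξ (n + 1) := by
  funext k
  unfold tlq
  congr 1
  omega

lemma tt_telescope {ξ : ℕ → UnitAddCircle} (h : Good ξ) (n : ℕ) :
    tt ξ = pp ξ n * tt (tlq ξ n) + ∑ j ∈ range n, pp ξ j * kb (ξ (j + 1)) := by
  induction n with
  | zero =>
    rw [S1_tlq_zero]
    unfold pp
    simp
  | succ n ih =>
    have e1 : pp ξ (n + 1) = pp ξ n * ka (ξ (n + 1)) := by
      unfold pp
      rw [prod_range_succ]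
    have e2 := tt_cons (good_tlq h n)
    have e3 : tlq ξ n 1 = ξ (n + 1) := by
      unfold tlq
      rw [add_comm]
    rw [S1_tlq_tlq, e3] at e2
    rw [sum_range_succ, e1, ih, e2]
    ring

lemma pp_bound {ξ : ℕ → UnitAddCircle} (h : Good ξ) {e : ℝ} (he : 0 < e) :
    ∃ C : ℝ, 0 < C ∧ ∀ n : ℕ, ∑' m, pp (tlq ξ n) m ≤ C * Real.exp (e * n) := by
  obtain ⟨C, hC0, hC⟩ := S1_pp_tlq_le h he
  have hr : 0 < 1 - Real.exp (-(Real.sqrt 2 - 1)) := sub_pos.2 S1_ratio_lt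
  refine ⟨C * (1 - Real.exp (-(Real.sqrt 2 - 1)))⁻¹, by positivity, fun n => ?_⟩
  have hg := hasSum_geometric_of_lt_one (Real.exp_pos _).le S1_ratio_lt
  calc ∑' m, pp (tlq ξ n) m
      ≤ ∑' m : ℕ, C * Real.exp (e * n) * Real.exp (-(Real.sqrt 2 - 1)) ^ m :=
        (summable_pp (good_tlq h n)).tsum_le_tsum (hC n) (hg.summable.mul_left _)
    _ = C * Real.exp (e * n) * (1 - Real.exp (-(Real.sqrt 2 - 1)))⁻¹ := by
        rw [tsum_mul_left, hg.tsum_eq]
    _ = _ := by ring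

lemma tt_bound {ξ : ℕ → UnitAddCircle} (h : Good ξ) {e : ℝ} (he : 0 < e) :
    ∃ C : ℝ, 0 < C ∧ ∀ n : ℕ, |tt (tlq ξ n)| ≤ C * Real.exp (e * n) := by
  obtain ⟨C, hC0, hC⟩ := pp_bound h he
  refine ⟨C, hC0, fun n => le_trans ?_ (hC n)⟩
  rw [← Real.norm_eq_abs]
  unfold tt
  exact tsum_of_norm_bounded (summable_pp (good_tlq h n)).hasSum fun m => S1_term_le _ m _

lemma tendsto_pp_exp {ξ : ℕ → UnitAddCircle} (h : Good ξ) {e : ℝ} (he : e < Real.sqrt 2) :
    Tendsto (fun n : ℕ => pp ξ n * Real.exp (e * n)) atTop (𝓝 0) := by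
  have hd : 0 < (Real.sqrt 2 - e) / 2 := by linarith
  obtain ⟨C, hC0, hC⟩ := prod_le h hd
  have h1 : Tendsto (fun n : ℕ => C * Real.exp (-((Real.sqrt 2 - e) / 2)) ^ n) atTop
      (𝓝 (C * 0)) :=
    (tendsto_pow_atTop_nhds_zero_of_lt_one (Real.exp_pos _).le (by
      rw [Real.exp_lt_one_iff]
      linarith)).const_mul C
  rw [mul_zero] at h1
  refine squeeze_zero (fun n => (mul_pos (S1_pp_pos ξ n) (Real.exp_pos _)).le) (fun n => ?_) h1
  have e1 : pp ξ n = ∏ j ∈ range n, ka (ξ (0 + j + 1)) := by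
    unfold pp
    refine prod_congr rfl fun j _ => ?_
    rw [zero_add]
  have h2 := hC 0 n
  rw [← e1] at h2
  calc pp ξ n * Real.exp (e * n) ≤
      (C * Real.exp ((Real.sqrt 2 - e) / 2 * (0 : ℕ) -
        (Real.sqrt 2 - (Real.sqrt 2 - e) / 2) * n)) * Real.exp (e * n) :=
        mul_le_mul_of_nonneg_right h2 (Real.exp_pos _).le
    _ = C * Real.exp (-((Real.sqrt 2 - e) / 2)) ^ n := by
        rw [mul_assoc, ← Real.exp_add, ← Real.exp_nat_mul]
        congr 2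
        push_cast
        ring

/-- `(1/n) log (∏ ka)` tends to `-√2`. -/
lemma tendsto_log_pp {ξ : ℕ → UnitAddCircle} (h : Good ξ) :
    Tendsto (fun n : ℕ => Real.log (pp ξ n) / n) atTop (𝓝 (-Real.sqrt 2)) := by
  have h1 : Tendsto (fun n : ℕ => -Real.sqrt 2 + 3 * (S1_sg ξ n / n)) atTop
      (𝓝 (-Real.sqrt 2 + 3 * 0)) := tendsto_const_nhds.add (Tendsto.const_mul 3 h)
  rw [mul_zero, add_zero] at h1
  refine h1.congr' ?_
  filter_upwards [eventually_gt_atTop 0] with n hn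
  have hn0 : (n : ℝ) ≠ 0 := by exact_mod_cast hn.ne'
  rw [S1_pp_eq, Real.log_exp]
  field_simp

lemma measurable_tt : Measurable tt := by
  have hterm : ∀ n : ℕ, Measurable fun ξ : ℕ → UnitAddCircle => pp ξ n * kb (ξ (n + 1)) := by
    intro n
    have h1 : Measurable fun ξ : ℕ → UnitAddCircle => pp ξ n := by
      unfold pp
      exact Finset.measurable_fun_prod _ fun j _ =>
        continuous_ka.measurable.comp (measurable_pi_apply (j + 1))
    exact h1.mul (continuous_kb.measurable.comp (measurable_pi_apply (n + 1)))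
  set S : Set (ℕ → UnitAddCircle) :=
    {ξ | ∑' n, ENNReal.ofReal |pp ξ n * kb (ξ (n + 1))| ≠ ⊤} with hS
  have hSm : MeasurableSet S := by
    have h1 : Measurable fun ξ : ℕ → UnitAddCircle =>
        ∑' n, ENNReal.ofReal |pp ξ n * kb (ξ (n + 1))| :=
      Measurable.tsum fun n => (hterm n).abs.ennreal_ofReal
    exact (measurableSet_singleton (⊤ : ENNReal)).compl.preimage h1
  have hSs : ∀ ξ, ξ ∈ S ↔ Summable fun n => pp ξ n * kb (ξ (n + 1)) := by
    intro ξ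
    rw [hS, Set.mem_ofPred_eq, ← summable_abs_iff]
    constructor
    · intro h1
      have h2 := ENNReal.summable_toReal h1
      refine h2.congr fun n => ?_
      rw [ENNReal.toReal_ofReal (abs_nonneg _)]
    · intro h1
      exact h1.tsum_ofReal_ne_top
  have hg : ∀ n : ℕ, Measurable (S.indicator fun ξ =>
      ∑ k ∈ range n, pp ξ k * kb (ξ (k + 1))) := fun n =>
    (Finset.measurable_fun_sum _ fun k _ => hterm k).indicator hSm
  refine measurable_of_tendsto_metrizable hg ?_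
  rw [tendsto_pi_nhds]
  intro ξ
  by_cases hξ : ξ ∈ S
  · have h1 := ((hSs ξ).1 hξ).hasSum.tendsto_sum_nat
    refine h1.congr fun n => ?_
    rw [Set.indicator_of_mem hξ]
  · have h1 : tt ξ = 0 := tsum_eq_zero_of_not_summable fun h => hξ ((hSs ξ).2 h)
    rw [h1]
    refine tendsto_const_nhds.congr fun n => ?_
    rw [Set.indicator_of_notMem hξ]

end Pool.Agent.FS
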