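import Mathlib
import Pool.Agent.Lib_MP_a891d2_fs.FSDefs

/-! # G1 (uses only the old library) -/

set_option autoImplicit false

namespace Pool.Agent.FS

open MeasureTheory Filter Topology Finset
open Pool.Agent.Results.MP_a891d2_an.TorusExample

/-- cylinder sets of the solenoid -/
def G1_cyl : Set (Set Sol) :=
  {S | ∃ (n : ℕ) (C : Set UnitAddCircle), MeasurableSet C ∧ S = (fun x : Sol => x.1 n) ⁻¹' C}

lemma G1_raise (n k : ℕ) (C : Set UnitAddCircle) (hC : MeasurableSet C) :
    ∃ C' : Set UnitAddCircle, MeasurableSet C' ∧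
      (fun x : Sol => x.1 n) ⁻¹' C = (fun x : Sol => x.1 (n + k)) ⁻¹' C' := by
  refine ⟨(fun ξ : UnitAddCircle => (3 ^ k : ℕ) • ξ) ⁻¹' C, (continuous_nsmul (3 ^ k)).measurable hC, ?_⟩
  ext x
  simp only [Set.mem_preimage]
  rw [Sol.pow x n k]

lemma G1_algebra : IsSetAlgebra G1_cyl where
  empty_mem := ⟨0, ∅, MeasurableSet.empty, by simp⟩
  compl_mem := by
    rintro s ⟨n, C, hC, rfl⟩
    exact ⟨n, Cᶜ, hC.compl, rfl⟩
  union_mem := by
    rintro s t ⟨n, C, hC, rfl⟩ ⟨m, D, hD, rfl⟩
    obtain ⟨C', hC', e1⟩ := G1_raise n m C hC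
    obtain ⟨D', hD', e2⟩ := G1_raise m n D hD
    refine ⟨n + m, C' ∪ D', hC'.union hD', ?_⟩
    rw [e1, e2, add_comm m n, Set.preimage_union]

lemma G1_generate : (inferInstance : MeasurableSpace Sol) = MeasurableSpace.generateFrom G1_cyl := by
  apply le_antisymm
  · show MeasurableSpace.comap Subtype.val (⨆ n, MeasurableSpace.comap (fun f : ℕ → UnitAddCircle => f n) _) ≤ _
    rw [MeasurableSpace.comap_iSup]
    refine iSup_le fun n => ?_
    rw [MeasurableSpace.comap_comp]
    rintro _ ⟨C, hC, rfl⟩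
    exact MeasurableSpace.measurableSet_generateFrom ⟨n, C, hC, rfl⟩
  · refine MeasurableSpace.generateFrom_le ?_
    rintro _ ⟨n, C, hC, rfl⟩
    exact (continuous_proj n).measurable hC

theorem ergodic_triple : Ergodic triple haarSol := by
  refine ⟨measurePreserving_triple, ⟨fun s hs hinv => ?_⟩⟩
  have hdense : haarSol.MeasureDense G1_cyl :=
    Measure.MeasureDense.of_generateFrom_isSetAlgebra_finite haarSol G1_algebra G1_generate
  -- approximation by sets depending on the first coordinate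
  have happ : ∀ ε : ℝ, 0 < ε → ∃ C : Set UnitAddCircle, MeasurableSet C ∧
      haarSol (symmDiff s ((fun x : Sol => x.1 0) ⁻¹' C)) < ENNReal.ofReal ε := by
    intro ε hε
    obtain ⟨t, ⟨n, C, hC, rfl⟩, ht⟩ := hdense.approx s hs (measure_ne_top _ _) ε hε
    refine ⟨C, hC, ?_⟩
    have h1 : ∀ k, (triple^[k]) ⁻¹' s = s := by
      intro k
      induction k with
      | zero => rfl
      | succ k ih => rw [Function.iterate_succ', Set.preimage_comp, hinv, ih]
    have h2' : ∀ k m : ℕ, ∀ x : Sol, (triple^[k] x).1 m = (3 ^ k : ℕ) • x.1 m := by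
      intro k m
      induction k with
      | zero => intro x; simp
      | succ k ih =>
        intro x
        rw [Function.iterate_succ_apply, ih (triple x), pow_succ, mul_smul]
        rfl
    have h2 : ∀ k : ℕ, ∀ x : Sol, (triple^[k] x).1 k = x.1 0 := by
      intro k x
      rw [h2' k k x]
      have := Sol.pow x 0 k
      rw [zero_add] at this
      exact this
    have h3 : symmDiff s ((fun x : Sol => x.1 0) ⁻¹' C) =
        (triple^[n]) ⁻¹' (symmDiff s ((fun x : Sol => x.1 n) ⁻¹' C)) := by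
      rw [Set.preimage_symmDiff, h1 n]
      congr 1
      ext x
      simp only [Set.mem_preimage]
      rw [h2 n x]
    have hC' : MeasurableSet ((fun x : Sol => x.1 n) ⁻¹' C) := (continuous_proj n).measurable hC
    rw [h3, (measurePreserving_triple.iterate n).measure_preimage (hs.symmDiff hC').nullMeasurableSet]
    exact ht
  choose! C hCm hC using happ
  set D : ℕ → Set UnitAddCircle := fun k => C ((1 / 2 : ℝ) ^ k) with hD
  have hDm : ∀ k, MeasurableSet (D k) := fun k => hCm _ (by positivity)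
  have hDs : ∑' k, haarSol (symmDiff s ((fun x : Sol => x.1 0) ⁻¹' (D k))) ≠ ⊤ := by
    have h1 : ∑' k, haarSol (symmDiff s ((fun x : Sol => x.1 0) ⁻¹' (D k))) ≤
        ∑' k : ℕ, ENNReal.ofReal ((1 / 2 : ℝ) ^ k) :=
      ENNReal.tsum_le_tsum fun k => (hC _ (by positivity)).le
    refine ne_top_of_le_ne_top ?_ h1
    rw [← ENNReal.ofReal_tsum_of_nonneg (fun k => by positivity) summable_geometric_two]
    exact ENNReal.ofReal_ne_top
  set E : Set UnitAddCircle := {ξ | ∃ᶠ k in atTop, ξ ∈ D k} with hE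
  have hEm : MeasurableSet E := by
    have : E = limsup D atTop := by
      ext ξ
      rw [mem_limsup_iff_frequently_mem]
      rfl
    rw [this]
    exact MeasurableSet.measurableSet_limsup hDm
  have hsE : ∀ᵐ x ∂haarSol, (x ∈ s ↔ x.1 0 ∈ E) := by
    filter_upwards [ae_eventually_notMem hDs] with x hx
    have h1 : ∀ᶠ k in atTop, (x ∈ s ↔ x.1 0 ∈ D k) := by
      filter_upwards [hx] with k hk
      rw [Set.mem_symmDiff] at hk
      push Not at hk
      exact ⟨fun h => hk.1 h, fun h => hk.2 h⟩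
    constructor
    · intro h
      have h2 : ∀ᶠ k in atTop, x.1 0 ∈ D k := h1.mono fun k hk => hk.1 h
      exact h2.frequently
    · intro h
      obtain ⟨k, hk1, hk2⟩ := (Frequently.and_eventually h h1).exists
      exact hk2.2 hk1
  have hinvE : ∀ᵐ ξ ∂(volume : Measure UnitAddCircle), ((3 : ℕ) • ξ ∈ E ↔ ξ ∈ E) := by
    have h1 : ∀ᵐ x ∂haarSol, ((3 : ℕ) • x.1 0 ∈ E ↔ x.1 0 ∈ E) := by
      have h2 := measurePreserving_triple.quasiMeasurePreserving.ae hsE
      filter_upwards [hsE, h2] with x hx1 hx2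
      have h3 : triple x ∈ s ↔ x ∈ s := by
        rw [← Set.mem_preimage, hinv]
      rw [← hx1, ← h3, hx2]
      rfl
    have hm : MeasurableSet {ξ : UnitAddCircle | (3 : ℕ) • ξ ∈ E ↔ ξ ∈ E} := by
      have e1 : {ξ : UnitAddCircle | (3 : ℕ) • ξ ∈ E ↔ ξ ∈ E} =
          (symmDiff ((fun ξ : UnitAddCircle => (3 : ℕ) • ξ) ⁻¹' E) E)ᶜ := by
        ext ξ
        rw [Set.mem_compl_iff, Set.mem_symmDiff]
        simp only [Set.mem_ofPred_eq, Set.mem_preimage]
        tauto
      rw [e1]
      exact (((continuous_nsmul 3).measurable hEm).symmDiff hEm).compl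
    rw [← (measurePreserving_proj 0).map_eq]
    exact (ae_map_iff (measurePreserving_proj 0).measurable.aemeasurable hm).2 h1
  have herg : Ergodic (fun ξ : UnitAddCircle => (3 : ℕ) • ξ) volume := AddCircle.ergodic_nsmul (by norm_num)
  have h4 := herg.quasiErgodic.ae_empty_or_univ₀ hEm.nullMeasurableSet (by
    filter_upwards [hinvE] with ξ hξ
    exact propext hξ)
  rw [eventuallyConst_set']
  rcases h4 with h4 | h4
  · left
    have h5 := (measurePreserving_proj 0).quasiMeasurePreserving.ae h4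
    filter_upwards [hsE, h5] with x hx1 hx2
    apply propext
    show x ∈ s ↔ x ∈ (∅ : Set Sol)
    rw [hx1]
    have : (x.1 0 ∈ E) = (x.1 0 ∈ (∅ : Set UnitAddCircle)) := hx2
    rw [this]
    simp
  · right
    have h5 := (measurePreserving_proj 0).quasiMeasurePreserving.ae h4
    filter_upwards [hsE, h5] with x hx1 hx2
    apply propext
    show x ∈ s ↔ x ∈ (Set.univ : Set Sol)
    rw [hx1]
    have : (x.1 0 ∈ E) = (x.1 0 ∈ (Set.univ : Set UnitAddCircle)) := hx2
    rw [this]
    simp

end Pool.Agent.FS
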