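import Mathlib
import Pool.Agent.Lib_MP_a891d2_fs.FSBack

/-! # S2 (uses S1) -/

namespace Pool.Agent.FS

open MeasureTheory Filter Topology Finset
open Pool.Agent.Results.MP_a891d2_an.TorusExample

lemma S2_cs_coe (x : ℝ) : cs (x : UnitAddCircle) = Real.sin (2 * Real.pi * x) := by
  unfold cs
  rw [fourier_coe_apply]
  have h : (2 * Real.pi * Complex.I * ((1 : ℤ) : ℂ) * (x : ℂ) / ((1 : ℝ) : ℂ) : ℂ) =
      ((2 * Real.pi * x : ℝ) : ℂ) * Complex.I := by
    push_cast
    ring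
  rw [h, Complex.exp_ofReal_mul_I_im]

lemma S2_exists (η : UnitAddCircle) : ∃ t : ℝ, (t : UnitAddCircle) = η :=
  QuotientAddGroup.mk_surjective η

lemma S2_cs_sq (η : UnitAddCircle) : cs η ^ 2 + cc η ^ 2 = 1 := by
  obtain ⟨t, rfl⟩ := S2_exists η
  rw [S2_cs_coe, cc_coe]
  exact Real.sin_sq_add_cos_sq _

lemma S2_abs_cs (η : UnitAddCircle) : |cs η| ≤ 1 := by
  obtain ⟨t, rfl⟩ := S2_exists η
  rw [S2_cs_coe]
  exact Real.abs_sin_le_one _

lemma S2_continuous_cs : Continuous cs := Complex.continuous_im.comp (ContinuousMap.continuous _)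

lemma S2_hasDerivAt_cc (η : UnitAddCircle) (r : ℝ) :
    HasDerivAt (fun r : ℝ => cc (η + (r : UnitAddCircle)))
      (-(2 * Real.pi) * cs (η + (r : UnitAddCircle))) r := by
  obtain ⟨t, rfl⟩ := S2_exists η
  have h1 : (fun r : ℝ => cc ((t : UnitAddCircle) + (r : UnitAddCircle))) =
      fun r : ℝ => Real.cos (2 * Real.pi * (t + r)) := by
    funext r
    rw [← AddCircle.coe_add, cc_coe]
  rw [h1, ← AddCircle.coe_add, S2_cs_coe]
  have h2 : HasDerivAt (fun r : ℝ => 2 * Real.pi * (t + r)) (2 * Real.pi) r := by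
    simpa using ((hasDerivAt_id r).const_add t).const_mul (2 * Real.pi)
  have h3 := h2.cos
  refine h3.congr_deriv ?_
  ring

lemma S2_hasDerivAt_cs (η : UnitAddCircle) (r : ℝ) :
    HasDerivAt (fun r : ℝ => cs (η + (r : UnitAddCircle)))
      ((2 * Real.pi) * cc (η + (r : UnitAddCircle))) r := by
  obtain ⟨t, rfl⟩ := S2_exists η
  have h1 : (fun r : ℝ => cs ((t : UnitAddCircle) + (r : UnitAddCircle))) =
      fun r : ℝ => Real.sin (2 * Real.pi * (t + r)) := by
    funext r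
    rw [← AddCircle.coe_add, S2_cs_coe]
  rw [h1, ← AddCircle.coe_add, cc_coe]
  have h2 : HasDerivAt (fun r : ℝ => 2 * Real.pi * (t + r)) (2 * Real.pi) r := by
    simpa using ((hasDerivAt_id r).const_add t).const_mul (2 * Real.pi)
  have h3 := h2.sin
  refine h3.congr_deriv ?_
  ring

lemma S2_abs_cc_sub (η : UnitAddCircle) (r : ℝ) :
    |cc (η + (r : UnitAddCircle)) - cc η| ≤ 2 * Real.pi * |r| := by
  obtain ⟨t, rfl⟩ := S2_exists η
  rw [← AddCircle.coe_add, cc_coe, cc_coe]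
  have h := Real.lipschitzWith_cos.dist_le_mul (2 * Real.pi * (t + r)) (2 * Real.pi * t)
  rw [Real.dist_eq, Real.dist_eq] at h
  have h2 : |2 * Real.pi * (t + r) - 2 * Real.pi * t| = 2 * Real.pi * |r| := by
    rw [show 2 * Real.pi * (t + r) - 2 * Real.pi * t = 2 * Real.pi * r by ring, abs_mul,
      abs_of_pos Real.two_pi_pos]
  rw [h2] at h
  simpa using h

lemma S2_hasDerivAt_ka (η : UnitAddCircle) (r : ℝ) :
    HasDerivAt (fun r : ℝ => ka (η + (r : UnitAddCircle)))
      (-(6 * Real.pi) * cs (η + (r : UnitAddCircle)) * ka (η + (r : UnitAddCircle))) r := by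
  unfold ka
  have h := (((S2_hasDerivAt_cc η r).const_mul 3).const_add (-Real.sqrt 2)).exp
  refine h.congr_deriv ?_
  ring

lemma S2_hasDerivAt_kb (η : UnitAddCircle) (r : ℝ) :
    HasDerivAt (fun r : ℝ => kb (η + (r : UnitAddCircle)))
      (6 * Real.pi / 10 * cs (η + (r : UnitAddCircle)) ^ 2 * cc (η + (r : UnitAddCircle))) r := by
  unfold kb
  have h := ((S2_hasDerivAt_cs η r).fun_pow 3).div_const 10
  refine h.congr_deriv ?_
  push_cast
  ring

lemma S2_flow_coord (x : Sol) (s : ℝ) (j : ℕ) :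
    (x + flow s).1 j = x.1 j + ((s / 3 ^ j : ℝ) : UnitAddCircle) := rfl

lemma S2_ka_flow (x : Sol) (j : ℕ) (s : ℝ) :
    HasDerivAt (fun s : ℝ => ka ((x + flow s).1 j))
      (-(6 * Real.pi) * cs ((x + flow s).1 j) / 3 ^ j * ka ((x + flow s).1 j)) s := by
  have h1 := S2_hasDerivAt_ka (x.1 j) (s / 3 ^ j)
  have h2 : HasDerivAt (fun s : ℝ => s / 3 ^ j) (1 / 3 ^ j) s := (hasDerivAt_id s).div_const _
  have h3 := HasDerivAt.comp s h1 h2
  simp only [S2_flow_coord]
  refine h3.congr_deriv ?_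
  ring

lemma S2_kb_flow (x : Sol) (j : ℕ) (s : ℝ) :
    HasDerivAt (fun s : ℝ => kb ((x + flow s).1 j))
      (6 * Real.pi / 10 * cs ((x + flow s).1 j) ^ 2 * cc ((x + flow s).1 j) / 3 ^ j) s := by
  have h1 := S2_hasDerivAt_kb (x.1 j) (s / 3 ^ j)
  have h2 : HasDerivAt (fun s : ℝ => s / 3 ^ j) (1 / 3 ^ j) s := (hasDerivAt_id s).div_const _
  have h3 := HasDerivAt.comp s h1 h2
  simp only [S2_flow_coord]
  refine h3.congr_deriv ?_
  ring

lemma S2_pp_succ (ξ : ℕ → UnitAddCircle) (n : ℕ) : pp ξ (n + 1) = pp ξ n * ka (ξ (n + 1)) := by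
  unfold pp
  rw [prod_range_succ]

lemma S2_pp_pos (ξ : ℕ → UnitAddCircle) (n : ℕ) : 0 < pp ξ n :=
  prod_pos fun _ _ => Real.exp_pos _

lemma S2_pp_flow (x : Sol) (n : ℕ) (s : ℝ) :
    HasDerivAt (fun s : ℝ => pp (x + flow s).1 n)
      (pp (x + flow s).1 n *
        ∑ j ∈ range n, -(6 * Real.pi) * cs ((x + flow s).1 (j + 1)) / 3 ^ (j + 1)) s := by
  induction n with
  | zero =>
    simp only [pp, range_zero, prod_empty, sum_empty, mul_zero]
    exact hasDerivAt_const s (1 : ℝ)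
  | succ n ih =>
    have h := ih.mul (S2_ka_flow x (n + 1) s)
    have h1 : (fun s : ℝ => pp (x + flow s).1 (n + 1)) =
        (fun s : ℝ => pp (x + flow s).1 n) * fun s : ℝ => ka ((x + flow s).1 (n + 1)) := by
      funext t
      exact S2_pp_succ _ _
    rw [h1]
    refine h.congr_deriv ?_
    rw [S2_pp_succ, sum_range_succ]
    ring

lemma S2_dterm (x : Sol) (n : ℕ) (s : ℝ) :
    HasDerivAt (fun s : ℝ => pp (x + flow s).1 n * kb ((x + flow s).1 (n + 1)))
      (dterm (x + flow s).1 n) s := by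
  have h := (S2_pp_flow x n s).mul (S2_kb_flow x (n + 1) s)
  refine h.congr_deriv ?_
  unfold dterm
  ring

lemma S2_pp_le (x : Sol) (s : ℝ) (n : ℕ) :
    pp (x + flow s).1 n ≤ Real.exp (3 * Real.pi * |s| * (1 - 1 / 3 ^ n)) * pp x.1 n := by
  induction n with
  | zero => simp [pp]
  | succ n ih =>
    rw [S2_pp_succ, S2_pp_succ]
    have h1 : ka ((x + flow s).1 (n + 1)) ≤
        Real.exp (6 * Real.pi * |s| / 3 ^ (n + 1)) * ka (x.1 (n + 1)) := by
      rw [S2_flow_coord]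
      unfold ka
      rw [← Real.exp_add]
      apply Real.exp_le_exp.2
      have h2 := (abs_le.1 (S2_abs_cc_sub (x.1 (n + 1)) (s / 3 ^ (n + 1)))).2
      rw [abs_div, abs_of_pos (by positivity : (0 : ℝ) < 3 ^ (n + 1))] at h2
      have h3 : 6 * Real.pi * |s| / 3 ^ (n + 1) = 3 * (2 * Real.pi * (|s| / 3 ^ (n + 1))) := by ring
      rw [h3]
      linarith
    have h4 : Real.exp (3 * Real.pi * |s| * (1 - 1 / 3 ^ (n + 1))) =
        Real.exp (3 * Real.pi * |s| * (1 - 1 / 3 ^ n)) *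
          Real.exp (6 * Real.pi * |s| / 3 ^ (n + 1)) := by
      rw [← Real.exp_add]
      congr 1
      rw [pow_succ]
      field_simp
      ring
    rw [h4]
    calc pp (x + flow s).1 n * ka ((x + flow s).1 (n + 1))
        ≤ (Real.exp (3 * Real.pi * |s| * (1 - 1 / 3 ^ n)) * pp x.1 n) *
          (Real.exp (6 * Real.pi * |s| / 3 ^ (n + 1)) * ka (x.1 (n + 1))) :=
        mul_le_mul ih h1 (Real.exp_pos _).le
          (mul_nonneg (Real.exp_pos _).le (S2_pp_pos _ _).le)
      _ = _ := by ring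

lemma S2_pp_le' (x : Sol) (s : ℝ) (n : ℕ) :
    pp (x + flow s).1 n ≤ Real.exp (10 * |s|) * pp x.1 n := by
  refine (S2_pp_le x s n).trans (mul_le_mul_of_nonneg_right ?_ (S2_pp_pos _ _).le)
  apply Real.exp_le_exp.2
  have h1 : 3 * Real.pi ≤ 10 := by
    have := Real.pi_lt_d2
    linarith
  have h2 : (0 : ℝ) < 1 / 3 ^ n := by positivity
  have h3 : 3 * Real.pi * |s| * (1 - 1 / 3 ^ n) ≤ 3 * Real.pi * |s| * 1 :=
    mul_le_mul_of_nonneg_left (by linarith) (by positivity)
  have h4 : 3 * Real.pi * |s| ≤ 10 * |s| := mul_le_mul_of_nonneg_right h1 (abs_nonneg _)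
  linarith

lemma S2_sum_le (ξ : ℕ → UnitAddCircle) (n : ℕ) :
    |∑ j ∈ range n, -(6 * Real.pi) * cs (ξ (j + 1)) / 3 ^ (j + 1)| ≤
      3 * Real.pi * (1 - 1 / 3 ^ n) := by
  induction n with
  | zero => simp
  | succ n ih =>
    rw [sum_range_succ]
    refine (abs_add_le _ _).trans ?_
    have h1 : |-(6 * Real.pi) * cs (ξ (n + 1)) / 3 ^ (n + 1)| ≤ 6 * Real.pi / 3 ^ (n + 1) := by
      rw [abs_div, abs_mul, abs_neg, abs_of_pos (by positivity : (0 : ℝ) < 6 * Real.pi),
        abs_of_pos (by positivity : (0 : ℝ) < 3 ^ (n + 1))]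
      apply div_le_div_of_nonneg_right _ (by positivity)
      exact mul_le_of_le_one_right (by positivity) (S2_abs_cs _)
    have h2 : 3 * Real.pi * (1 - 1 / 3 ^ (n + 1)) =
        3 * Real.pi * (1 - 1 / 3 ^ n) + 6 * Real.pi / 3 ^ (n + 1) := by
      rw [pow_succ]
      field_simp
      ring
    rw [h2]
    exact add_le_add ih h1

lemma S2_dterm_le (ξ : ℕ → UnitAddCircle) (n : ℕ) : |dterm ξ n| ≤ 2 * pp ξ n := by
  unfold dterm
  rw [abs_mul, abs_of_pos (S2_pp_pos _ _), mul_comm]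
  refine mul_le_mul_of_nonneg_right ?_ (S2_pp_pos _ _).le
  refine (abs_add_le _ _).trans ?_
  have hpi := Real.pi_pos
  have hpi2 := Real.pi_lt_d2
  have h1 : |(∑ j ∈ range n, -(6 * Real.pi) * cs (ξ (j + 1)) / 3 ^ (j + 1)) * kb (ξ (n + 1))| ≤
      3 * Real.pi * (1 / 10) := by
    rw [abs_mul]
    refine mul_le_mul ?_ (abs_kb_le _) (abs_nonneg _) (by positivity)
    refine (S2_sum_le ξ n).trans ?_
    have : (0 : ℝ) < 1 / 3 ^ n := by positivity
    nlinarith
  have h2 : |6 * Real.pi / 10 * cs (ξ (n + 1)) ^ 2 * cc (ξ (n + 1)) / 3 ^ (n + 1)| ≤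
      6 * Real.pi / 10 * (1 / 3) := by
    rw [abs_div, abs_mul, abs_mul, abs_of_pos (by positivity : (0 : ℝ) < 6 * Real.pi / 10),
      abs_of_pos (by positivity : (0 : ℝ) < 3 ^ (n + 1)), abs_pow]
    have h3 : |cs (ξ (n + 1))| ^ 2 ≤ 1 := pow_le_one₀ (abs_nonneg _) (S2_abs_cs _)
    have h4 := abs_cc_le (ξ (n + 1))
    have h5 : |cs (ξ (n + 1))| ^ 2 * |cc (ξ (n + 1))| ≤ 1 :=
      mul_le_one₀ h3 (abs_nonneg _) h4
    have h6 : (3 : ℝ) ≤ 3 ^ (n + 1) := by
      rw [pow_succ]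
      have : (1 : ℝ) ≤ 3 ^ n := one_le_pow₀ (by norm_num)
      linarith
    rw [div_eq_mul_one_div]
    refine mul_le_mul ?_ (one_div_le_one_div_of_le (by norm_num) h6) (by positivity) (by positivity)
    calc 6 * Real.pi / 10 * |cs (ξ (n + 1))| ^ 2 * |cc (ξ (n + 1))|
        = 6 * Real.pi / 10 * (|cs (ξ (n + 1))| ^ 2 * |cc (ξ (n + 1))|) := by ring
      _ ≤ 6 * Real.pi / 10 * 1 := mul_le_mul_of_nonneg_left h5 (by positivity)
      _ = _ := by ring
  linarith

lemma S2_dterm_flow_le (x : Sol) (s : ℝ) (n : ℕ) :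
    |dterm (x + flow s).1 n| ≤ 2 * Real.exp (10 * |s|) * pp x.1 n := by
  refine (S2_dterm_le _ _).trans ?_
  rw [mul_assoc]
  exact mul_le_mul_of_nonneg_left (S2_pp_le' x s n) (by norm_num)

lemma S2_dterm_ball (x : Sol) {R s : ℝ} (hs : s ∈ Metric.ball (0 : ℝ) R) (n : ℕ) :
    ‖dterm (x + flow s).1 n‖ ≤ 2 * Real.exp (10 * R) * pp x.1 n := by
  rw [Real.norm_eq_abs]
  refine (S2_dterm_flow_le x s n).trans ?_
  refine mul_le_mul_of_nonneg_right ?_ (S2_pp_pos _ _).le
  refine mul_le_mul_of_nonneg_left (Real.exp_le_exp.2 ?_) (by norm_num)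
  rw [Metric.mem_ball, dist_zero_right, Real.norm_eq_abs] at hs
  linarith

lemma good_flow {x : Sol} (h : Good x.1) (s : ℝ) : Good (x + flow s).1 := by
  have hcc : Tendsto (fun n : ℕ => cc ((x + flow s).1 (n + 1)) - cc (x.1 (n + 1))) atTop
      (𝓝 0) := by
    have h1 : ∀ n : ℕ, |cc ((x + flow s).1 (n + 1)) - cc (x.1 (n + 1))| ≤
        2 * Real.pi * |s| * (1 / 3) ^ n := by
      intro n
      rw [S2_flow_coord]
      refine (S2_abs_cc_sub _ _).trans ?_
      rw [abs_div, abs_of_pos (by positivity : (0 : ℝ) < 3 ^ (n + 1)), ← mul_div_assoc,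
        one_div_pow, mul_one_div]
      apply div_le_div_of_nonneg_left (by positivity) (by positivity)
      rw [pow_succ]
      have : (0 : ℝ) < 3 ^ n := by positivity
      linarith
    have h2 : Tendsto (fun n : ℕ => 2 * Real.pi * |s| * (1 / 3 : ℝ) ^ n) atTop
        (𝓝 (2 * Real.pi * |s| * 0)) :=
      (tendsto_pow_atTop_nhds_zero_of_lt_one (by norm_num) (by norm_num)).const_mul _
    rw [mul_zero] at h2
    exact squeeze_zero_norm (fun n => by rw [Real.norm_eq_abs]; exact h1 n) h2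
  have h1 := hcc.cesaro
  have h2 := h1.add h
  simp only [add_zero] at h2
  unfold Good
  refine h2.congr fun n => ?_
  rw [Finset.sum_sub_distrib]
  ring

lemma stl_flow (x : Sol) (s : ℝ) (n : ℕ) : stl (x + flow s) n = stl x n + flow (s / 3 ^ n) := by
  apply Subtype.ext
  funext k
  show x.1 (k + n) + ((s / 3 ^ (k + n) : ℝ) : UnitAddCircle) =
    x.1 (k + n) + ((s / 3 ^ n / 3 ^ k : ℝ) : UnitAddCircle)
  congr 2
  rw [pow_add]
  field_simp

lemma triple_stl (x : Sol) : triple (stl x 1) = x := by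
  apply Subtype.ext
  funext k
  exact x.2 k

lemma stl_triple (x : Sol) : stl (triple x) 1 = x := by
  apply Subtype.ext
  funext k
  exact x.2 k

lemma good_triple {x : Sol} (h : Good x.1) : Good (triple x).1 := by
  have h1 : tlq (triple x).1 1 = x.1 := congrArg Subtype.val (stl_triple x)
  apply good_of_tlq (n := 1)
  rw [h1]
  exact h

lemma S2_flow_zero (x : Sol) : x + flow 0 = x := by
  apply Subtype.ext
  funext k
  show x.1 k + ((0 / 3 ^ k : ℝ) : UnitAddCircle) = x.1 k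
  rw [zero_div]
  exact add_zero _

lemma hasDerivAt_tt {x : Sol} (h : Good x.1) (s : ℝ) :
    HasDerivAt (fun s : ℝ => tt (x + flow s).1) (dd (x + flow s).1) s := by
  have hu : Summable fun n => 2 * Real.exp (10 * (|s| + 1)) * pp x.1 n :=
    (summable_pp h).mul_left _
  have h0 : (0 : ℝ) ∈ Metric.ball (0 : ℝ) (|s| + 1) := by
    rw [Metric.mem_ball, dist_self]
    positivity
  have hs : s ∈ Metric.ball (0 : ℝ) (|s| + 1) := by
    rw [Metric.mem_ball, dist_zero_right, Real.norm_eq_abs]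
    linarith
  exact hasDerivAt_tsum_of_isPreconnected hu Metric.isOpen_ball
    (convex_ball (0 : ℝ) (|s| + 1)).isPreconnected
    (fun n y _ => S2_dterm x n y) (fun n y hy => S2_dterm_ball x hy n) h0
    (summable_tt (good_flow h 0)) hs

lemma S2_continuous_flow_coord (x : Sol) (j : ℕ) : Continuous fun s : ℝ => (x + flow s).1 j :=
  (continuous_proj j).comp (continuous_const.add continuous_flow)

lemma S2_continuous_dterm (x : Sol) (n : ℕ) : Continuous fun s : ℝ => dterm (x + flow s).1 n := by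
  have h1 : ∀ j : ℕ, Continuous fun s : ℝ => cs ((x + flow s).1 j) := fun j =>
    S2_continuous_cs.comp (S2_continuous_flow_coord x j)
  have h2 : ∀ j : ℕ, Continuous fun s : ℝ => cc ((x + flow s).1 j) := fun j =>
    continuous_cc.comp (S2_continuous_flow_coord x j)
  have h3 : ∀ j : ℕ, Continuous fun s : ℝ => ka ((x + flow s).1 j) := fun j =>
    continuous_ka.comp (S2_continuous_flow_coord x j)
  have h4 : ∀ j : ℕ, Continuous fun s : ℝ => kb ((x + flow s).1 j) := fun j =>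
    continuous_kb.comp (S2_continuous_flow_coord x j)
  unfold dterm pp
  refine (continuous_finsetProd _ fun j _ => h3 (j + 1)).mul (Continuous.add ?_ ?_)
  · refine Continuous.mul ?_ (h4 (n + 1))
    exact continuous_finsetSum _ fun j _ => (continuous_const.mul (h1 (j + 1))).div_const _
  · exact ((continuous_const.mul ((h1 (n + 1)).pow 2)).mul (h2 (n + 1))).div_const _

lemma continuous_dd {x : Sol} (h : Good x.1) : Continuous fun s : ℝ => dd (x + flow s).1 := by
  rw [continuous_iff_continuousAt]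
  intro s
  have hu : Summable fun n => 2 * Real.exp (10 * (|s| + 1)) * pp x.1 n :=
    (summable_pp h).mul_left _
  have hs : s ∈ Metric.ball (0 : ℝ) (|s| + 1) := by
    rw [Metric.mem_ball, dist_zero_right, Real.norm_eq_abs]
    linarith
  have h1 : ContinuousOn (fun s : ℝ => ∑' n, dterm (x + flow s).1 n)
      (Metric.ball (0 : ℝ) (|s| + 1)) :=
    continuousOn_tsum (fun n => (S2_continuous_dterm x n).continuousOn) hu
      (fun n y hy => S2_dterm_ball x hy n)
  exact h1.continuousAt (Metric.isOpen_ball.mem_nhds hs)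

/-- `|d(z + flow s)| ≤ C e^{C|s|} ∑ pp z`. -/
lemma dd_le {x : Sol} (h : Good x.1) (s : ℝ) :
    |dd (x + flow s).1| ≤ 10 * Real.exp (10 * |s|) * ∑' m, pp x.1 m := by
  have hu : HasSum (fun n => 2 * Real.exp (10 * |s|) * pp x.1 n)
      (2 * Real.exp (10 * |s|) * ∑' m, pp x.1 m) := (summable_pp h).hasSum.mul_left _
  have h1 : ‖∑' n, dterm (x + flow s).1 n‖ ≤ 2 * Real.exp (10 * |s|) * ∑' m, pp x.1 m :=
    tsum_of_norm_bounded hu fun n => by
      rw [Real.norm_eq_abs]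
      exact S2_dterm_flow_le x s n
  rw [Real.norm_eq_abs] at h1
  refine h1.trans ?_
  have h2 : 0 ≤ ∑' m, pp x.1 m := tsum_nonneg fun m => (S2_pp_pos _ _).le
  refine mul_le_mul_of_nonneg_right ?_ h2
  have := Real.exp_pos (10 * |s|)
  linarith

lemma dd_bound {x : Sol} (h : Good x.1) {e : ℝ} (he : 0 < e) :
    ∃ C : ℝ, 0 < C ∧ ∀ n : ℕ, ∀ s : ℝ, |s| ≤ 1 → |dd (stl x n + flow s).1| ≤
      C * Real.exp (e * n) := by
  obtain ⟨C, hC, hC'⟩ := pp_bound h he
  refine ⟨10 * Real.exp 10 * C, by positivity, fun n s hs => ?_⟩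
  have h1 : Good (stl x n).1 := good_tlq h n
  refine (dd_le h1 s).trans ?_
  have h2 : Real.exp (10 * |s|) ≤ Real.exp 10 := Real.exp_le_exp.2 (by linarith)
  have h3 : ∑' m, pp (stl x n).1 m ≤ C * Real.exp (e * n) := hC' n
  have h4 : 0 ≤ ∑' m, pp (stl x n).1 m := tsum_nonneg fun m => (S2_pp_pos _ _).le
  calc 10 * Real.exp (10 * |s|) * ∑' m, pp (stl x n).1 m
      ≤ 10 * Real.exp 10 * (C * Real.exp (e * n)) :=
        mul_le_mul (by linarith) h3 h4 (by positivity)
    _ = _ := by ring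

lemma S2_triple_flow (x : Sol) (s : ℝ) : triple (x + flow s) = triple x + flow (3 * s) := by
  apply Subtype.ext
  funext k
  show (3 : ℕ) • (x.1 k + ((s / 3 ^ k : ℝ) : UnitAddCircle)) =
    (3 : ℕ) • x.1 k + ((3 * s / 3 ^ k : ℝ) : UnitAddCircle)
  rw [smul_add, ← AddCircle.coe_nsmul]
  congr 2
  simp only [nsmul_eq_mul, Nat.cast_ofNat]
  ring

lemma S2_tt_triple {x : Sol} (h : Good x.1) :
    tt (triple x).1 = ka (x.1 0) * tt x.1 + kb (x.1 0) := by
  have h1 : tlq (triple x).1 1 = x.1 := congrArg Subtype.val (stl_triple x)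
  have h2 : (triple x).1 1 = x.1 0 := x.2 0
  rw [tt_cons (good_triple h), h1, h2]

/-- the derived recursion, from `hasDerivAt_tt` and `tt_cons`. -/
lemma dd_triple {x : Sol} (h : Good x.1) : dd (triple x).1 =
    (ka (x.1 0) * dd x.1 - 6 * Real.pi * cs (x.1 0) * ka (x.1 0) * tt x.1 +
      6 * Real.pi / 10 * cs (x.1 0) ^ 2 * cc (x.1 0)) / 3 := by
  have h1 : HasDerivAt (fun s : ℝ => tt (triple (x + flow s)).1) (dd (triple x).1 * 3) 0 := by
    have h2 := hasDerivAt_tt (good_triple h) (3 * 0)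
    have h3 : HasDerivAt (fun s : ℝ => 3 * s) 3 (0 : ℝ) := by
      simpa using (hasDerivAt_id (0 : ℝ)).const_mul 3
    have h4 := HasDerivAt.comp (0 : ℝ) h2 h3
    rw [mul_zero, S2_flow_zero] at h4
    have h5 : (fun s : ℝ => tt (triple (x + flow s)).1) =
        (fun s : ℝ => tt (triple x + flow s).1) ∘ fun s : ℝ => 3 * s := by
      funext s
      rw [Function.comp_apply, S2_triple_flow]
    rw [h5]
    exact h4
  have h6 : HasDerivAt (fun s : ℝ => tt (triple (x + flow s)).1)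
      (-(6 * Real.pi) * cs (x.1 0) * ka (x.1 0) * tt x.1 + ka (x.1 0) * dd x.1 +
        6 * Real.pi / 10 * cs (x.1 0) ^ 2 * cc (x.1 0)) 0 := by
    have h7 := S2_ka_flow x 0 0
    have h8 := S2_kb_flow x 0 0
    have h9 := hasDerivAt_tt h 0
    have h10 := (h7.mul h9).add h8
    rw [S2_flow_zero, pow_zero, div_one, div_one] at h10
    have h11 : (fun s : ℝ => tt (triple (x + flow s)).1) =
        ((fun s : ℝ => ka ((x + flow s).1 0)) * fun s : ℝ => tt (x + flow s).1) +
          fun s : ℝ => kb ((x + flow s).1 0) := by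
      funext s
      exact S2_tt_triple (good_flow h s)
    rw [h11]
    exact h10
  have h12 := h1.unique h6
  linarith

end Pool.Agent.FS
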