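import Mathlib
import Pool.Agent.Lib_MP_a891d2_fs.FSFlow

/-! # S3 (uses S1, S2 statements) -/

namespace Pool.Agent.FS

open MeasureTheory Filter Topology Finset
open Pool.Agent.Results.MP_a891d2_an.TorusExample

lemma S3_triple_apply (x : Sol) (n : ℕ) : (triple x).1 n = (3 : ℕ) • x.1 n := rfl

lemma triple_iterate_apply (x : Sol) (n : ℕ) : (triple^[n] x).1 0 = (3 ^ n : ℕ) • x.1 0 := by
  induction n with
  | zero => simp
  | succ n ih =>
    rw [Function.iterate_succ_apply', S3_triple_apply, ih, ← mul_nsmul', pow_succ']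

lemma S3_tlq_triple (x : Sol) : tlq (triple x).1 1 = x.1 := by
  funext k
  show (3 : ℕ) • x.1 (k + 1) = x.1 k
  exact x.2 k

lemma tt_triple {x : Sol} (h : Good x.1) :
    tt (triple x).1 = ka (x.1 0) * tt x.1 + kb (x.1 0) := by
  have h1 := tt_cons (good_triple h)
  rw [S3_tlq_triple] at h1
  have h2 : (triple x).1 1 = x.1 0 := x.2 0
  rw [h2] at h1
  exact h1

lemma S3_good_iterate {x : Sol} (h : Good x.1) (n : ℕ) : Good (triple^[n] x).1 := by
  induction n with
  | zero => exact h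
  | succ n ih =>
    rw [Function.iterate_succ_apply']
    exact good_triple ih

lemma fiter_tt {x : Sol} (h : Good x.1) (n : ℕ) :
    fiter n (x.1 0) (tt x.1) = tt (triple^[n] x).1 := by
  induction n with
  | zero => rfl
  | succ n ih =>
    rw [Function.iterate_succ_apply', tt_triple (S3_good_iterate h n), triple_iterate_apply,
      ← ih]
    rfl

/-- the sums of the cosines -/
noncomputable def S3_sum (η : UnitAddCircle) (n : ℕ) : ℝ :=
  ∑ k ∈ range n, cc ((3 ^ k : ℕ) • η)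

lemma S3_prod (η : UnitAddCircle) {k n : ℕ} (hkn : k ≤ n) :
    ∏ j ∈ Ico k n, ka ((3 ^ j : ℕ) • η) =
      Real.exp (-Real.sqrt 2 * (n - k : ℕ) + 3 * (S3_sum η n - S3_sum η k)) := by
  unfold ka S3_sum
  rw [← Real.exp_sum, Finset.sum_add_distrib, ← Finset.mul_sum, Finset.sum_const, Nat.card_Ico,
    ← Finset.sum_Ico_eq_sub _ hkn]
  congr 1
  rw [nsmul_eq_mul]
  ring

lemma S3_sum_le {η : UnitAddCircle} (h : FGood η) {e : ℝ} (he : 0 < e) :
    ∃ C : ℝ, 0 < C ∧ ∀ n : ℕ, |S3_sum η n| ≤ C + e * n := by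
  have h1 : ∀ᶠ n : ℕ in atTop, |S3_sum η n / n| < e := by
    have h2 := (tendsto_order.1 (h.abs)).2 e (by simpa using he)
    exact h2
  obtain ⟨N, hN⟩ := eventually_atTop.1 h1
  refine ⟨∑ n ∈ range (N + 1), |S3_sum η n| + 1, by positivity, fun n => ?_⟩
  by_cases hn : n < N + 1
  · have h2 : |S3_sum η n| ≤ ∑ n ∈ range (N + 1), |S3_sum η n| :=
      Finset.single_le_sum (f := fun n => |S3_sum η n|) (fun _ _ => abs_nonneg _)
        (mem_range.2 hn)
    have h3 : 0 ≤ e * n := by positivity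
    linarith
  · have h2 := hN n (by omega)
    have hn0 : (0 : ℝ) < n := by exact_mod_cast (by omega : 0 < n)
    rw [abs_div, abs_of_pos hn0, div_lt_iff₀ hn0] at h2
    have h3 : 0 ≤ ∑ n ∈ range (N + 1), |S3_sum η n| :=
      Finset.sum_nonneg fun _ _ => abs_nonneg _
    linarith

/-- uniform estimate of the forward products -/
lemma S3_prod_le {η : UnitAddCircle} (h : FGood η) {e : ℝ} (he : 0 < e) :
    ∃ C : ℝ, 0 < C ∧ ∀ k n : ℕ, k ≤ n →
      ∏ j ∈ Ico k n, ka ((3 ^ j : ℕ) • η) ≤ C * Real.exp (e * n) := by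
  obtain ⟨C, hC, h1⟩ := S3_sum_le h (e := e / 6) (by positivity)
  refine ⟨Real.exp (6 * C), Real.exp_pos _, fun k n hkn => ?_⟩
  rw [S3_prod η hkn, ← Real.exp_add]
  refine Real.exp_le_exp.2 ?_
  have h2 := abs_le.1 (h1 n)
  have h3 := abs_le.1 (h1 k)
  have h4 : (0 : ℝ) ≤ ((n - k : ℕ) : ℝ) := Nat.cast_nonneg _
  have h5 : 0 ≤ Real.sqrt 2 * ((n - k : ℕ) : ℝ) := by positivity
  have h6 : (k : ℝ) ≤ n := by exact_mod_cast hkn
  have h7 : e / 6 * (k : ℝ) ≤ e / 6 * n := mul_le_mul_of_nonneg_left h6 (by positivity)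
  linarith

/-- a linear recursion -/
lemma S3_rec {u A B : ℕ → ℝ} (hA : ∀ n, 0 ≤ A n) (h : ∀ n, |u (n + 1)| ≤ A n * |u n| + B n)
    (n : ℕ) : |u n| ≤ (∏ j ∈ Ico 0 n, A j) * |u 0| +
      ∑ k ∈ range n, (∏ j ∈ Ico (k + 1) n, A j) * B k := by
  induction n with
  | zero => simp
  | succ n ih =>
    have h1 : A n * |u n| ≤ A n * ((∏ j ∈ Ico 0 n, A j) * |u 0| +
      ∑ k ∈ range n, (∏ j ∈ Ico (k + 1) n, A j) * B k) := mul_le_mul_of_nonneg_left ih (hA n)
    refine (h n).trans ((add_le_add_left h1 _).trans (le_of_eq ?_))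
    rw [Finset.sum_range_succ, Finset.prod_Ico_succ_top (Nat.zero_le n), Ico_self, prod_empty,
      one_mul, mul_add, Finset.mul_sum]
    have h2 : ∀ k ∈ range n, A n * ((∏ j ∈ Ico (k + 1) n, A j) * B k) =
        (∏ j ∈ Ico (k + 1) (n + 1), A j) * B k := by
      intro k hk
      rw [Finset.prod_Ico_succ_top (by have := mem_range.1 hk; omega)]
      ring
    rw [Finset.sum_congr rfl h2]
    ring

lemma S3_grow {u A B : ℕ → ℝ} {e C K : ℝ} (he : 0 < e) (hC : 0 < C) (hK : 0 < K)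
    (hA : ∀ n, 0 ≤ A n) (h : ∀ n, |u (n + 1)| ≤ A n * |u n| + B n)
    (hP : ∀ k n : ℕ, k ≤ n → ∏ j ∈ Ico k n, A j ≤ C * Real.exp (e * n))
    (hB : ∀ n : ℕ, B n ≤ K * Real.exp (e * n)) :
    ∃ C' : ℝ, 0 < C' ∧ ∀ n : ℕ, |u n| ≤ C' * Real.exp (3 * e * n) := by
  refine ⟨C * |u 0| + C * K / e + 1, by positivity, fun n => ?_⟩
  have h1 := S3_rec hA h n
  have h2 : (∏ j ∈ Ico 0 n, A j) * |u 0| ≤ C * Real.exp (3 * e * n) * |u 0| := by
    refine mul_le_mul_of_nonneg_right ((hP 0 n (Nat.zero_le _)).trans ?_) (abs_nonneg _)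
    refine mul_le_mul_of_nonneg_left (Real.exp_le_exp.2 ?_) hC.le
    have : 0 ≤ e * (n : ℝ) := by positivity
    linarith
  have h3 : ∀ k ∈ range n, (∏ j ∈ Ico (k + 1) n, A j) * B k ≤
      C * K * Real.exp (2 * e * n) := by
    intro k hk
    have hk' := mem_range.1 hk
    have h4 : (0 : ℝ) ≤ ∏ j ∈ Ico (k + 1) n, A j := prod_nonneg fun j _ => hA j
    have h5 : K * Real.exp (e * k) ≤ K * Real.exp (e * n) := by
      refine mul_le_mul_of_nonneg_left (Real.exp_le_exp.2 ?_) hK.le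
      refine mul_le_mul_of_nonneg_left ?_ he.le
      exact_mod_cast hk'.le
    calc (∏ j ∈ Ico (k + 1) n, A j) * B k
        ≤ (∏ j ∈ Ico (k + 1) n, A j) * (K * Real.exp (e * n)) :=
          mul_le_mul_of_nonneg_left ((hB k).trans h5) h4
      _ ≤ (C * Real.exp (e * n)) * (K * Real.exp (e * n)) :=
          mul_le_mul_of_nonneg_right (hP (k + 1) n hk') (by positivity)
      _ = C * K * (Real.exp (e * n) * Real.exp (e * n)) := by ring
      _ = C * K * Real.exp (2 * e * n) := by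
          rw [← Real.exp_add]
          congr 2
          ring
  have h4 : ∑ k ∈ range n, (∏ j ∈ Ico (k + 1) n, A j) * B k ≤
      n * (C * K * Real.exp (2 * e * n)) := by
    refine (Finset.sum_le_sum h3).trans (le_of_eq ?_)
    rw [Finset.sum_const, card_range, nsmul_eq_mul]
  have h5 : (n : ℝ) ≤ 1 / e * Real.exp (e * n) := by
    have h6 : e * (n : ℝ) ≤ Real.exp (e * n) := by
      have := Real.add_one_le_exp (e * (n : ℝ))
      linarith
    rw [one_div, ← div_eq_inv_mul, le_div_iff₀ he]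
    linarith
  have h6 : (n : ℝ) * (C * K * Real.exp (2 * e * n)) ≤ C * K / e * Real.exp (3 * e * n) := by
    calc (n : ℝ) * (C * K * Real.exp (2 * e * n))
        ≤ (1 / e * Real.exp (e * n)) * (C * K * Real.exp (2 * e * n)) :=
          mul_le_mul_of_nonneg_right h5 (by positivity)
      _ = C * K / e * (Real.exp (e * n) * Real.exp (2 * e * n)) := by ring
      _ = C * K / e * Real.exp (3 * e * n) := by
          rw [← Real.exp_add]
          congr 2
          ring
  have h7 : 0 < Real.exp (3 * e * n) := Real.exp_pos _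
  nlinarith

lemma tt_forward {x : Sol} (h : Good x.1) (h' : FGood (x.1 0)) {e : ℝ} (he : 0 < e) :
    ∃ C : ℝ, 0 < C ∧ ∀ n : ℕ, |tt (triple^[n] x).1| ≤ C * Real.exp (e * n) := by
  obtain ⟨C, hC, hP⟩ := S3_prod_le h' (e := e / 3) (by positivity)
  obtain ⟨C', hC', h1⟩ := S3_grow (u := fun n => tt (triple^[n] x).1)
    (A := fun n => ka ((3 ^ n : ℕ) • x.1 0)) (B := fun _ => 1) (e := e / 3) (C := C) (K := 1)
    (by positivity) hC one_pos (fun n => (ka_pos _).le) (fun n => by
      rw [Function.iterate_succ_apply', tt_triple (S3_good_iterate h n), triple_iterate_apply]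
      refine (abs_add_le _ _).trans ?_
      rw [abs_mul, abs_of_pos (ka_pos _)]
      have := abs_kb_le ((3 ^ n : ℕ) • x.1 0)
      linarith) hP (fun n => by
      rw [one_mul]
      exact Real.one_le_exp (by positivity))
  refine ⟨C', hC', fun n => (h1 n).trans (le_of_eq ?_)⟩
  congr 2
  ring

lemma S3_abs_cs (ξ : UnitAddCircle) : |cs ξ| ≤ 1 := by
  unfold cs
  refine (Complex.abs_im_le_norm _).trans ?_
  rw [fourier_apply]
  exact (Circle.norm_coe _).le

lemma S3_abs_cc (ξ : UnitAddCircle) : |cc ξ| ≤ 1 := abs_cc_le ξ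

lemma S3_ka_le (ξ : UnitAddCircle) : ka ξ ≤ Real.exp 3 := by
  unfold ka
  refine Real.exp_le_exp.2 ?_
  have h1 := abs_le.1 (S3_abs_cc ξ)
  have h2 := Real.sqrt_nonneg 2
  linarith

lemma dd_forward {x : Sol} (h : Good x.1) (h' : FGood (x.1 0)) {e : ℝ} (he : 0 < e) :
    ∃ C : ℝ, 0 < C ∧ ∀ n : ℕ, |dd (triple^[n] x).1| ≤ C * Real.exp (e * n) := by
  obtain ⟨C, hC, hP⟩ := S3_prod_le h' (e := e / 3) (by positivity)
  obtain ⟨T, hT, hT1⟩ := tt_forward h h' (e := e / 3) (by positivity)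
  have hpi := Real.pi_pos
  obtain ⟨C', hC', h1⟩ := S3_grow (u := fun n => dd (triple^[n] x).1)
    (A := fun n => ka ((3 ^ n : ℕ) • x.1 0) / 3)
    (B := fun n => 2 * Real.pi * Real.exp 3 * |tt (triple^[n] x).1| + Real.pi)
    (e := e / 3) (C := C) (K := 2 * Real.pi * Real.exp 3 * T + Real.pi)
    (by positivity) hC (by positivity) (fun n => by
      have := ka_pos ((3 ^ n : ℕ) • x.1 0)
      positivity) (fun n => by
      rw [Function.iterate_succ_apply', dd_triple (S3_good_iterate h n), triple_iterate_apply]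
      set y := triple^[n] x with hy
      set ξ := (3 ^ n : ℕ) • x.1 0 with hξ
      have hk := ka_pos ξ
      have hk2 := S3_ka_le ξ
      have hs := S3_abs_cs ξ
      have hc := S3_abs_cc ξ
      rw [abs_div, abs_of_pos (show (0 : ℝ) < 3 by norm_num)]
      have e1 : |ka ξ * dd y.1 - 6 * Real.pi * cs ξ * ka ξ * tt y.1 +
          6 * Real.pi / 10 * cs ξ ^ 2 * cc ξ| ≤ ka ξ * |dd y.1| +
          6 * Real.pi * Real.exp 3 * |tt y.1| + 6 * Real.pi / 10 := by
        refine (abs_add_le _ _).trans (add_le_add ((abs_sub _ _).trans (add_le_add ?_ ?_)) ?_)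
        · rw [abs_mul, abs_of_pos hk]
        · rw [abs_mul, abs_mul, abs_mul, abs_of_pos (show 0 < 6 * Real.pi by positivity),
            abs_of_pos hk]
          refine mul_le_mul_of_nonneg_right ?_ (abs_nonneg _)
          calc 6 * Real.pi * |cs ξ| * ka ξ ≤ 6 * Real.pi * 1 * Real.exp 3 := by
                refine mul_le_mul ?_ hk2 hk.le (by positivity)
                exact mul_le_mul_of_nonneg_left hs (by positivity)
            _ = _ := by ring
        · rw [abs_mul, abs_mul, abs_pow, abs_of_pos (show 0 < 6 * Real.pi / 10 by positivity)]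
          calc 6 * Real.pi / 10 * |cs ξ| ^ 2 * |cc ξ| ≤ 6 * Real.pi / 10 * 1 * 1 := by
                refine mul_le_mul ?_ hc (abs_nonneg _) (by positivity)
                exact mul_le_mul_of_nonneg_left (pow_le_one₀ (abs_nonneg _) hs) (by positivity)
            _ = _ := by ring
      rw [div_le_iff₀ (by norm_num : (0 : ℝ) < 3)]
      refine e1.trans ?_
      linarith) (fun k n hkn => by
      refine le_trans (prod_le_prod (fun j _ => ?_) fun j _ => ?_) (hP k n hkn)
      · have := ka_pos ((3 ^ j : ℕ) • x.1 0)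
        positivity
      · have := ka_pos ((3 ^ j : ℕ) • x.1 0)
        linarith) (fun n => by
      have h2 := hT1 n
      have h3 : (1 : ℝ) ≤ Real.exp (e / 3 * n) := Real.one_le_exp (by positivity)
      have h4 : 2 * Real.pi * Real.exp 3 * |tt (triple^[n] x).1| ≤
          2 * Real.pi * Real.exp 3 * (T * Real.exp (e / 3 * n)) :=
        mul_le_mul_of_nonneg_left h2 (by positivity)
      have h5 : Real.pi ≤ Real.pi * Real.exp (e / 3 * n) := le_mul_of_one_le_right hpi.le h3
      calc _ ≤ 2 * Real.pi * Real.exp 3 * (T * Real.exp (e / 3 * n)) +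
            Real.pi * Real.exp (e / 3 * n) := add_le_add h4 h5
        _ = _ := by ring)
  refine ⟨C', hC', fun n => (h1 n).trans (le_of_eq ?_)⟩
  congr 2
  ring

lemma S3_log (η : UnitAddCircle) (n : ℕ) :
    ∏ k ∈ range n, ka ((3 ^ k : ℕ) • η) = Real.exp (-Real.sqrt 2 * n + 3 * S3_sum η n) := by
  have h := S3_prod η (Nat.zero_le n)
  rw [Nat.Ico_zero_eq_range] at h
  rw [h]
  congr 1
  simp [S3_sum]

/-- forward products: `(1/n) log` tends to `-√2`. -/
lemma tendsto_log_forward {η : UnitAddCircle} (h : FGood η) :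
    Tendsto (fun n : ℕ => Real.log (∏ k ∈ range n, ka ((3 ^ k : ℕ) • η)) / n) atTop
      (𝓝 (-Real.sqrt 2)) := by
  have h1 : Tendsto (fun n : ℕ => -Real.sqrt 2 + 3 * (S3_sum η n / n)) atTop
      (𝓝 (-Real.sqrt 2 + 3 * 0)) := (tendsto_const_nhds).add ((tendsto_const_nhds).mul h)
  rw [mul_zero, add_zero] at h1
  refine h1.congr' ?_
  filter_upwards [eventually_gt_atTop 0] with n hn
  have hn0 : (n : ℝ) ≠ 0 := by exact_mod_cast hn.ne'
  rw [S3_log, Real.log_exp]
  field_simp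

lemma tendsto_prod_forward {η : UnitAddCircle} (h : FGood η) :
    Tendsto (fun n : ℕ => ∏ k ∈ range n, ka ((3 ^ k : ℕ) • η)) atTop (𝓝 0) := by
  obtain ⟨C, hC, h1⟩ := S3_sum_le h (e := 1 / 10) (by norm_num)
  have h2 : Tendsto (fun n : ℕ => -Real.sqrt 2 * n + 3 * S3_sum η n) atTop atBot := by
    have h3 : Tendsto (fun n : ℕ => 3 * C - 7 / 10 * (n : ℝ)) atTop atBot := by
      have h4 : Tendsto (fun n : ℕ => 7 / 10 * (n : ℝ)) atTop atTop :=
        tendsto_natCast_atTop_atTop.const_mul_atTop (by norm_num)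
      exact tendsto_atBot_add_const_left _ _ (tendsto_neg_atTop_atBot.comp h4)
    refine tendsto_atBot_mono (fun n => ?_) h3
    have h4 := (abs_le.1 (h1 n)).2
    have h5 : (1 : ℝ) ≤ Real.sqrt 2 := by
      rw [Real.one_le_sqrt]
      norm_num
    have h6 : (0 : ℝ) ≤ n := Nat.cast_nonneg n
    nlinarith
  refine (Real.tendsto_exp_atBot.comp h2).congr fun n => ?_
  rw [S3_log]
  rfl

lemma ae_good : ∀ᵐ x ∂haarSol, Good x.1 := ae_backward
lemma ae_fgood : ∀ᵐ η : UnitAddCircle, FGood η := ae_forward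
lemma ae_fgood_sol : ∀ᵐ x ∂haarSol, FGood (x.1 0) :=
  (measurePreserving_proj 0).quasiMeasurePreserving.ae ae_fgood

end Pool.Agent.FS
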