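import Mathlib
import Pool.Agent.Lib_MP_a891d2_fs.FSForw
import Pool.Agent.Lib_MP_a891d2_fs.FSErg

/-! # G2 (uses S1, S2, S3, M2, G1 statements; model: Solenoid.lean, Exponents.lean) -/

namespace Pool.Agent.FS

open MeasureTheory Filter Topology Finset
open Pool.Agent.Results.MP_a891d2_an.TorusExample

lemma G2_measurable_tlq (n : ℕ) : Measurable fun x : Sol => tlq x.1 n :=
  measurable_pi_lambda _ fun k => (continuous_proj (k + n)).measurable

lemma G2_tlq_zero (ξ : ℕ → UnitAddCircle) : tlq ξ 0 = ξ := rfl

lemma G2_tlq_tlq (ξ : ℕ → UnitAddCircle) (n : ℕ) : tlq (tlq ξ n) 1 = tlq ξ (n + 1) := by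
  funext k
  show ξ (k + 1 + n) = ξ (k + (n + 1))
  rw [show k + 1 + n = k + (n + 1) by omega]

lemma G2_tlq_triple (x : Sol) (n : ℕ) : tlq (triple x).1 (n + 1) = tlq x.1 n := by
  funext k
  show ((3 : ℕ) • x : Sol).1 (k + (n + 1)) = x.1 (k + n)
  rw [show k + (n + 1) = k + n + 1 by omega]
  exact x.prop (k + n)

lemma measurable_femb : Measurable femb := by
  unfold femb
  apply measurable_pi_lambda
  intro n
  exact ((continuous_proj n).measurable).prodMk
    (continuous_yy.measurable.comp (measurable_tt.comp (G2_measurable_tlq n)))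

lemma femb_injective : Function.Injective femb := by
  intro x y h
  apply Subtype.ext
  funext n
  exact congrArg Prod.fst (congrFun h n)

instance G2_polishSol : PolishSpace Sol := isClosed_Sol.polishSpace

lemma measurableEmbedding_femb : MeasurableEmbedding femb :=
  measurable_femb.measurableEmbedding femb_injective

lemma ae_fmu'_iff {p : (ℕ → Torus) → Prop} :
    (∀ᵐ x ∂fmu', p x) ↔ ∀ᵐ x ∂haarSol, p (femb x) :=
  measurableEmbedding_femb.ae_map_iff

instance instProbFmu' : IsProbabilityMeasure fmu' :=
  Measure.isProbabilityMeasure_map measurable_femb.aemeasurable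

lemma G2_measurable_femb0 : Measurable fun x : Sol => femb x 0 :=
  (measurable_pi_apply 0).comp measurable_femb

instance instProbFmu : IsProbabilityMeasure fmu :=
  Measure.isProbabilityMeasure_map G2_measurable_femb0.aemeasurable

lemma femb_mem {x : Sol} (h : Good x.1) : femb x ∈ naturalExtension fmap := by
  intro n
  show fmap (x.1 (n + 1), yy (tt (tlq x.1 (n + 1)))) = (x.1 n, yy (tt (tlq x.1 n)))
  rw [fmap_yy, x.prop, tt_cons (good_tlq h n), G2_tlq_tlq]
  have h1 : tlq x.1 n 1 = x.1 (n + 1) := by
    show x.1 (1 + n) = x.1 (n + 1)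
    rw [Nat.add_comm]
  rw [h1]

lemma shift_femb {x : Sol} (h : Good x.1) : shift fmap (femb x) = femb (triple x) := by
  funext n
  cases n with
  | zero =>
    show fmap (x.1 0, yy (tt (tlq x.1 0))) = ((triple x).1 0, yy (tt (tlq (triple x).1 0)))
    rw [fmap_yy, G2_tlq_zero, G2_tlq_zero, tt_triple h]
    rfl
  | succ n =>
    show (x.1 n, yy (tt (tlq x.1 n))) = ((triple x).1 (n + 1), yy (tt (tlq (triple x).1 (n + 1))))
    rw [G2_tlq_triple]
    have h1 : (triple x).1 (n + 1) = x.1 n := x.prop n
    rw [h1]

lemma G2_fmap_femb {x : Sol} (h : Good x.1) : fmap (femb x 0) = femb (triple x) 0 :=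
  congrFun (shift_femb h) 0

lemma G2_measurable_shift : Measurable (shift fmap) := by
  apply measurable_pi_lambda
  intro n
  cases n with
  | zero => exact continuous_fmap.measurable.comp (measurable_pi_apply 0)
  | succ n => exact measurable_pi_apply n

lemma isNaturalLift_f : IsNaturalLift fmap fmu fmu' where
  concentrated := by
    rw [ae_fmu'_iff]
    filter_upwards [ae_good] with x hx
    exact femb_mem hx
  invariant := by
    unfold fmu'
    rw [Measure.map_map G2_measurable_shift measurable_femb]
    have h1 : shift fmap ∘ femb =ᵐ[haarSol] femb ∘ triple := by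
      filter_upwards [ae_good] with x hx
      exact shift_femb hx
    rw [Measure.map_congr h1, ← Measure.map_map measurable_femb continuous_triple.measurable,
      measurePreserving_triple.map_eq]
  projects := by
    unfold fmu' fmu
    rw [Measure.map_map (measurable_pi_apply 0) measurable_femb]
    rfl

lemma G2_measurePreserving : MeasurePreserving (fun x : Sol => femb x 0) haarSol fmu :=
  ⟨G2_measurable_femb0, rfl⟩

theorem ergodic_fmap : Ergodic fmap fmu where
  measurable := continuous_fmap.measurable
  map_eq := by
    unfold fmu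
    rw [Measure.map_map continuous_fmap.measurable G2_measurable_femb0]
    have h1 : fmap ∘ (fun x : Sol => femb x 0) =ᵐ[haarSol] (fun x : Sol => femb x 0) ∘ triple := by
      filter_upwards [ae_good] with x hx
      exact G2_fmap_femb hx
    rw [Measure.map_congr h1, ← Measure.map_map G2_measurable_femb0 continuous_triple.measurable,
      measurePreserving_triple.map_eq]
  aeconst_set s hs hinv := by
    rw [← G2_measurePreserving.aeconst_preimage hs.nullMeasurableSet]
    refine ergodic_triple.quasiErgodic.aeconst_set₀ (G2_measurable_femb0 hs).nullMeasurableSet ?_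
    filter_upwards [ae_good] with x hx
    have h1 : (femb (triple x) 0 ∈ s) = (femb x 0 ∈ s) := by
      rw [← G2_fmap_femb hx]
      have : (fmap (femb x 0) ∈ s) = (femb x 0 ∈ fmap ⁻¹' s) := rfl
      rw [this, hinv]
    exact h1

/-- `fmu` does not see the flow: the law of `femb (x + flow s) 0` is `fmu`. -/
lemma map_femb_flow (s : ℝ) : haarSol.map (fun x => femb (x + flow s) 0) = fmu := by
  have h1 : (fun x : Sol => femb (x + flow s) 0) = (fun x : Sol => femb x 0) ∘ (fun x : Sol => x + flow s) := rfl
  rw [h1, ← Measure.map_map G2_measurable_femb0 (measurable_add_const (flow s)),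
    map_add_right_eq_self]
  rfl

end Pool.Agent.FS
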