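import Mathlib
import Pool.Agent.Lib_MP_a891d2_fs.FSLift
import Pool.Agent.Lib_MP_68f671_pr.Birkhoff

/-! # B: the basin of the measure has full area -/

namespace Pool.Agent.FS

open MeasureTheory Filter Topology Finset
open Pool.Agent.Results.MP_a891d2_an.TorusExample

private lemma B_fiter_sub (n : ℕ) (ξ : UnitAddCircle) (t t' : ℝ) :
    fiter n ξ t - fiter n ξ t' = (∏ k ∈ range n, ka ((3 ^ k : ℕ) • ξ)) * (t - t') := by
  induction n with
  | zero => simp [fiter]
  | succ n ih =>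
    rw [fiter, fiter, Finset.prod_range_succ]
    linear_combination ka ((3 ^ n : ℕ) • ξ) * ih

private lemma B_arctan (s t : ℝ) : |Real.arctan s - Real.arctan t| ≤ |s - t| := by
  have h : ∀ x ∈ (Set.univ : Set ℝ), ‖deriv Real.arctan x‖ ≤ 1 := by
    intro x _
    rw [Real.deriv_arctan, Real.norm_eq_abs, abs_of_pos (by positivity)]
    rw [div_le_one (by positivity)]
    nlinarith [sq_nonneg x]
  have := Convex.norm_image_sub_le_of_norm_deriv_le (f := Real.arctan) (C := 1) (s := Set.univ)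
    (x := t) (y := s) (fun x _ => Real.differentiableAt_arctan x) h convex_univ trivial trivial
  simpa using this

private lemma B_dist_yy (s t : ℝ) : dist (yy s) (yy t) ≤ |s - t| := by
  have e : yy s - yy t = (((Real.arctan s - Real.arctan t) / Real.pi : ℝ) : UnitAddCircle) := by
    unfold yy
    rw [sub_div, AddCircle.coe_sub]
  rw [dist_eq_norm, e, UnitAddCircle.norm_eq]
  have h1 := round_le ((Real.arctan s - Real.arctan t) / Real.pi) 0
  rw [Int.cast_zero, sub_zero, abs_div, abs_of_pos Real.pi_pos] at h1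
  refine h1.trans ?_
  rw [div_le_iff₀ Real.pi_pos]
  have h2 := B_arctan s t
  have h3 := Real.pi_gt_three
  have h4 := abs_nonneg (s - t)
  nlinarith

/-- The limit of the averages does not depend on the fibre coordinate. -/
private lemma B_transfer {ξ : UnitAddCircle} (h : FGood ξ) (φ : C(Torus, ℝ)) (t t' L : ℝ)
    (ht : Tendsto (fun n : ℕ => (∑ k ∈ range n, φ (fmap^[k] (ξ, yy t))) / n) atTop (𝓝 L)) :
    Tendsto (fun n : ℕ => (∑ k ∈ range n, φ (fmap^[k] (ξ, yy t'))) / n) atTop (𝓝 L) := by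
  have huc : UniformContinuous φ := CompactSpace.uniformContinuous_of_continuous φ.continuous
  have hlim : Tendsto (fun n : ℕ => (∏ k ∈ range n, ka ((3 ^ k : ℕ) • ξ)) * |t' - t|) atTop
      (𝓝 0) := by
    have := (tendsto_prod_forward h).mul_const |t' - t|
    rwa [zero_mul] at this
  have hd : Tendsto (fun n : ℕ => φ (fmap^[n] (ξ, yy t')) - φ (fmap^[n] (ξ, yy t))) atTop
      (𝓝 0) := by
    rw [Metric.tendsto_atTop]
    intro ε hε
    obtain ⟨δ, hδ, hδ'⟩ := Metric.uniformContinuous_iff.1 huc ε hε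
    obtain ⟨N, hN⟩ := eventually_atTop.1 ((tendsto_order.1 hlim).2 δ hδ)
    refine ⟨N, fun n hn => ?_⟩
    rw [dist_zero_right, ← dist_eq_norm]
    apply hδ'
    rw [fmap_iterate_yy, fmap_iterate_yy, Prod.dist_eq]
    simp only [dist_self]
    rw [max_eq_right dist_nonneg]
    refine (B_dist_yy _ _).trans_lt ?_
    rw [B_fiter_sub, abs_mul, abs_of_pos (Finset.prod_pos fun k _ => ka_pos _)]
    exact hN n hn
  have h6 := hd.cesaro.add ht
  rw [zero_add] at h6
  refine h6.congr fun n => ?_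
  rw [Finset.sum_sub_distrib]
  ring

/-- Genericity can be tested on a dense sequence. -/
private lemma B_dense (p : Torus) (h : ∀ i : ℕ, Tendsto (fun n : ℕ =>
      (∑ k ∈ range n, TopologicalSpace.denseSeq C(Torus, ℝ) i (fmap^[k] p)) / n) atTop
      (𝓝 (∫ q, TopologicalSpace.denseSeq C(Torus, ℝ) i q ∂fmu))) (φ : C(Torus, ℝ)) :
    Tendsto (fun n : ℕ => (∑ k ∈ range n, φ (fmap^[k] p)) / n) atTop (𝓝 (∫ q, φ q ∂fmu)) := by
  rw [Metric.tendsto_atTop]
  intro ε hε
  obtain ⟨i, hi⟩ := (TopologicalSpace.denseRange_denseSeq C(Torus, ℝ)).exists_dist_lt φ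
    (show 0 < ε / 3 by positivity)
  set ψ := TopologicalSpace.denseSeq C(Torus, ℝ) i with hψ
  have hpt : ∀ q, |φ q - ψ q| ≤ ε / 3 := by
    intro q
    rw [← Real.dist_eq]
    exact (ContinuousMap.dist_apply_le_dist q).trans hi.le
  have hint : |∫ q, φ q ∂fmu - ∫ q, ψ q ∂fmu| ≤ ε / 3 := by
    have i1 : Integrable (fun q => φ q) fmu :=
      Integrable.of_bound φ.continuous.aestronglyMeasurable ‖φ‖
        (Eventually.of_forall fun q => φ.norm_coe_le_norm _)
    have i2 : Integrable (fun q => ψ q) fmu :=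
      Integrable.of_bound ψ.continuous.aestronglyMeasurable ‖ψ‖
        (Eventually.of_forall fun q => ψ.norm_coe_le_norm _)
    rw [← integral_sub i1 i2]
    have := norm_integral_le_of_norm_le_const (μ := fmu) (f := fun q => φ q - ψ q) (C := ε / 3)
      (Eventually.of_forall fun q => by rw [Real.norm_eq_abs]; exact hpt q)
    simpa using this
  obtain ⟨N, hN⟩ := Metric.tendsto_atTop.1 (h i) (ε / 3) (by positivity)
  refine ⟨max N 1, fun n hn => ?_⟩
  have hn1 : N ≤ n := (le_max_left _ _).trans hn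
  have hn0 : 0 < n := lt_of_lt_of_le one_pos ((le_max_right _ _).trans hn)
  have hn' : (0 : ℝ) < n := by exact_mod_cast hn0
  have h1 := hN n hn1
  rw [← hψ, Real.dist_eq] at h1
  have h2 : |(∑ k ∈ range n, φ (fmap^[k] p)) / n - (∑ k ∈ range n, ψ (fmap^[k] p)) / n| ≤
      ε / 3 := by
    rw [← sub_div, ← Finset.sum_sub_distrib, abs_div, abs_of_pos hn', div_le_iff₀ hn']
    calc |∑ k ∈ range n, (φ (fmap^[k] p) - ψ (fmap^[k] p))| ≤
        ∑ k ∈ range n, |φ (fmap^[k] p) - ψ (fmap^[k] p)| := abs_sum_le_sum_abs _ _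
      _ ≤ ∑ _k ∈ range n, ε / 3 := sum_le_sum fun k _ => hpt _
      _ = ε / 3 * n := by simp [mul_comm]
  rw [Real.dist_eq]
  have e : (∑ k ∈ range n, φ (fmap^[k] p)) / n - ∫ q, φ q ∂fmu =
      ((∑ k ∈ range n, φ (fmap^[k] p)) / n - (∑ k ∈ range n, ψ (fmap^[k] p)) / n) +
      ((∑ k ∈ range n, ψ (fmap^[k] p)) / n - ∫ q, ψ q ∂fmu) -
      (∫ q, φ q ∂fmu - ∫ q, ψ q ∂fmu) := by ring
  rw [e]
  refine (abs_sub _ _).trans_lt ?_
  have h3 := abs_add_le ((∑ k ∈ range n, φ (fmap^[k] p)) / n - (∑ k ∈ range n, ψ (fmap^[k] p)) / n)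
    ((∑ k ∈ range n, ψ (fmap^[k] p)) / n - ∫ q, ψ q ∂fmu)
  linarith

theorem fbasin : ∀ᵐ p : Torus, ∀ φ : C(Torus, ℝ),
    Tendsto (fun n : ℕ => (∑ k ∈ range n, φ (fmap^[k] p)) / n) atTop (𝓝 (∫ p, φ p ∂fmu)) := by
  set ψ := TopologicalSpace.denseSeq C(Torus, ℝ) with hψ
  have h1 : ∀ᵐ p ∂fmu, ∀ i : ℕ, Tendsto (fun n : ℕ => (∑ k ∈ range n, ψ i (fmap^[k] p)) / n)
      atTop (𝓝 (∫ q, ψ i q ∂fmu)) := by
    rw [ae_all_iff]
    intro i
    have i1 : Integrable (fun q => ψ i q) fmu :=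
      Integrable.of_bound (ψ i).continuous.aestronglyMeasurable ‖ψ i‖
        (Eventually.of_forall fun q => (ψ i).norm_coe_le_norm _)
    exact Pool.Agent.RWPP.birkhoff ergodic_fmap i1
  have hm : Measurable fun x : Sol => femb x 0 := (measurable_pi_apply 0).comp measurable_femb
  have h2 : ∀ᵐ x ∂haarSol, ∀ i : ℕ, Tendsto (fun n : ℕ =>
      (∑ k ∈ range n, ψ i (fmap^[k] (femb x 0))) / n) atTop (𝓝 (∫ q, ψ i q ∂fmu)) := by
    have h1' := h1
    unfold fmu at h1'
    exact ae_of_ae_map hm.aemeasurable h1'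
  have h3 : ∀ᵐ x ∂haarSol, ∀ i : ℕ, Tendsto (fun n : ℕ =>
      (∑ k ∈ range n, ψ i (fmap^[k] (x.1 0, yy 0))) / n) atTop (𝓝 (∫ q, ψ i q ∂fmu)) := by
    filter_upwards [h2, ae_fgood_sol] with x hx hf i
    exact B_transfer hf (ψ i) (tt (tlq x.1 0)) 0 _ (hx i)
  have h4 : ∀ᵐ ξ : UnitAddCircle, ∀ i : ℕ, Tendsto (fun n : ℕ =>
      (∑ k ∈ range n, ψ i (fmap^[k] (ξ, yy 0))) / n) atTop (𝓝 (∫ q, ψ i q ∂fmu)) := by
    rw [ae_all_iff]
    intro i
    have hmeas : MeasurableSet {ξ : UnitAddCircle | Tendsto (fun n : ℕ =>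
        (∑ k ∈ range n, ψ i (fmap^[k] (ξ, yy 0))) / n) atTop (𝓝 (∫ q, ψ i q ∂fmu))} := by
      apply measurableSet_tendsto
      intro n
      apply Continuous.measurable
      apply Continuous.div_const
      exact continuous_finsetSum _ fun k _ => (ψ i).continuous.comp
        ((continuous_fmap.iterate k).comp (continuous_id.prodMk continuous_const))
    rw [← (measurePreserving_proj 0).map_eq]
    refine (ae_map_iff (measurePreserving_proj 0).measurable.aemeasurable hmeas).2 ?_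
    filter_upwards [h3] with x hx
    exact hx i
  have h5 : ∀ᵐ p : Torus, p.2 ≠ ((1 / 2 : ℝ) : UnitAddCircle) := by
    have h4 : ∀ᵐ η : UnitAddCircle, η ≠ ((1 / 2 : ℝ) : UnitAddCircle) := by
      rw [ae_iff]
      simp only [ne_eq, not_not, Set.ofPred_eq_eq_singleton]
      have h := AddCircle.volume_closedBall (T := 1) (x := ((1 / 2 : ℝ) : UnitAddCircle)) 0
      rw [Metric.closedBall_zero] at h
      rw [h]
      simp
    exact Measure.quasiMeasurePreserving_snd.ae h4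
  have h6 : ∀ᵐ p : Torus, ∀ i : ℕ, Tendsto (fun n : ℕ =>
      (∑ k ∈ range n, ψ i (fmap^[k] (p.1, yy 0))) / n) atTop (𝓝 (∫ q, ψ i q ∂fmu)) :=
    Measure.quasiMeasurePreserving_fst.ae h4
  have h7 : ∀ᵐ p : Torus, FGood p.1 := Measure.quasiMeasurePreserving_fst.ae ae_fgood
  filter_upwards [h5, h6, h7] with p h5 h6 h7
  have e : p = (p.1, yy (ct p.2)) := by rw [yy_ct h5]
  rw [e]
  apply B_dense
  intro i
  exact B_transfer h7 (ψ i) 0 (ct p.2) _ (h6 i)

end Pool.Agent.FS
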