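import Mathlib
import Pool.Agent.Lib_MP_a891d2_fs.FSLift

/-! # F1: a leaf in the support -/

namespace Pool.Agent.FS

open MeasureTheory Filter Topology Finset
open Pool.Agent.Results.MP_a891d2_an.TorusExample

lemma isClosed_KK : IsClosed KK := by
  have h : Continuous fun p : UnitAddCircle × ℝ => ((p.1, yy p.2) : Torus) :=
    continuous_fst.prodMk (continuous_yy.comp continuous_snd)
  exact (Measure.isClosed_support (μ := fmu)).preimage h

lemma F1_fmap_mem {z : Torus} (h : z ∈ fmu.support) : fmap z ∈ fmu.support := by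
  rw [Measure.mem_support_iff_forall] at h ⊢
  intro U hU
  obtain ⟨V, hVU, hVo, hV⟩ := mem_nhds_iff.mp hU
  have h1 : fmap ⁻¹' V ∈ 𝓝 z := (hVo.preimage continuous_fmap).mem_nhds hV
  have h2 := h _ h1
  rw [ergodic_fmap.toMeasurePreserving.measure_preimage hVo.measurableSet.nullMeasurableSet] at h2
  exact h2.trans_le (measure_mono hVU)

lemma KK_step {ξ : UnitAddCircle} {t : ℝ} (h : (ξ, t) ∈ KK) :
    ((3 : ℕ) • ξ, ka ξ * t + kb ξ) ∈ KK := by
  have h1 := F1_fmap_mem (z := (ξ, yy t)) h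
  rw [fmap_yy] at h1
  exact h1

lemma KK_iter (n : ℕ) {ξ : UnitAddCircle} {t : ℝ} (h : (ξ, t) ∈ KK) :
    ((3 ^ n : ℕ) • ξ, fiter n ξ t) ∈ KK := by
  induction n with
  | zero => simpa [fiter] using h
  | succ n ih =>
    have h1 := KK_step ih
    rw [smul_smul, ← pow_succ'] at h1
    exact h1

lemma F1_ae_mem (s : ℝ) : ∀ᵐ x ∂haarSol, femb (x + flow s) 0 ∈ fmu.support := by
  have hm : Measurable fun x : Sol => femb (x + flow s) 0 :=
    (measurable_pi_apply 0).comp (measurable_femb.comp (continuous_add_const (flow s)).measurable)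
  have h1 : ∀ᵐ z ∂fmu, z ∈ fmu.support := Measure.support_mem_ae
  rw [← map_femb_flow s] at h1
  have h2 := (ae_map_iff hm.aemeasurable
    (p := fun z => z ∈ (haarSol.map fun x => femb (x + flow s) 0).support)
    Measure.isClosed_support.measurableSet).1 h1
  rw [map_femb_flow s] at h2
  exact h2

/-- a leaf in the support. -/
lemma exists_leaf : ∃ τ : ℝ → ℝ, Continuous τ ∧ ∀ s : ℝ, ((s : UnitAddCircle), τ s) ∈ KK := by
  have h1 : ∀ᵐ x ∂haarSol, (∀ q : ℚ, femb (x + flow (q : ℝ)) 0 ∈ fmu.support) ∧ Good x.1 :=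
    (ae_all_iff.2 fun q : ℚ => F1_ae_mem (q : ℝ)).and ae_good
  obtain ⟨x, hx, hg⟩ := h1.exists
  have hc : Continuous fun s : ℝ => tt (x + flow s).1 :=
    continuous_iff_continuousAt.2 fun s => (hasDerivAt_tt hg s).continuousAt
  have hK : ∀ s : ℝ, (((cr (x.1 0) + s : ℝ) : UnitAddCircle), tt (x + flow s).1) ∈ KK := by
    have hcl : IsClosed {s : ℝ | (((cr (x.1 0) + s : ℝ) : UnitAddCircle), tt (x + flow s).1) ∈ KK} :=
      isClosed_KK.preimage
        (((AddCircle.continuous_mk' 1).comp (continuous_const.add continuous_id)).prodMk hc)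
    intro s
    refine (hcl.closure_subset_iff (s := Set.range ((↑) : ℚ → ℝ))).2 ?_
      (Rat.isDenseEmbedding_coe_real.dense s)
    rintro _ ⟨q, rfl⟩
    have h2 := hx q
    show (((cr (x.1 0) + (q : ℝ) : ℝ) : UnitAddCircle), yy (tt (x + flow (q : ℝ)).1)) ∈ fmu.support
    have h3 : ((cr (x.1 0) + (q : ℝ) : ℝ) : UnitAddCircle) = (x + flow (q : ℝ)).1 0 := by
      show _ = x.1 0 + (flow (q : ℝ)).1 0
      rw [flow_apply, pow_zero, div_one, AddCircle.coe_add, coe_cr]
    rw [h3]
    exact h2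
  refine ⟨fun s => tt (x + flow (s - cr (x.1 0))).1,
    hc.comp (continuous_id.sub continuous_const), fun s => ?_⟩
  have h4 := hK (s - cr (x.1 0))
  rw [add_sub_cancel] at h4
  exact h4

end Pool.Agent.FS
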