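import Mathlib
import Pool.Agent.Lib_MP_a891d2_fs.FSLeaf

/-! # F2: the leaf of the constant past `1/2` -/

namespace Pool.Agent.FS

open MeasureTheory Filter Topology Finset
open Pool.Agent.Results.MP_a891d2_an.TorusExample

lemma F2_fa_half (u : ℝ) : fa (1 / 2 + u) = Real.exp (-Real.sqrt 2 - 3 * Real.cos (2 * Real.pi * u)) := by
  unfold fa
  have h : 2 * Real.pi * (1 / 2 + u) = 2 * Real.pi * u + Real.pi := by ring
  rw [h, Real.cos_add_pi]
  congr 1
  ring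

lemma F2_fb_half (u : ℝ) : fb (1 / 2 + u) = -(Real.sin (2 * Real.pi * u) ^ 3 / 10) := by
  unfold fb
  have h : 2 * Real.pi * (1 / 2 + u) = 2 * Real.pi * u + Real.pi := by ring
  rw [h, Real.sin_add_pi]
  ring

lemma F2_fa_pos (x : ℝ) : 0 < fa x := Real.exp_pos _

lemma F2_abs_fb (x : ℝ) : |fb x| ≤ 1 := by
  unfold fb
  have h1 : |Real.sin (2 * Real.pi * x)| ≤ 1 := Real.abs_sin_le_one _
  rw [abs_div, abs_pow, abs_of_pos (by norm_num : (0 : ℝ) < 10), div_le_one (by norm_num)]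
  exact (pow_le_one₀ (abs_nonneg _) h1).trans (by norm_num)

lemma F2_continuous_fa : Continuous fa := by
  unfold fa
  fun_prop

lemma F2_continuous_fb : Continuous fb := by
  unfold fb
  fun_prop

lemma F2_fa_le (u : ℝ) : fa (1 / 2 + u) ≤ Real.exp (-3) * Real.exp (6 * Real.pi * |u|) := by
  rw [F2_fa_half, ← Real.exp_add]
  apply Real.exp_le_exp.2
  have h1 : 0 ≤ Real.sqrt 2 := Real.sqrt_nonneg 2
  have h2 : 1 - |2 * Real.pi * u| ≤ Real.cos (2 * Real.pi * u) := by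
    by_cases h : |2 * Real.pi * u| ≤ 1
    · have h3 := Real.one_sub_sq_div_two_le_cos (x := 2 * Real.pi * u)
      have h4 : (2 * Real.pi * u) ^ 2 = |2 * Real.pi * u| ^ 2 := (sq_abs _).symm
      have h5 : 0 ≤ |2 * Real.pi * u| := abs_nonneg _
      nlinarith
    · push Not at h
      by_cases h' : |2 * Real.pi * u| ≤ 2
      · have h3 := Real.one_sub_sq_div_two_le_cos (x := 2 * Real.pi * u)
        have h4 : (2 * Real.pi * u) ^ 2 = |2 * Real.pi * u| ^ 2 := (sq_abs _).symm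
        have h5 : 0 ≤ |2 * Real.pi * u| := abs_nonneg _
        nlinarith
      · push Not at h'
        have := Real.neg_one_le_cos (2 * Real.pi * u)
        linarith
  have h3 : |2 * Real.pi * u| = 2 * Real.pi * |u| := by
    rw [abs_mul, abs_of_pos Real.two_pi_pos]
  rw [h3] at h2
  linarith

lemma F2_prod_le (s : ℝ) (n : ℕ) :
    ∏ j ∈ range n, fa (1 / 2 + s / 3 ^ (j + 1)) ≤
      Real.exp (-3) ^ n * Real.exp (6 * Real.pi * |s| * (1 / 2 * (1 - 1 / 3 ^ n))) := by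
  induction n with
  | zero => simp
  | succ n ih =>
    rw [prod_range_succ]
    have h1 := F2_fa_le (s / 3 ^ (n + 1))
    have h2 := mul_le_mul ih h1 (F2_fa_pos _).le (by positivity)
    refine h2.trans (le_of_eq ?_)
    have h3 : |s / 3 ^ (n + 1)| = |s| / 3 ^ (n + 1) := by
      rw [abs_div, abs_of_pos (by positivity : (0 : ℝ) < 3 ^ (n + 1))]
    rw [h3, mul_mul_mul_comm, ← pow_succ, ← Real.exp_add]
    congr 2
    rw [pow_succ]
    field_simp
    ring

lemma F2_prod_le' (s : ℝ) (n : ℕ) :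
    ∏ j ∈ range n, fa (1 / 2 + s / 3 ^ (j + 1)) ≤
      Real.exp (-3) ^ n * Real.exp (3 * Real.pi * |s|) := by
  refine (F2_prod_le s n).trans ?_
  refine mul_le_mul_of_nonneg_left ?_ (by positivity)
  apply Real.exp_le_exp.2
  have h1 : (0 : ℝ) ≤ 1 / 3 ^ n := by positivity
  have h2 : 0 ≤ Real.pi * |s| := mul_nonneg Real.pi_pos.le (abs_nonneg _)
  nlinarith

lemma F2_prod_pos (s : ℝ) (n : ℕ) : 0 < ∏ j ∈ range n, fa (1 / 2 + s / 3 ^ (j + 1)) :=
  prod_pos fun _ _ => F2_fa_pos _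

lemma F2_term_le (s : ℝ) (n : ℕ) :
    ‖(∏ j ∈ range n, fa (1 / 2 + s / 3 ^ (j + 1))) * fb (1 / 2 + s / 3 ^ (n + 1))‖ ≤
      Real.exp (-3) ^ n * Real.exp (3 * Real.pi * |s|) := by
  rw [norm_mul, Real.norm_of_nonneg (F2_prod_pos s n).le, Real.norm_eq_abs]
  calc _ ≤ (Real.exp (-3) ^ n * Real.exp (3 * Real.pi * |s|)) * 1 :=
        mul_le_mul (F2_prod_le' s n) (F2_abs_fb _) (abs_nonneg _) (by positivity)
    _ = _ := mul_one _

lemma F2_exp_lt : Real.exp (-3) < 1 := by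
  rw [← Real.exp_zero]
  exact Real.exp_lt_exp.2 (by norm_num)

lemma F2_geom : Summable fun n : ℕ => Real.exp (-3) ^ n :=
  summable_geometric_of_lt_one (Real.exp_pos _).le F2_exp_lt

lemma F2_summable (s : ℝ) : Summable fun n : ℕ =>
    (∏ j ∈ range n, fa (1 / 2 + s / 3 ^ (j + 1))) * fb (1 / 2 + s / 3 ^ (n + 1)) :=
  Summable.of_norm_bounded (F2_geom.mul_right _) (F2_term_le s)

lemma continuous_tstar : Continuous tstar := by
  rw [continuous_iff_continuousAt]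
  intro s₀
  have h1 : ContinuousOn tstar (Set.Ioo (s₀ - 1) (s₀ + 1)) := by
    unfold tstar
    refine continuousOn_tsum (u := fun n : ℕ => Real.exp (-3) ^ n *
      Real.exp (3 * Real.pi * (|s₀| + 1))) ?_ (F2_geom.mul_right _) ?_
    · intro n
      refine Continuous.continuousOn ?_
      refine Continuous.mul ?_ ?_
      · refine continuous_finsetProd _ fun j _ => ?_
        exact F2_continuous_fa.comp (by fun_prop)
      · exact F2_continuous_fb.comp (by fun_prop)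
    · intro n s hs
      refine (F2_term_le s n).trans ?_
      refine mul_le_mul_of_nonneg_left ?_ (by positivity)
      apply Real.exp_le_exp.2
      refine mul_le_mul_of_nonneg_left ?_ (by positivity)
      have h2 : |s - s₀| ≤ 1 := by
        rw [abs_le]
        constructor <;> linarith [hs.1, hs.2]
      have h3 := abs_sub_abs_le_abs_sub s s₀
      linarith
  exact h1.continuousAt (Ioo_mem_nhds (by linarith) (by linarith))

lemma F2_smul (n : ℕ) (s : ℝ) : (3 ^ n : ℕ) • ((1 / 2 + s / 3 ^ n : ℝ) : UnitAddCircle) =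
    ((1 / 2 + s : ℝ) : UnitAddCircle) := by
  obtain ⟨m, hm⟩ : Odd (3 ^ n) := Odd.pow (by decide)
  have h1 : ((3 ^ n : ℕ) • (1 / 2 + s / 3 ^ n : ℝ)) = (1 / 2 + s) + (m : ℝ) := by
    rw [nsmul_eq_mul]
    have h2 : ((3 ^ n : ℕ) : ℝ) = 2 * m + 1 := by exact_mod_cast hm
    have h3 : (3 : ℝ) ^ n = 2 * m + 1 := by
      rw [← h2]
      push_cast
      rfl
    have h4 : (2 * (m : ℝ) + 1) ≠ 0 := by positivity
    rw [h2, h3]
    field_simp
    ring
  rw [← AddCircle.coe_nsmul, h1, AddCircle.coe_add]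
  have h5 : (((m : ℕ) : ℝ) : UnitAddCircle) = 0 :=
    (AddCircle.coe_eq_zero_iff (1 : ℝ)).2 ⟨(m : ℤ), by simp⟩
  rw [h5, add_zero]

lemma F2_fiter (n : ℕ) : ∀ s t : ℝ, fiter n ((1 / 2 + s / 3 ^ n : ℝ) : UnitAddCircle) t =
    (∏ j ∈ range n, fa (1 / 2 + s / 3 ^ (j + 1))) * t +
      ∑ k ∈ range n, (∏ j ∈ range k, fa (1 / 2 + s / 3 ^ (j + 1))) *
        fb (1 / 2 + s / 3 ^ (k + 1)) := by
  induction n with
  | zero =>
    intro s t
    simp [fiter]
  | succ n ih =>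
    intro s t
    have hs : (1 / 2 + s / 3 ^ (n + 1) : ℝ) = 1 / 2 + (s / 3) / 3 ^ n := by
      rw [pow_succ]
      field_simp
    have h4 : ∀ j : ℕ, s / 3 / 3 ^ (j + 1) = s / 3 ^ (j + 1 + 1) := by
      intro j
      rw [pow_succ 3 (j + 1)]
      field_simp
    show ka ((3 ^ n : ℕ) • ((1 / 2 + s / 3 ^ (n + 1) : ℝ) : UnitAddCircle)) *
      fiter n ((1 / 2 + s / 3 ^ (n + 1) : ℝ) : UnitAddCircle) t +
        kb ((3 ^ n : ℕ) • ((1 / 2 + s / 3 ^ (n + 1) : ℝ) : UnitAddCircle)) = _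
    rw [hs, ih (s / 3) t, F2_smul, ka_coe, kb_coe, prod_range_succ', sum_range_succ']
    simp only [h4, prod_range_succ', prod_range_zero, zero_add, pow_one, one_mul]
    rw [mul_add, mul_sum]
    have h5 : ∑ i ∈ range n, fa (1 / 2 + s / 3) * ((∏ j ∈ range i, fa (1 / 2 + s / 3 ^ (j + 1 + 1))) *
        fb (1 / 2 + s / 3 ^ (i + 1 + 1))) =
        ∑ i ∈ range n, (∏ j ∈ range i, fa (1 / 2 + s / 3 ^ (j + 1 + 1))) * fa (1 / 2 + s / 3) *
        fb (1 / 2 + s / 3 ^ (i + 1 + 1)) := sum_congr rfl fun i _ => by ring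
    rw [h5]
    ring

lemma tstar_mem (s : ℝ) : (((1 / 2 + s : ℝ) : UnitAddCircle), tstar s) ∈ KK := by
  obtain ⟨τ, hτ, hK⟩ := exists_leaf
  have h1 : ∀ n : ℕ, (((1 / 2 + s : ℝ) : UnitAddCircle),
      (∏ j ∈ range n, fa (1 / 2 + s / 3 ^ (j + 1))) * τ (1 / 2 + s / 3 ^ n) +
      ∑ k ∈ range n, (∏ j ∈ range k, fa (1 / 2 + s / 3 ^ (j + 1))) *
        fb (1 / 2 + s / 3 ^ (k + 1))) ∈ KK := by
    intro n
    have h2 := KK_iter n (hK (1 / 2 + s / 3 ^ n))
    rw [F2_fiter] at h2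
    rw [F2_smul] at h2
    exact h2
  refine isClosed_KK.mem_of_tendsto (b := atTop) (Tendsto.prodMk_nhds tendsto_const_nhds ?_)
    (Eventually.of_forall h1)
  have h4 : Tendsto (fun n : ℕ => s / 3 ^ n) atTop (𝓝 0) := by
    have := (tendsto_pow_atTop_nhds_zero_of_lt_one (by norm_num : (0 : ℝ) ≤ 1 / 3)
      (by norm_num)).const_mul s
    rw [mul_zero] at this
    refine this.congr fun n => ?_
    rw [one_div, inv_pow]
    rfl
  have h5 : Tendsto (fun n : ℕ => τ (1 / 2 + s / 3 ^ n)) atTop (𝓝 (τ (1 / 2 + 0))) :=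
    (hτ.tendsto _).comp (h4.const_add _)
  have h6 : Tendsto (fun n : ℕ => ∏ j ∈ range n, fa (1 / 2 + s / 3 ^ (j + 1))) atTop (𝓝 0) := by
    have h7 : Tendsto (fun n : ℕ => Real.exp (-3) ^ n * Real.exp (3 * Real.pi * |s|)) atTop (𝓝 0) := by
      have := (tendsto_pow_atTop_nhds_zero_of_lt_one (Real.exp_pos (-3)).le
        F2_exp_lt).mul_const (Real.exp (3 * Real.pi * |s|))
      rwa [zero_mul] at this
    exact squeeze_zero (fun n => (F2_prod_pos s n).le) (F2_prod_le' s) h7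
  have h8 := (h6.mul h5).add (F2_summable s).hasSum.tendsto_sum_nat
  rw [zero_mul, zero_add] at h8
  exact h8

lemma tstar_half_neg : tstar (1 / 2) < 0 := by
  have hneg : ∀ n : ℕ, fb (1 / 2 + (1 / 2 : ℝ) / 3 ^ (n + 1)) < 0 := by
    intro n
    rw [F2_fb_half]
    have h1 : (0 : ℝ) < 1 / 2 / 3 ^ (n + 1) := by positivity
    have h2 : (1 / 2 : ℝ) / 3 ^ (n + 1) < 1 / 2 := by
      apply div_lt_self (by norm_num)
      exact one_lt_pow₀ (by norm_num) (by omega)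
    have h3 : 0 < Real.sin (2 * Real.pi * (1 / 2 / 3 ^ (n + 1))) := by
      apply Real.sin_pos_of_pos_of_lt_pi
      · have := Real.pi_pos
        positivity
      · have := Real.pi_pos
        nlinarith
    have h4 : 0 < Real.sin (2 * Real.pi * (1 / 2 / 3 ^ (n + 1))) ^ 3 := by positivity
    linarith
  have h1 : 0 < ∑' n : ℕ, -((∏ j ∈ range n, fa (1 / 2 + (1 / 2 : ℝ) / 3 ^ (j + 1))) *
      fb (1 / 2 + (1 / 2 : ℝ) / 3 ^ (n + 1))) := by
    have h2 : ∀ n : ℕ, 0 < -((∏ j ∈ range n, fa (1 / 2 + (1 / 2 : ℝ) / 3 ^ (j + 1))) *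
      fb (1 / 2 + (1 / 2 : ℝ) / 3 ^ (n + 1))) := by
      intro n
      have := mul_neg_of_pos_of_neg (F2_prod_pos (1 / 2) n) (hneg n)
      linarith
    exact (F2_summable (1 / 2)).neg.tsum_pos (fun n => (h2 n).le) 0 (h2 0)
  rw [tsum_neg] at h1
  unfold tstar
  linarith

lemma tstar_neg (s : ℝ) : tstar (-s) = -tstar s := by
  unfold tstar
  rw [← tsum_neg]
  refine tsum_congr fun n => ?_
  have h1 : ∀ j : ℕ, fa (1 / 2 + -s / 3 ^ (j + 1)) = fa (1 / 2 + s / 3 ^ (j + 1)) := by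
    intro j
    rw [F2_fa_half, F2_fa_half, neg_div, mul_neg, Real.cos_neg]
  have h2 : fb (1 / 2 + -s / 3 ^ (n + 1)) = -fb (1 / 2 + s / 3 ^ (n + 1)) := by
    rw [F2_fb_half, F2_fb_half, neg_div, mul_neg, Real.sin_neg]
    ring
  rw [h2, prod_congr rfl fun j _ => h1 j]
  ring

end Pool.Agent.FS
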