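import Mathlib
import Pool.Agent.Lib_MP_a891d2_fs.FSStar

/-! # F3: pushing the leaf of the constant past `1/2` -/

namespace Pool.Agent.FS

open MeasureTheory Filter Topology Finset
open Pool.Agent.Results.MP_a891d2_an.TorusExample

lemma F3b_smul (n : ℕ) (x : ℝ) : (3 ^ n : ℕ) • ((x / 3 ^ n : ℝ) : UnitAddCircle) =
    (x : UnitAddCircle) := by
  rw [← AddCircle.coe_nsmul]
  congr 1
  rw [nsmul_eq_mul]
  push_cast
  field_simp

lemma F3b_fiter (n : ℕ) : ∀ x t : ℝ, fiter n ((x / 3 ^ n : ℝ) : UnitAddCircle) t =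
    (∏ j ∈ range n, fa (x / 3 ^ (j + 1))) * t +
      ∑ k ∈ range n, (∏ j ∈ range k, fa (x / 3 ^ (j + 1))) * fb (x / 3 ^ (k + 1)) := by
  induction n with
  | zero =>
    intro s t
    simp [fiter]
  | succ n ih =>
    intro s t
    have hs : (s / 3 ^ (n + 1) : ℝ) = (s / 3) / 3 ^ n := by
      rw [pow_succ]
      field_simp
    have h4 : ∀ j : ℕ, s / 3 / 3 ^ (j + 1) = s / 3 ^ (j + 1 + 1) := by
      intro j
      rw [pow_succ 3 (j + 1)]
      field_simp
    show ka ((3 ^ n : ℕ) • ((s / 3 ^ (n + 1) : ℝ) : UnitAddCircle)) *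
      fiter n ((s / 3 ^ (n + 1) : ℝ) : UnitAddCircle) t +
        kb ((3 ^ n : ℕ) • ((s / 3 ^ (n + 1) : ℝ) : UnitAddCircle)) = _
    rw [hs, ih (s / 3) t, F3b_smul, ka_coe, kb_coe, prod_range_succ', sum_range_succ']
    simp only [h4, prod_range_succ', prod_range_zero, zero_add, pow_one, one_mul]
    rw [mul_add, mul_sum]
    have h5 : ∑ i ∈ range n, fa (s / 3) * ((∏ j ∈ range i, fa (s / 3 ^ (j + 1 + 1))) *
        fb (s / 3 ^ (i + 1 + 1))) =
        ∑ i ∈ range n, (∏ j ∈ range i, fa (s / 3 ^ (j + 1 + 1))) * fa (s / 3) *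
        fb (s / 3 ^ (i + 1 + 1)) := sum_congr rfl fun i _ => by ring
    rw [h5]
    ring

/-- the partial sums of the defect. -/
noncomputable def F3b_G (n : ℕ) (x : ℝ) : ℝ :=
  ∑ j ∈ range n, (1 - Real.cos (2 * Real.pi * (x / 3 ^ (j + 1))))

lemma F3b_fa (x : ℝ) : fa x = Real.exp (3 - Real.sqrt 2) *
    Real.exp (-3 * (1 - Real.cos (2 * Real.pi * x))) := by
  unfold fa
  rw [← Real.exp_add]
  congr 1
  ring

lemma F3b_fa_half (x : ℝ) : fa (1 / 2 + x) = Real.exp (-(3 + Real.sqrt 2)) *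
    Real.exp (3 * (1 - Real.cos (2 * Real.pi * x))) := by
  rw [F2_fa_half, ← Real.exp_add]
  congr 1
  ring

lemma F3b_prod (n : ℕ) (x : ℝ) : ∏ j ∈ range n, fa (x / 3 ^ (j + 1)) =
    Real.exp (n * (3 - Real.sqrt 2)) * Real.exp (-3 * F3b_G n x) := by
  unfold F3b_G
  simp_rw [F3b_fa]
  rw [prod_mul_distrib, prod_const, card_range, ← Real.exp_nat_mul, ← Real.exp_sum, mul_sum]

lemma F3b_prod_half (n : ℕ) (x : ℝ) : ∏ j ∈ range n, fa (1 / 2 + x / 3 ^ (j + 1)) =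
    Real.exp (-(n * (3 + Real.sqrt 2))) * Real.exp (3 * F3b_G n x) := by
  unfold F3b_G
  simp_rw [F3b_fa_half]
  rw [prod_mul_distrib, prod_const, card_range, ← Real.exp_nat_mul, ← Real.exp_sum, mul_sum]
  congr 2
  ring

lemma F3b_one_sub_cos (x : ℝ) : 1 - Real.cos x ≤ x ^ 2 / 2 := by
  have := Real.one_sub_sq_div_two_le_cos (x := x)
  linarith

lemma F3b_summable (x : ℝ) :
    Summable fun j : ℕ => (1 - Real.cos (2 * Real.pi * (x / 3 ^ (j + 1)))) := by
  refine Summable.of_nonneg_of_le (fun j => ?_) (fun j => ?_)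
    ((summable_geometric_of_lt_one (by norm_num : (0 : ℝ) ≤ 1 / 9) (by norm_num)).mul_left
      ((2 * Real.pi * x) ^ 2))
  · have := Real.cos_le_one (2 * Real.pi * (x / 3 ^ (j + 1)))
    linarith
  · refine (F3b_one_sub_cos _).trans ?_
    have h1 : (2 * Real.pi * (x / 3 ^ (j + 1))) ^ 2 / 2 =
        (2 * Real.pi * x) ^ 2 * ((1 / 9) ^ j * (1 / 18)) := by
      have h9 : (3 : ℝ) ^ (j + 1) * 3 ^ (j + 1) = 9 * 9 ^ j := by
        rw [← mul_pow, pow_succ]
        norm_num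
        ring
      rw [div_pow, one_pow]
      have h3 : (3 : ℝ) ^ (j + 1) ≠ 0 := by positivity
      have h10 : (9 : ℝ) ^ j = 3 ^ (j + 1) * 3 ^ (j + 1) / 9 := by
        rw [h9]; ring
      rw [h10]
      field_simp
      ring
    rw [h1]
    apply mul_le_mul_of_nonneg_left _ (sq_nonneg _)
    have : (0 : ℝ) ≤ (1 / 9) ^ j := by positivity
    linarith

lemma F3b_G_tendsto (x : ℝ) : Tendsto (fun n : ℕ => F3b_G n x) atTop
    (𝓝 (∑' j : ℕ, (1 - Real.cos (2 * Real.pi * (x / 3 ^ (j + 1)))))) :=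
  (F3b_summable x).hasSum.tendsto_sum_nat

lemma F3b_G_lip (n : ℕ) (x y : ℝ) : |F3b_G n x - F3b_G n y| ≤ Real.pi * |x - y| := by
  unfold F3b_G
  rw [← sum_sub_distrib]
  refine (abs_sum_le_sum_abs _ _).trans ?_
  have h1 : ∀ j ∈ range n, |(1 - Real.cos (2 * Real.pi * (x / 3 ^ (j + 1)))) -
      (1 - Real.cos (2 * Real.pi * (y / 3 ^ (j + 1))))| ≤
      2 * Real.pi * |x - y| * (1 / 3) ^ (j + 1) := by
    intro j _
    have h2 : (1 - Real.cos (2 * Real.pi * (x / 3 ^ (j + 1)))) -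
      (1 - Real.cos (2 * Real.pi * (y / 3 ^ (j + 1)))) =
      Real.cos (2 * Real.pi * (y / 3 ^ (j + 1))) - Real.cos (2 * Real.pi * (x / 3 ^ (j + 1))) := by
      ring
    rw [h2]
    have h3 := Real.abs_cos_sub_cos_le (2 * Real.pi * (y / 3 ^ (j + 1)))
      (2 * Real.pi * (x / 3 ^ (j + 1)))
    refine h3.trans (le_of_eq ?_)
    have h4 : 2 * Real.pi * (y / 3 ^ (j + 1)) - 2 * Real.pi * (x / 3 ^ (j + 1)) =
        2 * Real.pi * (1 / 3) ^ (j + 1) * (y - x) := by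
      rw [one_div_pow]
      field_simp
    rw [h4, abs_mul, abs_of_pos (by positivity), abs_sub_comm y x]
    ring
  refine (sum_le_sum h1).trans ?_
  rw [← mul_sum]
  have h5 : ∑ i ∈ range n, ((1 : ℝ) / 3) ^ (i + 1) ≤ 1 / 2 := by
    have h6 : ∀ n : ℕ, ∑ i ∈ range n, ((1 : ℝ) / 3) ^ (i + 1) = 1 / 2 * (1 - (1 / 3) ^ n) := by
      intro n
      induction n with
      | zero => simp
      | succ n ih => rw [sum_range_succ, ih]; ring
    rw [h6]
    have : (0 : ℝ) ≤ (1 / 3) ^ n := by positivity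
    linarith
  have h7 : 0 ≤ 2 * Real.pi * |x - y| := by positivity
  nlinarith

/-- the translations accumulated near the source are bounded. -/
lemma F3b_sum_bound {x : ℝ} {R : ℝ} (hx : |x| ≤ R) (n : ℕ) :
    |∑ k ∈ range n, (∏ j ∈ range k, fa (x / 3 ^ (j + 1))) * fb (x / 3 ^ (k + 1))| ≤
      (2 * Real.pi * R) ^ 3 := by
  have hR : 0 ≤ R := (abs_nonneg x).trans hx
  have he : Real.exp (3 - Real.sqrt 2) ≤ 9 := by
    have h1 : (1 : ℝ) ≤ Real.sqrt 2 := by
      rw [Real.one_le_sqrt]; norm_num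
    have h2 : Real.exp (3 - Real.sqrt 2) ≤ Real.exp 2 := Real.exp_le_exp.2 (by linarith)
    have h3 : Real.exp 2 = Real.exp 1 * Real.exp 1 := by rw [← Real.exp_add]; norm_num
    have h4 := Real.exp_one_lt_d9
    have h5 := Real.exp_pos 1
    nlinarith
  refine (abs_sum_le_sum_abs _ _).trans ?_
  have h1 : ∀ k ∈ range n, |(∏ j ∈ range k, fa (x / 3 ^ (j + 1))) * fb (x / 3 ^ (k + 1))| ≤
      (2 * Real.pi * R) ^ 3 * (1 / 10 * (1 / 27) * (1 / 3) ^ k) := by
    intro k _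
    have hp : 0 < ∏ j ∈ range k, fa (x / 3 ^ (j + 1)) := prod_pos fun _ _ => Real.exp_pos _
    have hple : ∏ j ∈ range k, fa (x / 3 ^ (j + 1)) ≤ 9 ^ k := by
      rw [F3b_prod, Real.exp_nat_mul]
      have h2 : Real.exp (-3 * F3b_G k x) ≤ 1 := by
        apply Real.exp_le_one_iff.2
        have : 0 ≤ F3b_G k x := sum_nonneg fun j _ => by
          have := Real.cos_le_one (2 * Real.pi * (x / 3 ^ (j + 1)))
          linarith
        linarith
      have h3 : Real.exp (3 - Real.sqrt 2) ^ k ≤ 9 ^ k := pow_le_pow_left₀ (Real.exp_pos _).le he k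
      have h4 : 0 < Real.exp (-3 * F3b_G k x) := Real.exp_pos _
      have h5 : (0 : ℝ) < 9 ^ k := by positivity
      nlinarith [Real.exp_pos (3 - Real.sqrt 2), pow_pos (Real.exp_pos (3 - Real.sqrt 2)) k]
    have hb : |fb (x / 3 ^ (k + 1))| ≤ (2 * Real.pi * R) ^ 3 * (1 / 10 * (1 / 27) ^ (k + 1)) := by
      unfold fb
      rw [abs_div, abs_pow, abs_of_pos (by norm_num : (0 : ℝ) < 10)]
      have h2 : |Real.sin (2 * Real.pi * (x / 3 ^ (k + 1)))| ≤ 2 * Real.pi * R * (1 / 3) ^ (k + 1) := by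
        refine Real.abs_sin_le_abs.trans ?_
        have h4 : 2 * Real.pi * (x / 3 ^ (k + 1)) = 2 * Real.pi * (1 / 3) ^ (k + 1) * x := by
          rw [one_div_pow]
          field_simp
        rw [h4, abs_mul, abs_of_pos (by positivity)]
        have : 0 < 2 * Real.pi * (1 / 3) ^ (k + 1) := by positivity
        nlinarith
      have h3 := pow_le_pow_left₀ (abs_nonneg _) h2 3
      have h5 : (2 * Real.pi * R * (1 / 3) ^ (k + 1)) ^ 3 =
          (2 * Real.pi * R) ^ 3 * (1 / 27) ^ (k + 1) := by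
        rw [mul_pow, ← pow_mul, mul_comm (k + 1) 3, pow_mul]
        norm_num
      rw [h5] at h3
      linarith
    rw [abs_mul, abs_of_pos hp]
    calc _ ≤ (9 : ℝ) ^ k * ((2 * Real.pi * R) ^ 3 * (1 / 10 * (1 / 27) ^ (k + 1))) :=
          mul_le_mul hple hb (abs_nonneg _) (by positivity)
      _ = (2 * Real.pi * R) ^ 3 * (1 / 10 * (1 / 27) * (1 / 3) ^ k) := by
          have h6 : (9 : ℝ) ^ k * (1 / 27) ^ k = (1 / 3) ^ k := by
            rw [← mul_pow]; norm_num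
          rw [pow_succ, ← h6]
          ring
  refine (sum_le_sum h1).trans ?_
  rw [← mul_sum]
  have h7 : ∑ i ∈ range n, ((1 : ℝ) / 10 * (1 / 27) * (1 / 3) ^ i) ≤ 1 := by
    rw [← mul_sum]
    have h6 : ∀ n : ℕ, ∑ i ∈ range n, ((1 : ℝ) / 3) ^ i = 3 / 2 * (1 - (1 / 3) ^ n) := by
      intro n
      induction n with
      | zero => simp
      | succ n ih => rw [sum_range_succ, ih]; ring
    rw [h6]
    have : (0 : ℝ) ≤ (1 / 3) ^ n := by positivity
    linarith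
  have h8 : 0 ≤ (2 * Real.pi * R) ^ 3 := by positivity
  nlinarith

/-- the point of `KK` obtained after `p + q` steps. -/
lemma F3b_mem (w σ : ℝ) (hσ : σ = 1 ∨ σ = -1) (p q : ℕ) :
    (((1 / 2 + w : ℝ) : UnitAddCircle),
      (∏ j ∈ range q, fa (1 / 2 + w / 3 ^ (j + 1))) *
        ((∏ j ∈ range p, fa ((1 / 2 + w / 3 ^ q) / 3 ^ (j + 1))) *
          tstar ((1 / 2 + w / 3 ^ q) / 3 ^ p - σ / 2) +
        ∑ k ∈ range p, (∏ j ∈ range k, fa ((1 / 2 + w / 3 ^ q) / 3 ^ (j + 1))) *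
          fb ((1 / 2 + w / 3 ^ q) / 3 ^ (k + 1))) +
      ∑ k ∈ range q, (∏ j ∈ range k, fa (1 / 2 + w / 3 ^ (j + 1))) *
        fb (1 / 2 + w / 3 ^ (k + 1))) ∈ KK := by
  set v : ℝ := 1 / 2 + w / 3 ^ q with hv
  have h1 := tstar_mem (v / 3 ^ p - σ / 2)
  have h2 : ((1 / 2 + (v / 3 ^ p - σ / 2) : ℝ) : UnitAddCircle) = ((v / 3 ^ p : ℝ) : UnitAddCircle) := by
    rcases hσ with rfl | rfl
    · congr 1
      ring
    · have h3 : (1 / 2 + (v / 3 ^ p - -1 / 2) : ℝ) = v / 3 ^ p + 1 := by ring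
      rw [h3, AddCircle.coe_add]
      have h4 : ((1 : ℝ) : UnitAddCircle) = 0 :=
        (AddCircle.coe_eq_zero_iff (1 : ℝ)).2 ⟨1, by simp⟩
      rw [h4, add_zero]
  rw [h2] at h1
  have h3 := KK_iter p h1
  rw [F3b_fiter, F3b_smul, hv] at h3
  have h4 := KK_iter q h3
  rw [F2_fiter, F2_smul] at h4
  exact h4

/-- The pushed leaf gives points over `1/2 + w` with fibre coordinate `tstar w ± c e^L`. -/
lemma push_limit (w : ℝ) (σ : ℝ) (hσ : σ = 1 ∨ σ = -1) :
    ∃ c : ℝ, 0 < c ∧ ∀ (L : ℝ) (p q : ℕ → ℕ), Tendsto p atTop atTop → Tendsto q atTop atTop →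
      Tendsto (fun i : ℕ => (p i : ℝ) * (3 - Real.sqrt 2) - q i * (3 + Real.sqrt 2)) atTop (𝓝 L) →
      (((1 / 2 + w : ℝ) : UnitAddCircle), tstar w + σ * c * Real.exp L) ∈ KK := by
  set T : ℝ := -tstar (1 / 2) with hT
  have hT0 : 0 < T := by rw [hT]; linarith [tstar_half_neg]
  set g : ℝ → ℝ := fun x => ∑' j : ℕ, (1 - Real.cos (2 * Real.pi * (x / 3 ^ (j + 1)))) with hg
  refine ⟨Real.exp (-3 * g (1 / 2)) * Real.exp (3 * g w) * T, by positivity, ?_⟩
  intro L p q hp hq hL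
  refine isClosed_KK.mem_of_tendsto (b := atTop) (Tendsto.prodMk_nhds tendsto_const_nhds ?_)
    (Eventually.of_forall fun i => F3b_mem w σ hσ (p i) (q i))
  have hthird : Tendsto (fun n : ℕ => ((1 : ℝ) / 3) ^ n) atTop (𝓝 0) :=
    tendsto_pow_atTop_nhds_zero_of_lt_one (by norm_num) (by norm_num)
  -- the base points
  have hv : Tendsto (fun i : ℕ => (1 / 2 + w / 3 ^ (q i) : ℝ)) atTop (𝓝 (1 / 2)) := by
    have h1 := ((hthird.comp hq).const_mul w).const_add (1 / 2)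
    rw [mul_zero, add_zero] at h1
    refine h1.congr fun i => ?_
    simp only [Function.comp, one_div_pow]
    ring
  have hvp : Tendsto (fun i : ℕ => (1 / 2 + w / 3 ^ (q i)) / 3 ^ (p i) - σ / 2) atTop
      (𝓝 (0 - σ / 2)) := by
    have h1 := hv.mul (hthird.comp hp)
    rw [mul_zero] at h1
    refine (h1.congr fun i => ?_).sub_const _
    simp only [Function.comp, one_div_pow]
    ring
  have hleaf : Tendsto (fun i : ℕ => tstar ((1 / 2 + w / 3 ^ (q i)) / 3 ^ (p i) - σ / 2)) atTop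
      (𝓝 (σ * T)) := by
    have h1 := (continuous_tstar.tendsto _).comp hvp
    have h2 : tstar (0 - σ / 2) = σ * T := by
      rcases hσ with rfl | rfl
      · rw [zero_sub, tstar_neg, hT]; ring
      · rw [show (0 - -1 / 2 : ℝ) = 1 / 2 by norm_num, hT]; ring
    rw [h2] at h1
    exact h1
  -- the sums
  have hSq : Tendsto (fun i : ℕ => ∑ k ∈ range (q i), (∏ j ∈ range k, fa (1 / 2 + w / 3 ^ (j + 1))) *
        fb (1 / 2 + w / 3 ^ (k + 1))) atTop (𝓝 (tstar w)) :=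
    (F2_summable w).hasSum.tendsto_sum_nat.comp hq
  have hPq : Tendsto (fun i : ℕ => ∏ j ∈ range (q i), fa (1 / 2 + w / 3 ^ (j + 1))) atTop (𝓝 0) := by
    have h7 : Tendsto (fun n : ℕ => Real.exp (-3) ^ n * Real.exp (3 * Real.pi * |w|)) atTop (𝓝 0) := by
      have := (tendsto_pow_atTop_nhds_zero_of_lt_one (Real.exp_pos (-3)).le
        F2_exp_lt).mul_const (Real.exp (3 * Real.pi * |w|))
      rwa [zero_mul] at this
    exact squeeze_zero (fun i => (F2_prod_pos w (q i)).le) (fun i => F2_prod_le' w (q i))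
      (h7.comp hq)
  have hSp : Tendsto (fun i : ℕ => (∏ j ∈ range (q i), fa (1 / 2 + w / 3 ^ (j + 1))) *
      ∑ k ∈ range (p i), (∏ j ∈ range k, fa ((1 / 2 + w / 3 ^ (q i)) / 3 ^ (j + 1))) *
          fb ((1 / 2 + w / 3 ^ (q i)) / 3 ^ (k + 1))) atTop (𝓝 0) := by
    have hb : ∀ i : ℕ, |∑ k ∈ range (p i), (∏ j ∈ range k, fa ((1 / 2 + w / 3 ^ (q i)) / 3 ^ (j + 1))) *
          fb ((1 / 2 + w / 3 ^ (q i)) / 3 ^ (k + 1))| ≤ (2 * Real.pi * (1 / 2 + |w|)) ^ 3 := by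
      intro i
      apply F3b_sum_bound
      have h1 : |w / 3 ^ (q i)| ≤ |w| := by
        rw [abs_div, abs_of_pos (by positivity : (0 : ℝ) < 3 ^ (q i))]
        exact div_le_self (abs_nonneg _) (one_le_pow₀ (by norm_num))
      calc |1 / 2 + w / 3 ^ (q i)| ≤ |(1 / 2 : ℝ)| + |w / 3 ^ (q i)| := abs_add_le _ _
        _ ≤ 1 / 2 + |w| := by
          rw [abs_of_pos (by norm_num : (0 : ℝ) < 1 / 2)]
          linarith
    rw [tendsto_zero_iff_abs_tendsto_zero]
    have h1 := hPq.mul_const ((2 * Real.pi * (1 / 2 + |w|)) ^ 3)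
    rw [zero_mul] at h1
    refine squeeze_zero (fun i => abs_nonneg _) (fun i => ?_) h1
    simp only [Function.comp]
    rw [abs_mul, abs_of_pos (F2_prod_pos w (q i))]
    exact mul_le_mul_of_nonneg_left (hb i) (F2_prod_pos w (q i)).le
  -- the products
  have hG1 : Tendsto (fun i : ℕ => F3b_G (p i) (1 / 2 + w / 3 ^ (q i))) atTop (𝓝 (g (1 / 2))) := by
    have h1 : Tendsto (fun i : ℕ => F3b_G (p i) (1 / 2 + w / 3 ^ (q i)) - F3b_G (p i) (1 / 2)) atTop
        (𝓝 0) := by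
      rw [tendsto_zero_iff_abs_tendsto_zero]
      have h2 : Tendsto (fun i : ℕ => Real.pi * |(1 / 2 + w / 3 ^ (q i)) - 1 / 2|) atTop (𝓝 0) := by
        have h3 := ((hv.sub_const (1 / 2)).abs).const_mul Real.pi
        simpa using h3
      exact squeeze_zero (fun i => abs_nonneg _) (fun i => F3b_G_lip _ _ _) h2
    have h4 := h1.add ((F3b_G_tendsto (1 / 2)).comp hp)
    rw [zero_add] at h4
    refine h4.congr fun i => ?_
    simp only [Function.comp]
    ring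
  have hG2 : Tendsto (fun i : ℕ => F3b_G (q i) w) atTop (𝓝 (g w)) := (F3b_G_tendsto w).comp hq
  have hPP : Tendsto (fun i : ℕ => (∏ j ∈ range (q i), fa (1 / 2 + w / 3 ^ (j + 1))) *
      ∏ j ∈ range (p i), fa ((1 / 2 + w / 3 ^ (q i)) / 3 ^ (j + 1))) atTop
      (𝓝 (Real.exp L * (Real.exp (-3 * g (1 / 2)) * Real.exp (3 * g w)))) := by
    have h1 := (Real.continuous_exp.tendsto L).comp hL
    have h2 := (Real.continuous_exp.tendsto _).comp (hG1.const_mul (-3))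
    have h3 := (Real.continuous_exp.tendsto _).comp (hG2.const_mul 3)
    refine (h1.mul (h2.mul h3)).congr fun i => ?_
    simp only [Function.comp]
    rw [F3b_prod, F3b_prod_half, sub_eq_add_neg, Real.exp_add]
    ring
  have hfin := (((hPP.mul hleaf).add hSp).add hSq)
  have e1 : Real.exp L * (Real.exp (-3 * g (1 / 2)) * Real.exp (3 * g w)) * (σ * T) + 0 + tstar w =
      tstar w + σ * (Real.exp (-3 * g (1 / 2)) * Real.exp (3 * g w) * T) * Real.exp L := by ring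
  rw [e1] at hfin
  refine hfin.congr fun i => ?_
  ring

end Pool.Agent.FS
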