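import Mathlib
import Pool.Agent.Lib_MP_a891d2_fs.FSPush

/-! # F4 (uses F1, F2, F3 statements, G2) -/

namespace Pool.Agent.FS

open MeasureTheory Filter Topology Finset
open Pool.Agent.Results.MP_a891d2_an.TorusExample

private lemma F4_sqrt_two_lt : Real.sqrt 2 < 2 := by
  rw [show (2 : ℝ) = Real.sqrt 4 by
    rw [show (4 : ℝ) = 2 ^ 2 by norm_num]
    exact (Real.sqrt_sq (by norm_num)).symm]
  exact Real.sqrt_lt_sqrt (by norm_num) (by
    rw [show (4 : ℝ) = 2 ^ 2 by norm_num, Real.sqrt_sq (by norm_num)]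
    norm_num)

private lemma F4_irrational : Irrational ((3 - Real.sqrt 2) / (3 + Real.sqrt 2)) := by
  have hpos : 0 < 3 + Real.sqrt 2 := by
    have := Real.sqrt_nonneg 2
    linarith
  rintro ⟨r, hr⟩
  have h1 : (r : ℝ) * (3 + Real.sqrt 2) = 3 - Real.sqrt 2 := by
    rw [hr, div_mul_cancel₀ _ hpos.ne']
  have h2 : Real.sqrt 2 * (1 + (r : ℝ)) = 3 * (1 - (r : ℝ)) := by linarith
  have h3 : (1 + (r : ℝ)) ≠ 0 := by
    intro h
    have h4 : (r : ℝ) = -1 := by linarith
    rw [h4] at h2
    norm_num at h2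
  have h4 : (1 + r : ℚ) ≠ 0 := by
    intro h
    apply h3
    exact_mod_cast h
  refine irrational_sqrt_two ⟨3 * (1 - r) / (1 + r), ?_⟩
  push_cast
  rw [div_eq_iff h3]
  exact h2.symm

private lemma F4_step (L : ℝ) (i : ℕ) : ∃ p q : ℕ, i ≤ p ∧ i ≤ q ∧
    |((p : ℝ) * (3 - Real.sqrt 2) - q * (3 + Real.sqrt 2)) - L| < 1 / ((i : ℝ) + 1) := by
  set A : ℝ := 3 - Real.sqrt 2 with hA
  set B : ℝ := 3 + Real.sqrt 2 with hB
  have hBpos : 0 < B := by
    have := Real.sqrt_nonneg 2
    linarith
  have hApos : 0 < A := by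
    have := F4_sqrt_two_lt
    linarith
  have : Fact (0 < B) := ⟨hBpos⟩
  have hd : DenseRange (fun n : ℕ => n • (A : AddCircle B)) := by
    have h1 : DenseRange (fun n : ℤ => n • (A : AddCircle B)) :=
      AddCircle.denseRange_zsmul_coe_iff.mpr F4_irrational
    exact denseRange_zsmul_iff_nsmul.mp h1
  obtain ⟨N, hN⟩ := exists_nat_gt ((i * B + L + 1) / A)
  have hN1 : i * B + L + 1 < N * A := by
    rwa [div_lt_iff₀ hApos] at hN
  have heps : (0 : ℝ) < 1 / ((i : ℝ) + 1) := by positivity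
  have heps1 : 1 / ((i : ℝ) + 1) ≤ 1 := by
    rw [div_le_one (by positivity)]
    have : (0 : ℝ) ≤ i := by positivity
    linarith
  obtain ⟨n, hn⟩ := hd.exists_dist_lt ((L - (N + i : ℕ) * A : ℝ) : AddCircle B) heps
  have h2 : ‖(((n + (N + i) : ℕ) * A - L : ℝ) : AddCircle B)‖ < 1 / ((i : ℝ) + 1) := by
    rw [dist_comm, dist_eq_norm] at hn
    have h3 : (((n + (N + i) : ℕ) * A - L : ℝ) : AddCircle B) =
        n • (A : AddCircle B) - ((L - (N + i : ℕ) * A : ℝ) : AddCircle B) := by
      rw [← AddCircle.coe_nsmul, ← AddCircle.coe_sub]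
      congr 1
      rw [nsmul_eq_mul]
      push_cast
      ring
    rw [h3]
    exact hn
  rw [AddCircle.norm_eq] at h2
  set k : ℤ := round (B⁻¹ * ((n + (N + i) : ℕ) * A - L)) with hk
  have h4 := abs_lt.mp h2
  have h5 : (i : ℝ) * B < (k : ℝ) * B := by
    have h6 : ((n + (N + i) : ℕ) : ℝ) * A = n * A + N * A + i * A := by
      push_cast
      ring
    have h7 : 0 ≤ (n : ℝ) * A := by positivity
    have h8 : 0 ≤ (i : ℝ) * A := by positivity
    rw [h6] at h4
    linarith [h4.2]
  have h6 : (i : ℝ) < (k : ℝ) := lt_of_mul_lt_mul_right h5 hBpos.le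
  have h7 : (i : ℤ) < k := by exact_mod_cast h6
  obtain ⟨q, hq⟩ := Int.eq_ofNat_of_zero_le (show (0 : ℤ) ≤ k by omega)
  refine ⟨n + (N + i), q, by omega, by omega, ?_⟩
  have h8 : ((q : ℕ) : ℝ) = (k : ℝ) := by
    rw [hq]
    simp
  rw [h8]
  have h9 : ((n + (N + i) : ℕ) : ℝ) * A - (k : ℝ) * B - L =
      ((n + (N + i) : ℕ) : ℝ) * A - L - (k : ℝ) * B := by ring
  rw [h9]
  exact h2

lemma exists_seq (L : ℝ) : ∃ p q : ℕ → ℕ, Tendsto p atTop atTop ∧ Tendsto q atTop atTop ∧
    Tendsto (fun i : ℕ => (p i : ℝ) * (3 - Real.sqrt 2) - q i * (3 + Real.sqrt 2)) atTop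
      (𝓝 L) := by
  choose p q hp hq hpq using F4_step L
  refine ⟨p, q, tendsto_atTop_mono hp tendsto_id, tendsto_atTop_mono hq tendsto_id, ?_⟩
  rw [tendsto_iff_dist_tendsto_zero]
  refine squeeze_zero (fun i => dist_nonneg) (fun i => ?_)
    (tendsto_one_div_add_atTop_nhds_zero_nat (𝕜 := ℝ))
  rw [Real.dist_eq]
  exact (hpq i).le

theorem KK_univ : KK = Set.univ := by
  rw [Set.eq_univ_iff_forall]
  rintro ⟨ξ, t⟩
  obtain ⟨v, rfl⟩ := QuotientAddGroup.mk_surjective ξ
  obtain ⟨w, rfl⟩ : ∃ w : ℝ, v = 1 / 2 + w := ⟨v - 1 / 2, by ring⟩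
  rcases lt_trichotomy t (tstar w) with h | h | h
  · obtain ⟨c, hc, hall⟩ := push_limit w (-1) (Or.inr rfl)
    obtain ⟨p, q, hp, hq, hpq⟩ := exists_seq (Real.log ((tstar w - t) / c))
    have h1 := hall _ p q hp hq hpq
    rw [Real.exp_log (div_pos (sub_pos.mpr h) hc)] at h1
    have h2 : tstar w + -1 * c * ((tstar w - t) / c) = t := by
      field_simp
      ring
    rw [h2] at h1
    exact h1
  · have h1 := tstar_mem w
    rw [h]
    exact h1
  · obtain ⟨c, hc, hall⟩ := push_limit w 1 (Or.inl rfl)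
    obtain ⟨p, q, hp, hq, hpq⟩ := exists_seq (Real.log ((t - tstar w) / c))
    have h1 := hall _ p q hp hq hpq
    rw [Real.exp_log (div_pos (sub_pos.mpr h) hc)] at h1
    have h2 : tstar w + 1 * c * ((t - tstar w) / c) = t := by
      field_simp
      ring
    rw [h2] at h1
    exact h1

private lemma F4_mem (ξ : UnitAddCircle) (t : ℝ) : ((ξ, yy t) : Torus) ∈ fmu.support := by
  have h : (ξ, t) ∈ KK := by
    rw [KK_univ]
    exact Set.mem_univ _
  exact h

theorem fsupport_univ : fmu.support = Set.univ := by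
  rw [Set.eq_univ_iff_forall]
  rintro ⟨ξ, η⟩
  by_cases h : η = ((1 / 2 : ℝ) : UnitAddCircle)
  · have h1 : Tendsto (fun n : ℕ => ((ξ, yy n) : Torus)) atTop (𝓝 (ξ, η)) := by
      refine Tendsto.prodMk_nhds tendsto_const_nhds ?_
      have h2 : Tendsto (fun n : ℕ => Real.arctan n / Real.pi) atTop (𝓝 (Real.pi / 2 / Real.pi)) :=
        ((Real.tendsto_arctan_atTop.mono_right nhdsWithin_le_nhds).comp
          tendsto_natCast_atTop_atTop).div_const _
      have h3 : Real.pi / 2 / Real.pi = 1 / 2 := by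
        have := Real.pi_pos
        field_simp
      rw [h3] at h2
      rw [h]
      exact ((AddCircle.continuous_mk' 1).tendsto _).comp h2
    exact Measure.isClosed_support.mem_of_tendsto h1 (Eventually.of_forall fun n => F4_mem ξ n)
  · have h1 := F4_mem ξ (ct η)
    rwa [yy_ct h] at h1

theorem fmu_pos {U : Set Torus} (hU : IsOpen U) (hne : U.Nonempty) : 0 < fmu U := by
  obtain ⟨x, hx⟩ := hne
  have h1 : x ∈ fmu.support := by
    rw [fsupport_univ]
    exact Set.mem_univ _
  exact (Measure.mem_support_iff_forall x).mp h1 U (hU.mem_nhds hx)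

private lemma F4_isClosed : IsClosed (naturalExtension fmap) := by
  have h1 : naturalExtension fmap = ⋂ n : ℕ, {x : ℕ → Torus | fmap (x (n + 1)) = x n} := by
    ext x
    simp [naturalExtension]
  rw [h1]
  refine isClosed_iInter fun n => ?_
  exact isClosed_eq (continuous_fmap.comp (continuous_apply _)) (continuous_apply _)

private lemma F4_measurable_shift : Measurable (shift fmap) := by
  rw [measurable_pi_iff]
  rintro (_ | n)
  · exact continuous_fmap.measurable.comp (measurable_pi_apply 0)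
  · exact measurable_pi_apply n

private lemma F4_law (N : ℕ) : fmu'.map (fun x : ℕ → Torus => x N) = fmu := by
  induction N with
  | zero => exact isNaturalLift_f.projects
  | succ N ih =>
    have h1 : (fun x : ℕ → Torus => x N) = (fun x : ℕ → Torus => x (N + 1)) ∘ shift fmap := rfl
    rw [h1, ← Measure.map_map (measurable_pi_apply _) F4_measurable_shift,
      isNaturalLift_f.invariant] at ih
    exact ih

private lemma F4_iterate {z : ℕ → Torus} (hz : z ∈ naturalExtension fmap) (N : ℕ) :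
    ∀ j ≤ N, z (N - j) = fmap^[j] (z N) := by
  intro j
  induction j with
  | zero => intro _; rfl
  | succ j ih =>
    intro hj
    rw [Function.iterate_succ_apply', ← ih (by omega)]
    have h1 := hz (N - (j + 1))
    rw [show N - (j + 1) + 1 = N - j by omega] at h1
    exact h1.symm

/-- the support of the lift is the natural extension. -/
theorem fsupport' : fmu'.support = naturalExtension fmap := by
  apply Set.Subset.antisymm
  · exact Measure.support_subset_of_isClosed F4_isClosed isNaturalLift_f.concentrated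
  · intro y hy
    rw [Measure.mem_support_iff_forall]
    intro U hU
    rw [nhds_pi, Filter.mem_pi] at hU
    obtain ⟨I, hI, V, hV, hsub⟩ := hU
    obtain ⟨N, hN⟩ : ∃ N : ℕ, ∀ i ∈ I, i ≤ N := by
      obtain ⟨N, hN⟩ := hI.bddAbove
      exact ⟨N, fun i hi => hN hi⟩
    have hW : ∀ i ∈ I, ∀ᶠ p in 𝓝 (y N), fmap^[N - i] p ∈ V i := by
      intro i hi
      have h1 : Continuous (fmap^[N - i]) := continuous_fmap.iterate _
      have h2 : fmap^[N - i] (y N) = y i := by
        rw [← F4_iterate hy N (N - i) (Nat.sub_le _ _)]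
        congr 1
        have := hN i hi
        omega
      have h3 := h1.tendsto (y N)
      rw [h2] at h3
      exact h3 (hV i)
    have hW' : ∀ᶠ p in 𝓝 (y N), ∀ i ∈ I, fmap^[N - i] p ∈ V i :=
      (Filter.eventually_all_finite hI).mpr hW
    obtain ⟨O, hO, hOopen, hyO⟩ := eventually_nhds_iff.mp hW'
    have hpos : 0 < fmu O := fmu_pos hOopen ⟨y N, hyO⟩
    rw [← F4_law N, Measure.map_apply (measurable_pi_apply N) hOopen.measurableSet] at hpos
    refine lt_of_lt_of_le hpos (measure_mono_ae ?_)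
    filter_upwards [isNaturalLift_f.concentrated] with z hz hzO
    refine hsub ?_
    intro i hi
    have h1 := hO (z N) hzO i hi
    rw [← F4_iterate hz N (N - i) (Nat.sub_le _ _)] at h1
    have h2 : N - (N - i) = i := by
      have := hN i hi
      omega
    rwa [h2] at h1

end Pool.Agent.FS
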