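import Mathlib
import Pool.Agent.Lib_MP_a891d2_fs.FSForw

/-!
# Dissipativity of skew products over `ξ ↦ 3 ξ` with contracting fibres
-/

namespace Pool.Agent.FS.Diss

open MeasureTheory Filter Topology Finset
open Pool.Agent.Results.MP_a891d2_an.TorusExample

lemma norm_coe_le_abs' (s : ℝ) : ‖(s : UnitAddCircle)‖ ≤ |s| := by
  rw [UnitAddCircle.norm_eq]
  simpa using round_le s 0

lemma abs_arctan_sub_le (a b : ℝ) : |Real.arctan a - Real.arctan b| ≤ |a - b| := by
  have h := Convex.norm_image_sub_le_of_norm_deriv_le (𝕜 := ℝ) (f := Real.arctan) (C := 1)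
    (s := Set.univ) (x := b) (y := a) (fun x _ => Real.differentiableAt_arctan x)
    (fun x _ => by
      rw [Real.deriv_arctan, Real.norm_eq_abs, abs_of_pos (by positivity)]
      rw [div_le_one (by positivity)]
      nlinarith [sq_nonneg x]) convex_univ (Set.mem_univ _) (Set.mem_univ _)
  simpa using h

/-- the coordinate `t = tan (π y)` determines the point `y ≠ 1/2`. -/
lemma eq_arctan_ct {η : UnitAddCircle} (h : η ≠ ((1 / 2 : ℝ) : UnitAddCircle)) :
    η = ((Real.arctan (ct η) / Real.pi : ℝ) : UnitAddCircle) := by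
  set t : ℝ := (AddCircle.equivIco 1 0 η : ℝ) with ht
  have h2 : ct η = Real.tan (Real.pi * (t - round t)) := by
    unfold ct
    rw [← ht]
    have : Real.pi * t = Real.pi * (t - round t) + (round t : ℤ) * Real.pi := by ring
    rw [this, Real.tan_periodic.int_mul (round t)]
  set u := t - round t with hu
  have hpi := Real.pi_pos
  have hle : |u| ≤ 1 / 2 := abs_sub_round t
  have hcoe : (u : UnitAddCircle) = η := by
    have h0 : (((round t : ℤ) : ℝ) : UnitAddCircle) = 0 := by
      rw [AddCircle.coe_eq_zero_iff]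
      exact ⟨round t, by simp⟩
    rw [hu, AddCircle.coe_sub, h0, sub_zero, ht, coe_equivIco]
  have hlt : |u| < 1 / 2 := by
    rcases lt_or_eq_of_le hle with h3 | h3
    · exact h3
    · exfalso
      apply h
      rw [← hcoe, coe_eq_half_iff]
      have : Real.cos (Real.pi * |u|) = 0 := by
        rw [h3, show Real.pi * (1 / 2) = Real.pi / 2 by ring, Real.cos_pi_div_two]
      rcases abs_choice u with h4 | h4
      · rwa [h4] at this
      · rw [h4] at this
        rw [← Real.cos_neg]
        rw [← this]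
        congr 1
        ring
  rw [abs_lt] at hlt
  rw [h2, Real.arctan_tan (by nlinarith) (by nlinarith), mul_div_cancel_left₀ _ hpi.ne', hcoe]

lemma volume_half : (volume : Measure UnitAddCircle) {((1 / 2 : ℝ) : UnitAddCircle)} = 0 := by
  have h := AddCircle.volume_closedBall (T := 1) (x := ((1 / 2 : ℝ) : UnitAddCircle)) 0
  rw [Metric.closedBall_zero] at h
  rw [h]
  simp

lemma volume_ct_le (s r : ℝ) :
    (volume : Measure UnitAddCircle) {η : UnitAddCircle | |ct η - s| ≤ r} ≤
      ENNReal.ofReal (2 * r) := by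
  have hsub : {η : UnitAddCircle | |ct η - s| ≤ r} ⊆
      Metric.closedBall ((Real.arctan s / Real.pi : ℝ) : UnitAddCircle) r ∪
        {((1 / 2 : ℝ) : UnitAddCircle)} := by
    intro η hη
    by_cases h : η = ((1 / 2 : ℝ) : UnitAddCircle)
    · right; exact h
    · left
      rw [Metric.mem_closedBall]
      conv_lhs => rw [eq_arctan_ct h]
      rw [dist_eq_norm, ← AddCircle.coe_sub]
      refine (norm_coe_le_abs' _).trans ?_
      rw [← sub_div, abs_div, abs_of_pos Real.pi_pos]
      have h1 : |Real.arctan (ct η) - Real.arctan s| ≤ r := (abs_arctan_sub_le _ _).trans hη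
      have h2 : |Real.arctan (ct η) - Real.arctan s| / Real.pi ≤
          |Real.arctan (ct η) - Real.arctan s| :=
        div_le_self (abs_nonneg _) (by linarith [Real.pi_gt_three])
      exact h2.trans h1
  refine (measure_mono hsub).trans ((measure_union_le _ _).trans ?_)
  rw [volume_half, add_zero, AddCircle.volume_closedBall]
  exact ENNReal.ofReal_le_ofReal (min_le_right _ _)

lemma measurable_ct : Measurable ct := by
  unfold ct
  have h1 : Measurable (fun η : UnitAddCircle => (AddCircle.equivIco 1 0 η : ℝ)) :=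
    measurable_subtype_coe.comp (AddCircle.measurableEquivIco 1 0).measurable
  have h2 : (fun η : UnitAddCircle => Real.tan (Real.pi * (AddCircle.equivIco 1 0 η : ℝ))) =
      fun η : UnitAddCircle => Real.sin (Real.pi * (AddCircle.equivIco 1 0 η : ℝ)) /
        Real.cos (Real.pi * (AddCircle.equivIco 1 0 η : ℝ)) := by
    funext η
    exact Real.tan_eq_sin_div_cos _
  rw [h2]
  exact (Real.measurable_sin.comp (h1.const_mul _)).div (Real.measurable_cos.comp (h1.const_mul _))

/-- the value at time `n` of the orbit of `t = 0` over `ξ`. -/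
noncomputable def zorb (ka kb : UnitAddCircle → ℝ) : ℕ → UnitAddCircle → ℝ
  | 0, _ => 0
  | n + 1, ξ => ka ((3 ^ n : ℕ) • ξ) * zorb ka kb n ξ + kb ((3 ^ n : ℕ) • ξ)

lemma continuous_zorb {ka kb : UnitAddCircle → ℝ} (hka : Continuous ka) (hkb : Continuous kb)
    (n : ℕ) : Continuous (zorb ka kb n) := by
  induction n with
  | zero => exact continuous_const
  | succ n ih =>
    exact ((hka.comp (continuous_nsmul _)).mul ih).add (hkb.comp (continuous_nsmul _))

/-- the union of the `3 ^ n` strips of radius `r` around the images of `t = 0`. -/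
def strips (ka kb : UnitAddCircle → ℝ) (n : ℕ) (r : ℝ) : Set Torus :=
  ⋃ j ∈ range (3 ^ n), {q : Torus |
    |ct q.2 - zorb ka kb n (((((AddCircle.equivIco 1 0 q.1 : ℝ) + j) / 3 ^ n : ℝ)) :
      UnitAddCircle)| ≤ r}

lemma measurableSet_strip {ka kb : UnitAddCircle → ℝ} (hka : Continuous ka) (hkb : Continuous kb)
    (n j : ℕ) (r : ℝ) : MeasurableSet {q : Torus |
    |ct q.2 - zorb ka kb n (((((AddCircle.equivIco 1 0 q.1 : ℝ) + j) / 3 ^ n : ℝ)) :
      UnitAddCircle)| ≤ r} := by
  have h1 : Measurable (fun η : UnitAddCircle => (AddCircle.equivIco 1 0 η : ℝ)) :=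
    measurable_subtype_coe.comp (AddCircle.measurableEquivIco 1 0).measurable
  have h2 : Measurable (fun q : Torus => zorb ka kb n
      (((((AddCircle.equivIco 1 0 q.1 : ℝ) + j) / 3 ^ n : ℝ)) : UnitAddCircle)) :=
    ((continuous_zorb hka hkb n).comp (AddCircle.continuous_mk' 1)).measurable.comp
      (((h1.comp measurable_fst).add_const _).div_const _)
  exact measurableSet_le ((measurable_ct.comp measurable_snd).sub h2).abs measurable_const

lemma measurableSet_strips {ka kb : UnitAddCircle → ℝ} (hka : Continuous ka) (hkb : Continuous kb)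
    (n : ℕ) (r : ℝ) : MeasurableSet (strips ka kb n r) :=
  Finset.measurableSet_biUnion _ fun j _ => measurableSet_strip hka hkb n j r

lemma volume_strip1 {ka kb : UnitAddCircle → ℝ} (hka : Continuous ka) (hkb : Continuous kb)
    (n j : ℕ) (r : ℝ) : (volume : Measure Torus) {q : Torus |
      |ct q.2 - zorb ka kb n (((((AddCircle.equivIco 1 0 q.1 : ℝ) + j) / 3 ^ n : ℝ)) :
        UnitAddCircle)| ≤ r} ≤ ENNReal.ofReal (2 * r) := by
  have hm := measurableSet_strip hka hkb n j r
  rw [Measure.volume_eq_prod, Measure.prod_apply hm]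
  have h1 : ∀ ξ : UnitAddCircle, (volume : Measure UnitAddCircle) (Prod.mk ξ ⁻¹' {q : Torus |
      |ct q.2 - zorb ka kb n (((((AddCircle.equivIco 1 0 q.1 : ℝ) + j) / 3 ^ n : ℝ)) :
        UnitAddCircle)| ≤ r}) ≤ ENNReal.ofReal (2 * r) := by
    intro ξ
    have h2 := volume_ct_le (zorb ka kb n (((((AddCircle.equivIco 1 0 ξ : ℝ) + j) / 3 ^ n : ℝ)) :
        UnitAddCircle)) r
    refine le_trans (le_of_eq ?_) h2
    rfl
  refine (lintegral_mono h1).trans ?_
  rw [lintegral_const, UnitAddCircle.measure_univ, mul_one]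

lemma volume_strips {ka kb : UnitAddCircle → ℝ} (hka : Continuous ka) (hkb : Continuous kb)
    (n : ℕ) (r : ℝ) :
    (volume : Measure Torus) (strips ka kb n r) ≤ ENNReal.ofReal (3 ^ n * (2 * r)) := by
  unfold strips
  refine (measure_biUnion_finset_le _ _).trans ?_
  refine (Finset.sum_le_sum fun j _ => volume_strip1 hka hkb n j r).trans ?_
  rw [Finset.sum_const, card_range, nsmul_eq_mul,
    ENNReal.ofReal_mul (p := (3 : ℝ) ^ n) (by positivity),
    ENNReal.ofReal_pow (by norm_num)]
  apply le_of_eq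
  push_cast
  rw [ENNReal.ofReal_ofNat]

/-- every point `ξ` is one of the `3 ^ n` preimages of `3 ^ n ξ`. -/
lemma exists_branch (n : ℕ) (ξ : UnitAddCircle) : ∃ j ∈ range (3 ^ n),
    ξ = ((((AddCircle.equivIco 1 0 ((3 ^ n : ℕ) • ξ) : ℝ) + j) / 3 ^ n : ℝ) :
      UnitAddCircle) := by
  set u : ℝ := (AddCircle.equivIco 1 0 ξ : ℝ) with hu
  have hu0 : 0 ≤ u := (AddCircle.equivIco 1 0 ξ).2.1
  have hu1 : u < 1 := by
    have := (AddCircle.equivIco 1 0 ξ).2.2
    simpa using this
  have hξ : (u : UnitAddCircle) = ξ := coe_equivIco ξ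
  have h3 : ((3 ^ n : ℕ) • ξ) = (((3 : ℝ) ^ n * u : ℝ) : UnitAddCircle) := by
    rw [← hξ, ← AddCircle.coe_nsmul]
    simp
  obtain ⟨m, hm⟩ := exists_equivIco_coe ((3 : ℝ) ^ n * u)
  rw [← h3] at hm
  set t : ℝ := (AddCircle.equivIco 1 0 ((3 ^ n : ℕ) • ξ) : ℝ) with ht
  have ht0 : 0 ≤ t := (AddCircle.equivIco 1 0 ((3 ^ n : ℕ) • ξ)).2.1
  have ht1 : t < 1 := by
    have := (AddCircle.equivIco 1 0 ((3 ^ n : ℕ) • ξ)).2.2
    simpa using this
  have hpow : (0 : ℝ) < 3 ^ n := by positivity
  have hm0 : (m : ℝ) < 1 := by nlinarith [mul_nonneg hpow.le hu0]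
  have hm0' : m ≤ 0 := by
    have : m < 1 := by exact_mod_cast hm0
    omega
  obtain ⟨j, hj⟩ := Int.eq_ofNat_of_zero_le (show 0 ≤ -m by omega)
  have hj' : (j : ℝ) = -(m : ℝ) := by
    have : ((j : ℤ) : ℝ) = ((-m : ℤ) : ℝ) := by rw [hj]
    push_cast at this
    exact this
  refine ⟨j, ?_, ?_⟩
  · rw [Finset.mem_range]
    have : (j : ℝ) < 3 ^ n := by
      rw [hj']
      nlinarith
    exact_mod_cast this
  · rw [hj', hm]
    have : ((3 : ℝ) ^ n * u + m + -m) / 3 ^ n = u := by field_simp; ring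
    rw [this, hξ]

section

variable {f : Torus → Torus} {ka kb : UnitAddCircle → ℝ}

lemma iterate_fst' (hfst : ∀ p, (f p).1 = (3 : ℕ) • p.1) (p : Torus) (n : ℕ) :
    (f^[n] p).1 = (3 ^ n : ℕ) • p.1 := by
  induction n with
  | zero => simp
  | succ n ih => rw [Function.iterate_succ_apply', hfst, ih, smul_smul, pow_succ, mul_comm]

lemma iterate_ne_half'
    (hhalf : ∀ p : Torus, p.2 ≠ ((1 / 2 : ℝ) : UnitAddCircle) →
      (f p).2 ≠ ((1 / 2 : ℝ) : UnitAddCircle))
    {p : Torus} (h : p.2 ≠ ((1 / 2 : ℝ) : UnitAddCircle)) (n : ℕ) :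
    (f^[n] p).2 ≠ ((1 / 2 : ℝ) : UnitAddCircle) := by
  induction n with
  | zero => simpa using h
  | succ n ih =>
    rw [Function.iterate_succ_apply']
    exact hhalf _ ih

lemma ct_iterate' (hfst : ∀ p, (f p).1 = (3 : ℕ) • p.1)
    (hhalf : ∀ p : Torus, p.2 ≠ ((1 / 2 : ℝ) : UnitAddCircle) →
      (f p).2 ≠ ((1 / 2 : ℝ) : UnitAddCircle))
    (hct : ∀ p : Torus, p.2 ≠ ((1 / 2 : ℝ) : UnitAddCircle) →
      ct (f p).2 = ka p.1 * ct p.2 + kb p.1)
    {p : Torus} (h : p.2 ≠ ((1 / 2 : ℝ) : UnitAddCircle)) (n : ℕ) :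
    ct (f^[n] p).2 = (∏ k ∈ range n, ka ((3 ^ k : ℕ) • p.1)) * ct p.2 + zorb ka kb n p.1 := by
  induction n with
  | zero => simp [zorb]
  | succ n ih =>
    rw [Function.iterate_succ_apply', hct _ (iterate_ne_half' hhalf h n), ih,
      iterate_fst' hfst, Finset.prod_range_succ, zorb]
    ring

theorem isDissipative_of (hf : Measurable f) (hka : Continuous ka) (hkb : Continuous kb)
    (hpos : ∀ ξ, 0 < ka ξ)
    (hfst : ∀ p, (f p).1 = (3 : ℕ) • p.1)
    (hhalf : ∀ p : Torus, p.2 ≠ ((1 / 2 : ℝ) : UnitAddCircle) →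
      (f p).2 ≠ ((1 / 2 : ℝ) : UnitAddCircle))
    (hct : ∀ p : Torus, p.2 ≠ ((1 / 2 : ℝ) : UnitAddCircle) →
      ct (f p).2 = ka p.1 * ct p.2 + kb p.1)
    (c : ℝ) (hc : 3 * Real.exp (-c) < 1)
    (hae : ∀ᵐ ξ : UnitAddCircle, ∀ᶠ n : ℕ in atTop,
      ∏ k ∈ range n, ka ((3 ^ k : ℕ) • ξ) ≤ Real.exp (-c * n)) :
    IsDissipative f := by
  intro ν hν hac hinv
  have hiter : ∀ n : ℕ, ν.map (f^[n]) = ν := by
    intro n
    induction n with
    | zero => simp
    | succ n ih =>
      rw [Function.iterate_succ, ← Measure.map_map (hf.iterate n) hf, hinv, ih]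
  -- the good sets
  let E : ℕ → Set Torus := fun R => {p | p.2 ≠ ((1 / 2 : ℝ) : UnitAddCircle) ∧ |ct p.2| ≤ R}
  let P : ℕ → Torus → ℝ := fun n p => ∏ k ∈ range n, ka ((3 ^ k : ℕ) • p.1)
  have hPm : ∀ n, Measurable (P n) := by
    intro n
    exact Finset.measurable_fun_prod _ fun k _ =>
      (hka.comp (continuous_nsmul _)).measurable.comp measurable_fst
  let H : ℕ → Set Torus := fun n => {p | Real.exp (-c * n) < P n p}
  have hHm : ∀ n, MeasurableSet (H n) := fun n => measurableSet_lt measurable_const (hPm n)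
  have hH0 : Tendsto (fun n => ν (H n)) atTop (𝓝 0) := by
    have h1 : ∀ᵐ p ∂ν, ∀ᶠ n : ℕ in atTop, P n p ≤ Real.exp (-c * n) := by
      apply hac.ae_le
      exact Measure.quasiMeasurePreserving_fst.ae hae
    have h2 := tendsto_measure_of_ae_tendsto_indicator_of_isFiniteMeasure (μ := ν) atTop
      (A := ∅) (As := H) MeasurableSet.empty hHm (by
        filter_upwards [h1] with p hp
        filter_upwards [hp] with n hn
        simp only [Set.mem_empty_iff_false, iff_false, H, Set.mem_ofPred_eq, not_lt]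
        exact hn)
    simpa using h2
  have hE : ∀ R : ℕ, ν (E R) = 0 := by
    intro R
    let B : ℕ → Set Torus := fun n => strips ka kb n (R * Real.exp (-c * n))
    have hBm : ∀ n, MeasurableSet (B n) := fun n => measurableSet_strips hka hkb n _
    have hBsum : ∑' n, (volume : Measure Torus) (B n) ≠ ⊤ := by
      have h1 : ∀ n, (volume : Measure Torus) (B n) ≤
          ENNReal.ofReal (2 * R * (3 * Real.exp (-c)) ^ n) := by
        intro n
        refine (volume_strips hka hkb n _).trans ?_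
        apply ENNReal.ofReal_le_ofReal
        rw [mul_pow, ← Real.exp_nat_mul]
        apply le_of_eq
        rw [show -c * (n : ℝ) = n * -c by ring]
        ring
      have h2 : Summable (fun n : ℕ => 2 * R * (3 * Real.exp (-c)) ^ n) :=
        (summable_geometric_of_lt_one (by positivity) hc).mul_left _
      have h3 : ∑' n : ℕ, ENNReal.ofReal (2 * R * (3 * Real.exp (-c)) ^ n) ≠ ⊤ := by
        rw [← ENNReal.ofReal_tsum_of_nonneg (fun n => by positivity) h2]
        exact ENNReal.ofReal_ne_top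
      exact ne_top_of_le_ne_top h3 (ENNReal.tsum_le_tsum h1)
    have hB0 : Tendsto (fun n => ν (B n)) atTop (𝓝 0) := by
      have h1 : ∀ᵐ p ∂ν, ∀ᶠ n : ℕ in atTop, p ∉ B n := hac.ae_le (ae_eventually_notMem hBsum)
      have h2 := tendsto_measure_of_ae_tendsto_indicator_of_isFiniteMeasure (μ := ν) atTop
        (A := ∅) (As := B) MeasurableSet.empty hBm (by
          filter_upwards [h1] with p hp
          filter_upwards [hp] with n hn
          simp only [Set.mem_empty_iff_false, iff_false]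
          exact hn)
      simpa using h2
    have hcover : ∀ n, ν (E R) ≤ ν (B n) + ν (H n) := by
      intro n
      have h1 : E R ⊆ (f^[n]) ⁻¹' (B n) ∪ H n := by
        rintro p ⟨hp1, hp2⟩
        by_cases hp3 : P n p ≤ Real.exp (-c * n)
        · left
          obtain ⟨j, hj, hj'⟩ := exists_branch n p.1
          show f^[n] p ∈ strips ka kb n _
          unfold strips
          simp only [Set.mem_iUnion, Set.mem_ofPred_eq]
          refine ⟨j, hj, ?_⟩
          rw [iterate_fst' hfst, ← hj', ct_iterate' hfst hhalf hct hp1, add_sub_cancel_right,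
            abs_mul, abs_of_pos (Finset.prod_pos fun k _ => hpos _), mul_comm]
          exact mul_le_mul hp2 hp3 (Finset.prod_pos fun k _ => hpos _).le (by positivity)
        · right
          exact not_le.1 hp3
      calc ν (E R) ≤ ν ((f^[n]) ⁻¹' (B n) ∪ H n) := measure_mono h1
        _ ≤ ν ((f^[n]) ⁻¹' (B n)) + ν (H n) := measure_union_le _ _
        _ = ν (B n) + ν (H n) := by
            rw [← Measure.map_apply (hf.iterate n) (hBm n), hiter]
    have hlim := hB0.add hH0
    rw [add_zero] at hlim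
    exact le_antisymm (ge_of_tendsto' hlim hcover) bot_le
  -- conclusion
  have h1 : ∀ᵐ p ∂ν, ∀ R : ℕ, p ∉ E R := by
    rw [ae_all_iff]
    intro R
    rw [ae_iff]
    simpa using hE R
  have h2 : ∀ᵐ p : Torus, p.2 ≠ ((1 / 2 : ℝ) : UnitAddCircle) := by
    have h4 : ∀ᵐ η : UnitAddCircle, η ≠ ((1 / 2 : ℝ) : UnitAddCircle) := by
      rw [ae_iff]
      simpa using volume_half
    exact Measure.quasiMeasurePreserving_snd.ae h4
  have h3 : ∀ᵐ _p ∂ν, False := by
    filter_upwards [h1, hac.ae_le h2] with p hp1 hp2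
    obtain ⟨R, hR⟩ := exists_nat_ge |ct p.2|
    exact hp1 R ⟨hp2, hR⟩
  rw [ae_iff] at h3
  simp at h3

end

end Pool.Agent.FS.Diss

namespace Pool.Agent.FS

open MeasureTheory Filter Topology Finset
open Pool.Agent.Results.MP_a891d2_an.TorusExample

theorem fisDissipative : IsDissipative fmap := by
  have hct : ∀ p : Torus, p.2 ≠ ((1 / 2 : ℝ) : UnitAddCircle) →
      ct (fmap p).2 = ka p.1 * ct p.2 + kb p.1 := by
    intro p hp
    have h1 : p = (p.1, yy (ct p.2)) := Prod.ext rfl (yy_ct hp).symm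
    conv_lhs => rw [h1]
    rw [fmap_yy, ct_yy]
  have hexp : (3 : ℝ) < Real.exp (6 / 5) := by
    have h1 : Real.exp (6 / 5) ^ 5 = Real.exp 1 ^ 6 := by
      rw [← Real.exp_nat_mul, ← Real.exp_nat_mul]
      norm_num
    have h2 : (2.7 : ℝ) < Real.exp 1 := by
      have := Real.exp_one_gt_d9
      linarith
    by_contra h3
    rw [not_lt] at h3
    have h4 : Real.exp (6 / 5) ^ 5 ≤ 3 ^ 5 := pow_le_pow_left₀ (Real.exp_pos _).le h3 5
    have h5 : (2.7 : ℝ) ^ 6 ≤ Real.exp 1 ^ 6 := pow_le_pow_left₀ (by norm_num) h2.le 6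
    rw [h1] at h4
    norm_num at h4 h5
    linarith
  have hsqrt : (6 / 5 : ℝ) < Real.sqrt 2 := by
    rw [Real.lt_sqrt (by norm_num)]
    norm_num
  refine Diss.isDissipative_of (ka := ka) (kb := kb) continuous_fmap.measurable continuous_ka
    continuous_kb ka_pos fmap_fst (fun p hp h => hp ((fmap_snd_eq_half_iff p).1 h)) hct (6 / 5)
    ?_ ?_
  · rw [Real.exp_neg, ← div_eq_mul_inv, div_lt_one (Real.exp_pos _)]
    exact hexp
  · filter_upwards [ae_fgood] with η hη
    have h1 := (tendsto_order.1 (tendsto_log_forward hη)).2 (-(6 / 5)) (by linarith)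
    filter_upwards [h1, eventually_gt_atTop 0] with n hn hn0
    have hn' : (0 : ℝ) < n := by exact_mod_cast hn0
    rw [div_lt_iff₀ hn'] at hn
    have hpos : 0 < ∏ k ∈ range n, ka ((3 ^ k : ℕ) • η) := Finset.prod_pos fun k _ => ka_pos _
    rw [← Real.log_le_iff_le_exp hpos]
    exact hn.le

end Pool.Agent.FS
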