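import Mathlib
import Pool.Agent.Lib_MP_a891d2_an.Dominated
import Pool.Agent.Lib_MP_a891d2_fs.FSDense

/-! # D (model: Dominated.lean; uses F4, M2 statements) -/

namespace Pool.Agent.FS

open MeasureTheory Filter Topology Finset
open Pool.Agent.Results.MP_a891d2_an.TorusExample

/-! ## The fixed points -/

lemma D_yy_zero : yy 0 = 0 := by
  unfold yy
  simp

lemma D_kb_zero : kb 0 = 0 := by
  have h := kb_coe 0
  rw [show ((0 : ℝ) : UnitAddCircle) = 0 from rfl] at h
  rw [h]
  unfold fb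
  simp

lemma D_kb_half : kb ((1 / 2 : ℝ) : UnitAddCircle) = 0 := by
  rw [kb_coe]
  unfold fb
  have : 2 * Real.pi * (1 / 2) = Real.pi := by ring
  rw [this, Real.sin_pi]
  norm_num

lemma D_three_half : (3 : ℕ) • ((1 / 2 : ℝ) : UnitAddCircle) = ((1 / 2 : ℝ) : UnitAddCircle) := by
  rw [← AddCircle.coe_nsmul, QuotientAddGroup.eq_iff_sub_mem, AddSubgroup.mem_zmultiples_iff]
  exact ⟨1, by norm_num⟩

/-- The fixed point `(0, 0)`. -/
def D_p : ℕ → Torus := fun _ => (0, 0)

/-- The fixed point `(1/2, 0)`. -/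
noncomputable def D_q : ℕ → Torus := fun _ => (((1 / 2 : ℝ) : UnitAddCircle), 0)

lemma D_fmap_zero : fmap ((0 : UnitAddCircle), (0 : UnitAddCircle)) = (0, 0) := by
  have h := fmap_yy 0 0
  rw [D_yy_zero, D_kb_zero, mul_zero, add_zero, D_yy_zero, smul_zero] at h
  exact h

lemma D_fmap_half : fmap (((1 / 2 : ℝ) : UnitAddCircle), (0 : UnitAddCircle)) =
    (((1 / 2 : ℝ) : UnitAddCircle), 0) := by
  have h := fmap_yy ((1 / 2 : ℝ) : UnitAddCircle) 0
  rw [D_yy_zero, D_kb_half, mul_zero, add_zero, D_yy_zero, D_three_half] at h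
  exact h

lemma D_p_mem : D_p ∈ fmu'.support := by
  rw [fsupport']
  intro n
  exact D_fmap_zero

lemma D_q_mem : D_q ∈ fmu'.support := by
  rw [fsupport']
  intro n
  exact D_fmap_half

lemma D_shift_p : shift fmap D_p = D_p := by
  funext n
  cases n with
  | zero => exact D_fmap_zero
  | succ n => rfl

lemma D_shift_q : shift fmap D_q = D_q := by
  funext n
  cases n with
  | zero => exact D_fmap_half
  | succ n => rfl

lemma D_ka_zero_gt : 3 < ka 0 := by
  unfold ka
  have h0 : cc 0 = 1 := by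
    have := cc_coe 0
    simpa using this
  rw [h0]
  have hs : Real.sqrt 2 ≤ 3 / 2 := by
    rw [Real.sqrt_le_left (by norm_num)]
    norm_num
  have h1 : (3 / 4 : ℝ) + 1 ≤ Real.exp (3 / 4) := Real.add_one_le_exp _
  have h2 : Real.exp (3 / 2) = Real.exp (3 / 4) ^ 2 := by
    rw [← Real.exp_nat_mul]
    norm_num
  have h3 : Real.exp (3 / 2) ≤ Real.exp (-Real.sqrt 2 + 3 * 1) := by
    apply Real.exp_le_exp.2
    linarith
  have h4 : (7 / 4 : ℝ) ^ 2 ≤ Real.exp (3 / 4) ^ 2 := by
    apply pow_le_pow_left₀ (by norm_num)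
    linarith
  have h5 : (3 : ℝ) < (7 / 4) ^ 2 := by norm_num
  exact (h5.trans_le h4).trans_le (h2.symm.le.trans h3)

lemma D_ka_half_lt : ka ((1 / 2 : ℝ) : UnitAddCircle) < 3 := by
  unfold ka
  have h0 : cc ((1 / 2 : ℝ) : UnitAddCircle) = -1 := by
    rw [cc_coe]
    have : 2 * Real.pi * (1 / 2) = Real.pi := by ring
    rw [this, Real.cos_pi]
  rw [h0]
  have hs := Real.sqrt_nonneg 2
  have h : Real.exp (-Real.sqrt 2 + 3 * (-1)) ≤ 1 := Real.exp_le_one_iff.2 (by linarith)
  linarith

/-! ## The heteroclinic point -/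

/-- The base points of the heteroclinic orbit. -/
noncomputable def D_x (n : ℕ) : UnitAddCircle := ((1 / (2 * 3 ^ n) : ℝ) : UnitAddCircle)

/-- The fibre coordinates of the heteroclinic orbit. -/
noncomputable def D_t : ℕ → ℝ
  | 0 => 0
  | n + 1 => (D_t n - kb (D_x (n + 1))) / ka (D_x (n + 1))

/-- The heteroclinic orbit. -/
noncomputable def D_z (n : ℕ) : Torus := (D_x n, yy (D_t n))

lemma D_z_zero : D_z 0 = (((1 / 2 : ℝ) : UnitAddCircle), 0) := by
  unfold D_z D_x D_t
  rw [D_yy_zero]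
  norm_num

lemma D_x_succ (n : ℕ) : (3 : ℕ) • D_x (n + 1) = D_x n := by
  unfold D_x
  rw [← AddCircle.coe_nsmul]
  congr 1
  simp only [nsmul_eq_mul, Nat.cast_ofNat]
  rw [pow_succ]
  field_simp

lemma D_fmap_z (n : ℕ) : fmap (D_z (n + 1)) = D_z n := by
  unfold D_z
  rw [fmap_yy, D_x_succ]
  congr 2
  show ka (D_x (n + 1)) * ((D_t n - kb (D_x (n + 1))) / ka (D_x (n + 1))) + kb (D_x (n + 1)) = D_t n
  have := (ka_pos (D_x (n + 1))).ne'
  field_simp
  ring

lemma D_x_tendsto : Tendsto D_x atTop (𝓝 0) := by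
  have h1 : Tendsto (fun m : ℕ => (1 / (2 * 3 ^ m) : ℝ)) atTop (𝓝 0) := by
    have h2 : Tendsto (fun m : ℕ => (1 / 2 : ℝ) * (1 / 3) ^ m) atTop (𝓝 (1 / 2 * 0)) :=
      (tendsto_pow_atTop_nhds_zero_of_lt_one (by norm_num) (by norm_num)).const_mul _
    rw [mul_zero] at h2
    refine h2.congr fun m => ?_
    rw [one_div_pow]
    field_simp
  have h2 : Continuous fun x : ℝ => (x : UnitAddCircle) := AddCircle.continuous_mk' 1
  exact (h2.tendsto 0).comp h1

lemma D_kb_le (n : ℕ) : |kb (D_x (n + 1))| ≤ (1 / 3) ^ n := by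
  unfold D_x
  rw [kb_coe]
  unfold fb
  set θ : ℝ := 2 * Real.pi * (1 / (2 * 3 ^ (n + 1))) with hθ
  have h1 : |Real.sin θ| ≤ |θ| := Real.abs_sin_le_abs
  have h2 : |Real.sin θ| ≤ 1 := Real.abs_sin_le_one θ
  have h3 : |θ| = Real.pi / 3 * (1 / 3) ^ n := by
    rw [abs_of_nonneg (by positivity), hθ, pow_succ, one_div_pow]
    field_simp
  have h4 : Real.pi ≤ 4 := Real.pi_le_four
  have h5 : 0 ≤ (1 / 3 : ℝ) ^ n := by positivity
  have h6 : |Real.sin θ| ^ 3 ≤ |Real.sin θ| := by
    have h7 : 0 ≤ |Real.sin θ| := abs_nonneg _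
    calc |Real.sin θ| ^ 3 = |Real.sin θ| * (|Real.sin θ| * |Real.sin θ|) := by ring
      _ ≤ |Real.sin θ| * (1 * 1) := by gcongr
      _ = |Real.sin θ| := by ring
  rw [abs_div, abs_pow, abs_of_pos (show (0:ℝ) < 10 by norm_num)]
  rw [h3] at h1
  nlinarith

lemma D_t_tendsto : Tendsto D_t atTop (𝓝 0) := by
  have hka : Tendsto (fun n => ka (D_x (n + 1))) atTop (𝓝 (ka 0)) :=
    (continuous_ka.tendsto 0).comp (D_x_tendsto.comp (tendsto_add_atTop_nat 1))
  have hev : ∀ᶠ n in atTop, 2 ≤ ka (D_x (n + 1)) := by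
    have := hka.eventually (lt_mem_nhds (show (2:ℝ) < ka 0 by linarith [D_ka_zero_gt]))
    filter_upwards [this] with n hn
    exact hn.le
  obtain ⟨N, hN⟩ := eventually_atTop.1 hev
  set K : ℝ := 3 + |D_t N| * (3 / 2) ^ N with hK
  have hb : ∀ j : ℕ, |D_t (N + j)| ≤ K * (2 / 3) ^ (N + j) := by
    intro j
    induction j with
    | zero =>
      rw [add_zero, hK]
      have e : ((3 : ℝ) / 2) ^ N * (2 / 3) ^ N = 1 := by
        rw [← mul_pow]; norm_num
      have h0 : (0 : ℝ) ≤ (2 / 3) ^ N := by positivity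
      calc |D_t N| = |D_t N| * (((3 : ℝ) / 2) ^ N * (2 / 3) ^ N) := by rw [e, mul_one]
        _ ≤ _ := by nlinarith [abs_nonneg (D_t N)]
    | succ j ih =>
      have h2 := hN (N + j) (by omega)
      have h3 := D_kb_le (N + j)
      have h4 : D_t (N + (j + 1)) =
          (D_t (N + j) - kb (D_x (N + j + 1))) / ka (D_x (N + j + 1)) := rfl
      have h5 : |D_t (N + (j + 1))| ≤ (|D_t (N + j)| + |kb (D_x (N + j + 1))|) / 2 := by
        rw [h4, abs_div, abs_of_pos (ka_pos _)]
        have h6 : |D_t (N + j) - kb (D_x (N + j + 1))| ≤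
            |D_t (N + j)| + |kb (D_x (N + j + 1))| := abs_sub _ _
        have h7 : 0 ≤ |D_t (N + j)| + |kb (D_x (N + j + 1))| := by positivity
        gcongr
      have h8 : ((1 : ℝ) / 3) ^ (N + j) ≤ (2 / 3) ^ (N + j) := by gcongr; norm_num
      have h9 : (0 : ℝ) < (2 / 3) ^ (N + j) := by positivity
      have h10 : (3 : ℝ) ≤ K := by
        rw [hK]
        have : 0 ≤ |D_t N| * (3 / 2) ^ N := by positivity
        linarith
      rw [show N + (j + 1) = N + j + 1 by ring] at h5 ⊢
      rw [pow_succ]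
      nlinarith
  have hlim : Tendsto (fun j : ℕ => K * (2 / 3 : ℝ) ^ (N + j)) atTop (𝓝 0) := by
    have h1 : Tendsto (fun n : ℕ => K * (2 / 3 : ℝ) ^ n) atTop (𝓝 (K * 0)) :=
      (tendsto_pow_atTop_nhds_zero_of_lt_one (by norm_num) (by norm_num)).const_mul K
    rw [mul_zero] at h1
    refine h1.comp ?_
    exact tendsto_atTop_mono (fun j => Nat.le_add_left j N) tendsto_id
  have h1 : Tendsto (fun j => D_t (N + j)) atTop (𝓝 0) :=
    squeeze_zero_norm (fun j => by rw [Real.norm_eq_abs]; exact hb j) hlim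
  have h2 : (fun j => D_t (N + j)) = fun j => D_t (j + N) := by
    funext j; rw [add_comm]
  rw [h2] at h1
  exact (tendsto_add_atTop_iff_nat N).1 h1

lemma D_z_tendsto : Tendsto D_z atTop (𝓝 (0, 0)) := by
  have h1 : Tendsto (fun n => yy (D_t n)) atTop (𝓝 0) := by
    have := (continuous_yy.tendsto 0).comp D_t_tendsto
    rwa [D_yy_zero] at this
  exact D_x_tendsto.prodMk_nhds h1

/-- The forward orbit of the heteroclinic point in the natural extension. -/
noncomputable def D_F (m : ℕ) : ℕ → Torus := fun n => D_z (n - m)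

/-- The backward orbit of the heteroclinic point in the natural extension. -/
noncomputable def D_B (m : ℕ) : ℕ → Torus := fun n => D_z (n + m)

lemma D_F_mem (m : ℕ) : D_F m ∈ fmu'.support := by
  rw [fsupport']
  intro n
  show fmap (D_z (n + 1 - m)) = D_z (n - m)
  rcases Nat.lt_or_ge n m with h | h
  · have e1 : n + 1 - m = 0 := by omega
    have e2 : n - m = 0 := by omega
    rw [e1, e2, D_z_zero]
    exact D_fmap_half
  · have e1 : n + 1 - m = (n - m) + 1 := by omega
    rw [e1]
    exact D_fmap_z _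

lemma D_B_mem (m : ℕ) : D_B m ∈ fmu'.support := by
  rw [fsupport']
  intro n
  show fmap (D_z (n + 1 + m)) = D_z (n + m)
  rw [show n + 1 + m = n + m + 1 by ring]
  exact D_fmap_z _

lemma D_shift_F (m : ℕ) : shift fmap (D_F m) = D_F (m + 1) := by
  funext n
  cases n with
  | zero =>
    show fmap (D_z (0 - m)) = D_z (0 - (m + 1))
    rw [Nat.zero_sub, Nat.zero_sub, D_z_zero]
    exact D_fmap_half
  | succ n =>
    show D_z (n - m) = D_z (n + 1 - (m + 1))
    rw [Nat.add_sub_add_right]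

lemma D_shift_B (m : ℕ) : shift fmap (D_B (m + 1)) = D_B m := by
  funext n
  cases n with
  | zero =>
    show fmap (D_z (0 + (m + 1))) = D_z (0 + m)
    rw [Nat.zero_add, Nat.zero_add]
    exact D_fmap_z m
  | succ n =>
    show D_z (n + (m + 1)) = D_z (n + 1 + m)
    congr 1
    omega

lemma D_F_zero_eq : D_F 0 = D_B 0 := rfl

lemma D_F_coord (m : ℕ) : D_F m 0 = (((1 / 2 : ℝ) : UnitAddCircle), 0) := by
  show D_z (0 - m) = _
  rw [Nat.zero_sub, D_z_zero]

lemma D_F_tendsto : Tendsto D_F atTop (𝓝 D_q) := by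
  rw [tendsto_pi_nhds]
  intro n
  refine tendsto_const_nhds.congr' ?_
  filter_upwards [eventually_ge_atTop n] with m hm
  show (((1 / 2 : ℝ) : UnitAddCircle), (0 : UnitAddCircle)) = D_z (n - m)
  rw [Nat.sub_eq_zero_of_le hm, D_z_zero]

lemma D_B_tendsto : Tendsto D_B atTop (𝓝 D_p) := by
  rw [tendsto_pi_nhds]
  intro n
  show Tendsto (fun m => D_z (n + m)) atTop (𝓝 ((0 : UnitAddCircle), (0 : UnitAddCircle)))
  exact D_z_tendsto.comp (tendsto_atTop_mono (fun m => Nat.le_add_left m n) tendsto_id)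

/-! ## There is no dominated splitting -/

theorem fno_dominated_splitting :
    ¬ ∃ E E' : (ℕ → Torus) → Submodule ℝ (ℝ × ℝ),
      IsDominatedSplitting flift fmap fmu'.support E E' := by
  rintro ⟨E, E', hE⟩
  obtain ⟨C, θ, hC, hθ0, hθ1, hdom⟩ := hE.dominated
  -- structure at fixed points
  have hfix : ∀ (x : ℕ → Torus) (a : ℝ), x ∈ fmu'.support → shift fmap x = x →
      D flift 1 (x 0) = diag 3 a → a ≠ 3 →
      ((E x = Submodule.span ℝ {((1 : ℝ), (0 : ℝ))} ∧
        E' x = Submodule.span ℝ {((0 : ℝ), (1 : ℝ))}) ∨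
      (E x = Submodule.span ℝ {((0 : ℝ), (1 : ℝ))} ∧
        E' x = Submodule.span ℝ {((1 : ℝ), (0 : ℝ))})) := by
    intro x a hmem hshift hD ha
    have key : ∀ G : (ℕ → Torus) → Submodule ℝ (ℝ × ℝ),
        IsContinuousLineField fmu'.support G →
        (∀ y ∈ fmu'.support, (G y).map (D flift 1 (y 0)).toLinearMap = G (shift fmap y)) →
        G x = Submodule.span ℝ {((1 : ℝ), (0 : ℝ))} ∨
          G x = Submodule.span ℝ {((0 : ℝ), (1 : ℝ))} := by
      intro G hG hGinv
      obtain ⟨U, hU, s, _, hs⟩ := hG x hmem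
      obtain ⟨hs0, hs1⟩ := hs x ⟨hmem, mem_of_mem_nhds hU⟩
      have hinv := hGinv x hmem
      rw [hshift, hD, hs1] at hinv
      have hspan : ∀ (c : ℝ) (v : ℝ × ℝ), c ≠ 0 →
          Submodule.span ℝ {c • v} = Submodule.span ℝ {v} := by
        intro c v hc
        exact Submodule.span_singleton_smul_eq (IsUnit.mk0 c hc) v
      rcases invariant_line ha hinv with h | h
      · right
        rw [hs1]
        have h2 : (s x).2 ≠ 0 := by
          intro h2
          exact hs0 (Prod.ext h h2)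
        have h3 : s x = (s x).2 • ((0 : ℝ), (1 : ℝ)) := by
          ext <;> simp [h]
        rw [h3, hspan _ _ h2]
      · left
        rw [hs1]
        have h2 : (s x).1 ≠ 0 := by
          intro h2
          exact hs0 (Prod.ext h2 h)
        have h3 : s x = (s x).1 • ((1 : ℝ), (0 : ℝ)) := by
          ext <;> simp [h]
        rw [h3, hspan _ _ h2]
    have hcompl := hE.isCompl x hmem
    have hne : ∀ v : ℝ × ℝ, v ≠ 0 → E x = Submodule.span ℝ {v} →
        E' x = Submodule.span ℝ {v} → False := by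
      intro v hv h1 h2
      rw [h1, h2] at hcompl
      have h3 := hcompl.disjoint
      rw [Submodule.disjoint_def] at h3
      exact hv (h3 v (Submodule.mem_span_singleton_self v) (Submodule.mem_span_singleton_self v))
    rcases key E hE.continuous_fst hE.invariant_fst with h1 | h1 <;>
    rcases key E' hE.continuous_snd hE.invariant_snd with h2 | h2
    · exact (hne _ (by simp) h1 h2).elim
    · exact Or.inl ⟨h1, h2⟩
    · exact Or.inr ⟨h1, h2⟩
    · exact (hne _ (by simp) h1 h2).elim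
  have hDp : ∀ n : ℕ, D flift n (D_p 0) = diag (3 ^ n) (ka 0 ^ n) := fun n => fD_zero n
  have hDq : ∀ n : ℕ, D flift n (D_q 0) =
      diag (3 ^ n) (ka ((1 / 2 : ℝ) : UnitAddCircle) ^ n) := fun n => fD_half n
  -- at the fixed point `(0, 0)`, `E` is horizontal
  have hp : E D_p = Submodule.span ℝ {((1 : ℝ), (0 : ℝ))} := by
    have ha := D_ka_zero_gt
    have hD1 : D flift 1 (D_p 0) = diag 3 (ka 0) := by
      have := hDp 1
      rwa [pow_one, pow_one] at this
    rcases hfix D_p (ka 0) D_p_mem D_shift_p hD1 ha.ne' with h | ⟨h1, h2⟩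
    · exact h.1
    · exfalso
      apply not_dominated (a := 3) (b := ka 0) (C := C) (by norm_num) ha hθ0 hθ1
      intro n
      have h3 := hdom D_p D_p_mem n (0, 1)
        (by rw [h1]; exact Submodule.mem_span_singleton_self _) (1, 0)
        (by rw [h2]; exact Submodule.mem_span_singleton_self _) (by simp [Prod.norm_def])
        (by simp [Prod.norm_def])
      rw [hDp, diag_apply, diag_apply] at h3
      simp only [mul_zero, mul_one] at h3
      rw [norm_zero_mk, norm_mk_zero, abs_of_pos (pow_pos (ka_pos _) n),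
        abs_of_pos (by positivity)] at h3
      exact h3
  -- at the fixed point `(1/2, 0)`, `E` is vertical
  have hq : E D_q = Submodule.span ℝ {((0 : ℝ), (1 : ℝ))} := by
    have ha := D_ka_half_lt
    have hD1 : D flift 1 (D_q 0) = diag 3 (ka ((1 / 2 : ℝ) : UnitAddCircle)) := by
      have := hDq 1
      rwa [pow_one, pow_one] at this
    rcases hfix D_q _ D_q_mem D_shift_q hD1 ha.ne with ⟨h1, h2⟩ | h
    · exfalso
      apply not_dominated (b := 3) (a := ka ((1 / 2 : ℝ) : UnitAddCircle)) (C := C) (ka_pos _)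
        ha hθ0 hθ1
      intro n
      have h3 := hdom D_q D_q_mem n (1, 0)
        (by rw [h1]; exact Submodule.mem_span_singleton_self _) (0, 1)
        (by rw [h2]; exact Submodule.mem_span_singleton_self _) (by simp [Prod.norm_def])
        (by simp [Prod.norm_def])
      rw [hDq, diag_apply, diag_apply] at h3
      simp only [mul_zero, mul_one] at h3
      rw [norm_zero_mk, norm_mk_zero, abs_of_pos (pow_pos (ka_pos _) n),
        abs_of_pos (by positivity)] at h3
      exact h3
    · exact h.1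
  -- invariance
  have hinv : ∀ x ∈ fmu'.support, ∀ u : ℝ × ℝ, u ∈ E x →
      D flift 1 (x 0) u ∈ E (shift fmap x) := by
    intro x hx u hu
    rw [← hE.invariant_fst x hx]
    exact Submodule.mem_map_of_mem (f := (D flift 1 (x 0)).toLinearMap) hu
  -- `E` is vertical at the heteroclinic point
  have hvert : ∀ u ∈ E (D_F 0), u.1 = 0 := by
    intro u hu
    by_contra hu1
    set σ := u.2 / u.1 with hσ
    have hu' : ((1 : ℝ), σ) ∈ E (D_F 0) := by
      have := Submodule.smul_mem (E (D_F 0)) (u.1)⁻¹ hu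
      have e : (u.1)⁻¹ • u = (1, σ) := by
        ext
        · simp [hu1]
        · simp [hσ, div_eq_inv_mul]
      rwa [e] at this
    set r := ka ((1 / 2 : ℝ) : UnitAddCircle) / 3 with hr
    have hr0 : 0 < r := div_pos (ka_pos _) (by norm_num)
    have hr1 : r < 1 := by
      rw [hr, div_lt_one (by norm_num)]
      exact D_ka_half_lt
    have hm : ∀ m : ℕ, ((1 : ℝ), r ^ m * σ) ∈ E (D_F m) := by
      intro m
      induction m with
      | zero => simpa using hu'
      | succ m ih =>
        have h1 := hinv _ (D_F_mem m) _ ih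
        have hD1 : D flift 1 (D_F m 0) = diag 3 (ka ((1 / 2 : ℝ) : UnitAddCircle)) := by
          rw [D_F_coord]
          have := fD_half 1
          rwa [pow_one, pow_one] at this
        rw [D_shift_F, hD1, diag_apply] at h1
        have h2 := Submodule.smul_mem _ (1 / 3 : ℝ) h1
        have e2 : (1 / 3 : ℝ) • ((3 : ℝ) * ((1 : ℝ), r ^ m * σ).1,
            ka ((1 / 2 : ℝ) : UnitAddCircle) * ((1 : ℝ), r ^ m * σ).2) =
            (1, r ^ (m + 1) * σ) := by
          ext
          · simp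
          · simp only [Prod.smul_mk, smul_eq_mul]
            rw [hr, pow_succ]
            ring
        rw [e2] at h2
        exact h2
    obtain ⟨U, hU, s, hscont, hs⟩ := hE.continuous_fst D_q D_q_mem
    have hqU : D_q ∈ fmu'.support ∩ U := ⟨D_q_mem, mem_of_mem_nhds hU⟩
    have hlim : Tendsto (fun m : ℕ => s (D_F m)) atTop (𝓝 (s D_q)) := by
      have h1 : Tendsto s (𝓝[fmu'.support ∩ U] D_q) (𝓝 (s D_q)) := hscont _ hqU
      apply h1.comp
      rw [tendsto_nhdsWithin_iff]
      refine ⟨D_F_tendsto, ?_⟩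
      filter_upwards [D_F_tendsto.eventually hU] with m hm'
      exact ⟨D_F_mem m, hm'⟩
    have hsq := hs _ hqU
    have hsq1 : (s D_q).1 = 0 := by
      have : s D_q ∈ E D_q := by
        rw [hsq.2]; exact Submodule.mem_span_singleton_self _
      rw [hq, Submodule.mem_span_singleton] at this
      obtain ⟨c, hc⟩ := this
      rw [← hc]
      simp
    have hsq2 : (s D_q).2 ≠ 0 := fun h => hsq.1 (Prod.ext hsq1 h)
    have hslope : ∀ᶠ m : ℕ in atTop, (s (D_F m)).2 = (s (D_F m)).1 * (r ^ m * σ) := by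
      filter_upwards [D_F_tendsto.eventually hU] with m hm'
      have h1 := hs _ ⟨D_F_mem m, hm'⟩
      have h2 := hm m
      rw [h1.2, Submodule.mem_span_singleton] at h2
      obtain ⟨c, hc⟩ := h2
      rw [Prod.ext_iff] at hc
      simp only [Prod.smul_fst, Prod.smul_snd, smul_eq_mul] at hc
      have hc0 : c ≠ 0 := by
        intro h
        rw [h] at hc
        simp at hc
      have e1 : c * (s (D_F m)).2 = c * ((s (D_F m)).1 * (r ^ m * σ)) := by
        rw [hc.2, ← mul_assoc, hc.1, one_mul]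
      exact mul_left_cancel₀ hc0 e1
    have hlim1 : Tendsto (fun m : ℕ => (s (D_F m)).1 * (r ^ m * σ)) atTop
        (𝓝 ((s D_q).1 * (0 * σ))) :=
      ((continuous_fst.tendsto _).comp hlim).mul
        ((tendsto_pow_atTop_nhds_zero_of_lt_one hr0.le hr1).mul_const σ)
    have hlim2 : Tendsto (fun m : ℕ => (s (D_F m)).2) atTop (𝓝 ((s D_q).2)) :=
      (continuous_snd.tendsto _).comp hlim
    have := tendsto_nhds_unique (hlim2.congr' hslope) hlim1
    rw [this] at hsq2
    simp at hsq2
  -- hence vertical at all backward iterates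
  have hback : ∀ m : ℕ, ∀ u ∈ E (D_B m), u.1 = 0 := by
    intro m
    induction m with
    | zero => rw [← D_F_zero_eq]; exact hvert
    | succ m ih =>
      intro u hu
      have h1 := hinv _ (D_B_mem (m + 1)) _ hu
      rw [D_shift_B] at h1
      have h2 := ih _ h1
      rw [fD_fst] at h2
      linarith
  obtain ⟨U, hU, s, hscont, hs⟩ := hE.continuous_fst D_p D_p_mem
  have hpU : D_p ∈ fmu'.support ∩ U := ⟨D_p_mem, mem_of_mem_nhds hU⟩
  have hlim : Tendsto (fun m : ℕ => s (D_B m)) atTop (𝓝 (s D_p)) := by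
    have h1 : Tendsto s (𝓝[fmu'.support ∩ U] D_p) (𝓝 (s D_p)) := hscont _ hpU
    apply h1.comp
    rw [tendsto_nhdsWithin_iff]
    refine ⟨D_B_tendsto, ?_⟩
    filter_upwards [D_B_tendsto.eventually hU] with m hm'
    exact ⟨D_B_mem m, hm'⟩
  have hsp := hs _ hpU
  have hsp2 : (s D_p).2 = 0 := by
    have : s D_p ∈ E D_p := by
      rw [hsp.2]; exact Submodule.mem_span_singleton_self _
    rw [hp, Submodule.mem_span_singleton] at this
    obtain ⟨c, hc⟩ := this
    rw [← hc]
    simp
  have hsp1 : (s D_p).1 ≠ 0 := fun h => hsp.1 (Prod.ext h hsp2)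
  have hz : ∀ᶠ m : ℕ in atTop, (s (D_B m)).1 = 0 := by
    filter_upwards [D_B_tendsto.eventually hU] with m hm'
    have h1 := hs _ ⟨D_B_mem m, hm'⟩
    apply hback m
    rw [h1.2]
    exact Submodule.mem_span_singleton_self _
  have hlim1 : Tendsto (fun m : ℕ => (s (D_B m)).1) atTop (𝓝 (s D_p).1) :=
    (continuous_fst.tendsto _).comp hlim
  have := tendsto_nhds_unique (hlim1.congr' hz) tendsto_const_nhds
  exact hsp1 this

end Pool.Agent.FS
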