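import Mathlib
import Pool.Agent.Lib_MP_a891d2_fs.FSLift

/-! # E (uses all of the above) -/

namespace Pool.Agent.FS

open MeasureTheory Filter Topology Finset
open Pool.Agent.Results.MP_a891d2_an.TorusExample

/-- a sequence `≥ 1` of subexponential growth has exponent zero. -/
lemma E_log {u : ℕ → ℝ} (h1 : ∀ n, 1 ≤ u n)
    (h2 : ∀ e : ℝ, 0 < e → ∃ C : ℝ, 0 < C ∧ ∀ n : ℕ, u n ≤ C * Real.exp (e * n)) :
    Tendsto (fun n : ℕ => Real.log (u n) / n) atTop (𝓝 0) := by
  rw [Metric.tendsto_atTop]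
  intro ε hε
  obtain ⟨C, hC, hb⟩ := h2 (ε / 2) (by linarith)
  obtain ⟨N, hN⟩ := exists_nat_gt (2 * |Real.log C| / ε)
  refine ⟨N + 1, fun n hn => ?_⟩
  have hn0 : (0 : ℝ) < n := by exact_mod_cast (by omega : 0 < n)
  have hlog0 : 0 ≤ Real.log (u n) := Real.log_nonneg (h1 n)
  rw [Real.dist_eq, sub_zero, abs_of_nonneg (div_nonneg hlog0 hn0.le), div_lt_iff₀ hn0]
  have hlog : Real.log (u n) ≤ Real.log C + ε / 2 * n := by
    calc Real.log (u n) ≤ Real.log (C * Real.exp (ε / 2 * n)) :=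
          Real.log_le_log (by linarith [h1 n]) (hb n)
      _ = Real.log C + ε / 2 * n := by
          rw [Real.log_mul hC.ne' (Real.exp_pos _).ne', Real.log_exp]
  have hNn : (N : ℝ) ≤ n := by exact_mod_cast (by omega : N ≤ n)
  have h3 : 2 * |Real.log C| < n * ε := (div_lt_iff₀ hε).1 (lt_of_lt_of_le hN hNn)
  have h4 := le_abs_self (Real.log C)
  nlinarith

lemma E_exp_ge {e : ℝ} (he : 0 < e) (n : ℕ) : 1 ≤ Real.exp (e * n) := by
  apply Real.one_le_exp
  positivity

lemma E_sq {t : ℕ → ℝ}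
    (h : ∀ e : ℝ, 0 < e → ∃ C : ℝ, 0 < C ∧ ∀ n : ℕ, |t n| ≤ C * Real.exp (e * n)) :
    Tendsto (fun n : ℕ => Real.log (1 + t n ^ 2) / n) atTop (𝓝 0) := by
  apply E_log
  · intro n
    have := sq_nonneg (t n)
    linarith
  · intro e he
    obtain ⟨C, hC, hb⟩ := h (e / 2) (by linarith)
    refine ⟨1 + C ^ 2, by positivity, fun n => ?_⟩
    have h1 : t n ^ 2 ≤ C ^ 2 * Real.exp (e * n) := by
      have h2 : |t n| ^ 2 ≤ (C * Real.exp (e / 2 * n)) ^ 2 :=
        pow_le_pow_left₀ (abs_nonneg _) (hb n) 2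
      rw [sq_abs, mul_pow, ← Real.exp_nat_mul] at h2
      have h3 : ((2 : ℕ) : ℝ) * (e / 2 * n) = e * n := by push_cast; ring
      rwa [h3] at h2
    have h4 := E_exp_ge he n
    linarith

lemma E_norm_le (s : ℝ) : ‖((1 : ℝ), s)‖ ≤ 1 + |s| := by
  rw [Prod.norm_def]
  simp only [norm_one, Real.norm_eq_abs]
  exact max_le (by linarith [abs_nonneg s]) (by linarith)

lemma E_one_le (s : ℝ) : 1 ≤ ‖((1 : ℝ), s)‖ := by
  rw [Prod.norm_def]
  simp only [norm_one]
  exact le_max_left _ _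

lemma E_pair {t : ℕ → ℝ}
    (h : ∀ e : ℝ, 0 < e → ∃ C : ℝ, 0 < C ∧ ∀ n : ℕ, |t n| ≤ C * Real.exp (e * n)) :
    Tendsto (fun n : ℕ => Real.log ‖((1 : ℝ), t n)‖ / n) atTop (𝓝 0) := by
  apply E_log
  · intro n
    exact E_one_le _
  · intro e he
    obtain ⟨C, hC, hb⟩ := h e he
    refine ⟨1 + C, by positivity, fun n => ?_⟩
    have h1 := E_norm_le (t n)
    have h2 := hb n
    have h4 := E_exp_ge he n
    linarith

lemma E_inverse {L : ℝ × ℝ →L[ℝ] ℝ × ℝ} (hL : Function.Bijective L) {v w : ℝ × ℝ}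
    (h : L w = v) : L.inverse v = w := by
  have h1 := ContinuousLinearEquiv.coe_ofBijective L (LinearMap.ker_eq_bot.2 hL.1)
      (LinearMap.range_eq_top.2 hL.2)
  rw [← h1, ContinuousLinearMap.inverse_equiv]
  show (ContinuousLinearEquiv.ofBijective L _ _).symm v = w
  rw [ContinuousLinearEquiv.symm_apply_eq]
  exact h.symm

lemma E_flow_zero : flow 0 = 0 := by
  apply Subtype.ext
  funext n
  show ((0 / 3 ^ n : ℝ) : UnitAddCircle) = 0
  rw [zero_div, AddCircle.coe_zero]

lemma E_triple_stl_succ (x : Sol) (n : ℕ) : triple (stl x (n + 1)) = stl x n := by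
  apply Subtype.ext
  funext k
  show (3 : ℕ) • x.1 (k + (n + 1)) = x.1 (k + n)
  exact x.2 (k + n)

lemma E_iterate_stl (n : ℕ) (x : Sol) : triple^[n] (stl x n) = x := by
  induction n with
  | zero =>
    apply Subtype.ext
    funext k
    rfl
  | succ n ih => rw [Function.iterate_succ_apply, E_triple_stl_succ, ih]

lemma E_good_stl {x : Sol} (h : Good x.1) (n : ℕ) : Good (stl x n).1 := good_tlq h n

lemma E_stl_zero (x : Sol) (n : ℕ) : (stl x n).1 0 = x.1 n := by
  show x.1 (0 + n) = x.1 n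
  rw [zero_add]

lemma E_femb_stl (x : Sol) (n : ℕ) : femb x n = femb (stl x n) 0 := by
  show ((x.1 n, yy (tt (tlq x.1 n))) : Torus) = ((stl x n).1 0, yy (tt (tlq x.1 n)))
  rw [E_stl_zero]

lemma E_femb_zero (x : Sol) : femb x 0 = (x.1 0, yy (tt x.1)) := rfl

lemma E_fiter {x : Sol} (h : Good x.1) (n : ℕ) :
    fiter n (x.1 n) (tt (tlq x.1 n)) = tt x.1 := by
  have h1 := fiter_tt (E_good_stl h n) n
  rw [E_iterate_stl, E_stl_zero] at h1
  exact h1

lemma E_prod (x : Sol) (n : ℕ) : ∏ k ∈ range n, ka ((3 ^ k : ℕ) • x.1 n) = pp x.1 n := by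
  unfold pp
  rw [← Finset.prod_range_reflect (fun k => ka (x.1 (k + 1)))]
  apply Finset.prod_congr rfl
  intro k hk
  have hk' := Finset.mem_range.1 hk
  have h5 := Sol.pow x (n - 1 - k + 1) k
  have h6 : n - 1 - k + 1 + k = n := by omega
  rw [h6] at h5
  rw [h5]

lemma E_pp_pos (ξ : ℕ → UnitAddCircle) (n : ℕ) : 0 < pp ξ n :=
  Finset.prod_pos fun k _ => ka_pos _

lemma E_vertical {x : Sol} (h : Good x.1) (h' : FGood (x.1 0)) :
    HasExponent flift (femb x) (0, 1) (-Real.sqrt 2) := by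
  have hone : ∀ t : ℝ, (0 : ℝ) < 1 + t ^ 2 := fun t => by positivity
  constructor
  · have h1 := tendsto_log_forward h'
    have h2 := tendsto_const_div_atTop_nhds_zero_nat (Real.log (1 + tt x.1 ^ 2))
    have h3 := E_sq (t := fun n => tt (triple^[n] x).1) fun e he => tt_forward h h' he
    have h4 := (h1.add h2).sub h3
    simp only [add_zero, sub_zero] at h4
    refine h4.congr fun n => ?_
    rw [E_femb_zero, fD_vert, norm_zero_mk, fiter_tt h]
    have hP : 0 < ∏ k ∈ range n, ka ((3 ^ k : ℕ) • x.1 0) := Finset.prod_pos fun k _ => ka_pos _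
    have h5 := hone (tt x.1)
    have h6 := hone (tt (triple^[n] x).1)
    rw [abs_of_pos (by positivity), Real.log_div (by positivity) h6.ne',
      Real.log_mul hP.ne' h5.ne']
    ring
  · have h1 := tendsto_log_pp h
    have h2 := tendsto_const_div_atTop_nhds_zero_nat (Real.log (1 + tt x.1 ^ 2))
    have h3 := E_sq (t := fun n => tt (tlq x.1 n)) fun e he => tt_bound h he
    have h4 := (h1.neg.add h2).sub h3
    simp only [add_zero, sub_zero] at h4
    refine h4.congr fun n => ?_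
    have hP := E_pp_pos x.1 n
    have h5 := hone (tt x.1)
    have h6 := hone (tt (tlq x.1 n))
    set q : ℝ := pp x.1 n * (1 + tt (tlq x.1 n) ^ 2) / (1 + tt x.1 ^ 2) with hq
    have hq0 : 0 < q := by positivity
    have h7 : D flift n (femb x n) (0, 1) = (0, q) := by
      show D flift n (x.1 n, yy (tt (tlq x.1 n))) (0, 1) = (0, q)
      rw [fD_vert, E_fiter h, E_prod]
    have h8 : (D flift n (femb x n)).inverse (0, 1) = (0, q⁻¹) := by
      apply E_inverse (fD_bijective n _)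
      have h9 : ((0 : ℝ), q⁻¹) = q⁻¹ • ((0 : ℝ), (1 : ℝ)) := by simp
      rw [h9, map_smul, h7, Prod.smul_mk, smul_zero, smul_eq_mul, inv_mul_cancel₀ hq0.ne']
    rw [h8, norm_zero_mk, abs_of_pos (inv_pos.2 hq0), Real.log_inv, hq,
      Real.log_div (by positivity) h5.ne', Real.log_mul hP.ne' h6.ne']
    ring

lemma E_toTorus (z : Sol) (s : ℝ) : toTorus (fcurve z s) = femb (z + flow s) 0 := by
  show (((cr (z.1 0) + s : ℝ) : UnitAddCircle), yy (tt (z + flow s).1)) =
    (((z + flow s).1 0, yy (tt (z + flow s).1)) : Torus)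
  have h1 : (z + flow s).1 0 = z.1 0 + ((s / 3 ^ 0 : ℝ) : UnitAddCircle) := rfl
  rw [h1, AddCircle.coe_add, coe_cr, pow_zero, div_one]

lemma E_iterate_flow (z : Sol) (s : ℝ) (n : ℕ) :
    triple^[n] (z + flow s) = triple^[n] z + flow (3 ^ n * s) := by
  induction n with
  | zero => simp
  | succ n ih =>
    rw [Function.iterate_succ_apply', Function.iterate_succ_apply', ih, map_add, triple_flow]
    congr 2
    ring

lemma E_iterate_femb {z : Sol} (h : Good z.1) (n : ℕ) :
    fmap^[n] (femb z 0) = femb (triple^[n] z) 0 := by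
  rw [E_femb_zero, fmap_iterate_yy, fiter_tt h, E_femb_zero, triple_iterate_apply]

lemma E_hasDerivAt {z : Sol} (h : Good z.1) (s : ℝ) :
    HasDerivAt (fcurve z) (1, sig (z + flow s)) s := by
  have h1 : HasDerivAt (fun s : ℝ => cr (z.1 0) + s) 1 s := (hasDerivAt_id s).const_add _
  have h2 := ((hasDerivAt_tt h s).arctan).div_const Real.pi
  have h3 : 1 / (1 + tt (z + flow s).1 ^ 2) * dd (z + flow s).1 / Real.pi = sig (z + flow s) := by
    unfold sig
    have := Real.pi_pos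
    have h5 : (0 : ℝ) < 1 + tt (z + flow s).1 ^ 2 := by positivity
    field_simp
  rw [h3] at h2
  exact h1.prodMk h2

lemma E_int {f : ℝ → ℝ} {d : ℝ} (hf : HasDerivAt f d 0) (hi : ∀ s, ∃ k : ℤ, f s = k) :
    d = 0 := by
  have h1 : ∀ᶠ s in 𝓝 (0 : ℝ), f s = f 0 := by
    have h2 := hf.continuousAt.eventually (Metric.ball_mem_nhds (f 0) one_pos)
    filter_upwards [h2] with s hs
    rw [Real.dist_eq] at hs
    obtain ⟨k, hk⟩ := hi s
    obtain ⟨l, hl⟩ := hi 0
    rw [hk, hl] at hs ⊢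
    have h3 : |k - l| < 1 := by exact_mod_cast hs
    have h4 : k - l = 0 := Int.abs_lt_one_iff.1 h3
    have h5 : k = l := by omega
    rw [h5]
  exact hf.unique ((hasDerivAt_const (0 : ℝ) (f 0)).congr_of_eventuallyEq h1)

lemma E_good_iterate {z : Sol} (h : Good z.1) (n : ℕ) : Good (triple^[n] z).1 := by
  induction n with
  | zero => exact h
  | succ n ih =>
    rw [Function.iterate_succ_apply']
    exact good_triple ih

lemma E_D {z : Sol} (h : Good z.1) (n : ℕ) :
    D flift n (femb z 0) (1, sig z) = (3 ^ n : ℝ) • ((1 : ℝ), sig (triple^[n] z)) := by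
  have hz0 : z + flow 0 = z := by rw [E_flow_zero, add_zero]
  have hA : HasDerivAt (fun s => flift^[n] (fcurve z s))
      (D flift n (femb z 0) (1, sig z)) 0 := by
    have h1 : DifferentiableAt ℝ (flift^[n]) (fcurve z 0) :=
      (((contDiff_flift (n := 1)).differentiable one_ne_zero).iterate n) _
    have h2 := h1.hasFDerivAt.comp_hasDerivAt (0 : ℝ) (E_hasDerivAt h 0)
    rw [← fD_toTorus, E_toTorus, hz0] at h2
    exact h2
  have hgood : Good (triple^[n] z).1 := E_good_iterate h n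
  have hB : HasDerivAt (fun s : ℝ => fcurve (triple^[n] z) (3 ^ n * s))
      ((3 ^ n : ℝ) • ((1 : ℝ), sig (triple^[n] z))) 0 := by
    have h1 := E_hasDerivAt hgood (3 ^ n * 0)
    have h2 : HasDerivAt (fun s : ℝ => 3 ^ n * s) (3 ^ n : ℝ) 0 := by
      simpa using (hasDerivAt_id (0 : ℝ)).const_mul (3 ^ n : ℝ)
    have h3 := HasDerivAt.scomp (0 : ℝ) h1 h2
    rw [mul_zero, E_flow_zero, add_zero] at h3
    exact h3
  have hAB : ∀ s : ℝ, toTorus (flift^[n] (fcurve z s)) =
      toTorus (fcurve (triple^[n] z) (3 ^ n * s)) := by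
    intro s
    rw [← fmap_iterate_toTorus, E_toTorus, E_toTorus, E_iterate_femb (good_flow h s),
      E_iterate_flow]
  have hint : ∀ a b : ℝ, (a : UnitAddCircle) = (b : UnitAddCircle) → ∃ k : ℤ, a - b = k := by
    intro a b hab
    have h1 : ((a - b : ℝ) : UnitAddCircle) = 0 := by rw [AddCircle.coe_sub, hab, sub_self]
    obtain ⟨k, hk⟩ := (AddCircle.coe_eq_zero_iff 1).1 h1
    exact ⟨k, by rw [← hk]; simp⟩
  apply Prod.ext
  · rw [fD_fst]
    simp
  · have h1 := ((ContinuousLinearMap.snd ℝ ℝ ℝ).hasFDerivAt.comp_hasDerivAt (0 : ℝ) (hA.sub hB))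
    have h2 := E_int h1 (fun s => by
      obtain ⟨k, hk⟩ := hint _ _ (congrArg Prod.snd (hAB s))
      exact ⟨k, by simpa using hk⟩)
    simpa [sub_eq_zero] using h2

lemma E_abs_sig_le (z : Sol) : |sig z| ≤ |dd z.1| := by
  unfold sig
  rw [abs_div]
  apply div_le_self (abs_nonneg _)
  have h1 := Real.pi_gt_three
  have h2 : (0 : ℝ) ≤ tt z.1 ^ 2 := sq_nonneg _
  rw [abs_of_pos (by positivity)]
  nlinarith

lemma E_log_smul {a : ℝ} (ha : 0 < a) (s : ℝ) :
    Real.log ‖a • ((1 : ℝ), s)‖ = Real.log a + Real.log ‖((1 : ℝ), s)‖ := by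
  rw [norm_smul, Real.norm_eq_abs, abs_of_pos ha,
    Real.log_mul ha.ne' (by have := E_one_le s; linarith)]

lemma E_horizontal {x : Sol} (h : Good x.1) (h' : FGood (x.1 0)) :
    HasExponent flift (femb x) (1, sig x) (Real.log 3) := by
  have hpos : ∀ n : ℕ, (0 : ℝ) < 3 ^ n := fun n => by positivity
  constructor
  · have h3 := E_pair (t := fun n => sig (triple^[n] x)) fun e he => by
      obtain ⟨C, hC, hb⟩ := dd_forward h h' he
      exact ⟨C, hC, fun n => (E_abs_sig_le _).trans (hb n)⟩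
    have h4 := h3.const_add (Real.log 3)
    rw [add_zero] at h4
    refine h4.congr' ?_
    filter_upwards [eventually_gt_atTop 0] with n hn
    rw [E_D h, E_log_smul (hpos n), Real.log_pow]
    have : (n : ℝ) ≠ 0 := by exact_mod_cast hn.ne'
    field_simp
  · have h3 := E_pair (t := fun n => sig (stl x n)) fun e he => by
      obtain ⟨C, hC, hb⟩ := dd_bound h he
      refine ⟨C, hC, fun n => (E_abs_sig_le _).trans ?_⟩
      have := hb n 0 (by simp)
      rwa [E_flow_zero, add_zero] at this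
    have h4 := h3.const_add (-Real.log 3)
    rw [add_zero] at h4
    refine h4.congr' ?_
    filter_upwards [eventually_gt_atTop 0] with n hn
    have h5 : (D flift n (femb x n)).inverse (1, sig x) =
        ((3 ^ n : ℝ)⁻¹) • ((1 : ℝ), sig (stl x n)) := by
      apply E_inverse (fD_bijective n _)
      rw [map_smul, E_femb_stl, E_D (E_good_stl h n), E_iterate_stl, smul_smul,
        inv_mul_cancel₀ (hpos n).ne', one_smul]
    rw [h5, E_log_smul (inv_pos.2 (hpos n)), Real.log_inv, Real.log_pow]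
    have : (n : ℝ) ≠ 0 := by exact_mod_cast hn.ne'
    field_simp

theorem fhasLyapunovExponents :
    HasLyapunovExponents flift fmu' (-Real.sqrt 2) (Real.log 3) := by
  unfold HasLyapunovExponents
  rw [ae_fmu'_iff]
  filter_upwards [ae_good, ae_fgood_sol] with x h1 h2
  refine ⟨(0, 1), (1, sig x), ?_, E_vertical h1 h2, E_horizontal h1 h2⟩
  rw [LinearIndependent.pair_iff]
  intro s t hst
  simp only [Prod.smul_mk, smul_eq_mul, mul_zero, mul_one, Prod.mk_add_mk, zero_add,
    Prod.mk_eq_zero] at hst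
  obtain ⟨ht, hs⟩ := hst
  rw [ht, zero_mul, add_zero] at hs
  exact ⟨hs, ht⟩

end Pool.Agent.FS
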