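import Mathlib
import Pool.Agent.Lib_MP_a891d2_fs.FSLift

/-! # U (model: Unstable.lean; uses M2, S1, S2, G2 statements) -/

namespace Pool.Agent.FS

open MeasureTheory Filter Topology Finset
open Pool.Agent.Results.MP_a891d2_an.TorusExample

/-- small representatives of the elements of the circle. -/
lemma U_rep (z : UnitAddCircle) : ∃ r : ℝ, (r : UnitAddCircle) = z ∧ |r| = ‖z‖ ∧ |r| ≤ 1 / 2 := by
  set t : ℝ := (AddCircle.equivIco 1 0 z : ℝ) with ht
  refine ⟨t - round t, ?_, ?_, abs_sub_round t⟩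
  · have h : (((round t : ℤ) : ℝ) : UnitAddCircle) = 0 := by
      rw [AddCircle.coe_eq_zero_iff]
      exact ⟨round t, by simp⟩
    rw [AddCircle.coe_sub, h, sub_zero, ht, coe_equivIco]
  · rw [← UnitAddCircle.norm_eq, ht, coe_equivIco]

/-- the coordinate `w = η - 1/2`. -/
lemma U_half (η : UnitAddCircle) : ∃ w : ℝ, |w| = ‖η - ((1 / 2 : ℝ) : UnitAddCircle)‖ ∧
    |w| ≤ 1 / 2 ∧ ct η = -(Real.cos (Real.pi * w) / Real.sin (Real.pi * w)) := by
  obtain ⟨w, hw, h1, h2⟩ := U_rep (η - ((1 / 2 : ℝ) : UnitAddCircle))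
  refine ⟨w, h1, h2, ?_⟩
  have h3 : η = ((1 / 2 + w : ℝ) : UnitAddCircle) := by
    rw [AddCircle.coe_add, hw]; abel
  rw [h3, ct_coe, Real.tan_eq_sin_div_cos]
  have h4 : Real.pi * (1 / 2 + w) = Real.pi * w + Real.pi / 2 := by ring
  rw [h4, Real.sin_add_pi_div_two, Real.cos_add_pi_div_two, div_neg]

lemma U_sin_lower {w : ℝ} (h : |w| ≤ 1 / 2) : 2 * |w| ≤ |Real.sin (Real.pi * w)| := by
  have hpi := Real.pi_pos
  have key : ∀ v : ℝ, 0 ≤ v → v ≤ 1 / 2 → 2 * v ≤ Real.sin (Real.pi * v) := by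
    intro v h0 h1
    have h2 := Real.mul_le_sin (x := Real.pi * v) (by positivity) (by nlinarith)
    have h3 : 2 / Real.pi * (Real.pi * v) = 2 * v := by field_simp
    rwa [h3] at h2
  rcases le_total 0 w with h0 | h0
  · rw [abs_of_nonneg h0] at h ⊢
    exact (key w h0 h).trans (le_abs_self _)
  · rw [abs_of_nonpos h0] at h ⊢
    have := key (-w) (by linarith) h
    have h5 : Real.pi * -w = -(Real.pi * w) := by ring
    rw [h5, Real.sin_neg] at this
    exact this.trans (neg_le_abs _)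

lemma U_sin_upper (w : ℝ) : |Real.sin (Real.pi * w)| ≤ 4 * |w| := by
  have hpi := Real.pi_pos
  have hpi4 := Real.pi_le_four
  have key : ∀ v : ℝ, 0 ≤ v → |Real.sin (Real.pi * v)| ≤ 4 * v := by
    intro v h0
    have h1 : 0 ≤ Real.pi * v := by positivity
    have h2 : |Real.sin (Real.pi * v)| ≤ Real.pi * v := by
      rw [abs_le]
      constructor
      · rcases le_total (Real.pi * v) Real.pi with h3 | h3
        · have := Real.sin_nonneg_of_nonneg_of_le_pi h1 h3
          linarith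
        · have := Real.neg_one_le_sin (Real.pi * v)
          linarith [Real.pi_gt_three]
      · exact Real.sin_le h1
    nlinarith
  rcases le_total 0 w with h0 | h0
  · rw [abs_of_nonneg h0]
    exact key w h0
  · rw [abs_of_nonpos h0]
    have := key (-w) (by linarith)
    rwa [mul_neg, Real.sin_neg, abs_neg] at this

/-- away from `1/2` the chart is bounded. -/
lemma U_ct_le (η : UnitAddCircle) : |ct η| * (2 * ‖η - ((1 / 2 : ℝ) : UnitAddCircle)‖) ≤ 1 := by
  obtain ⟨w, h1, h2, h3⟩ := U_half η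
  rw [← h1, h3, abs_neg, abs_div]
  have h4 := U_sin_lower h2
  by_cases h0 : Real.sin (Real.pi * w) = 0
  · rw [h0, abs_zero, div_zero, zero_mul]; norm_num
  · have hpos : 0 < |Real.sin (Real.pi * w)| := abs_pos.mpr h0
    have h5 : |Real.cos (Real.pi * w)| ≤ 1 := Real.abs_cos_le_one _
    calc |Real.cos (Real.pi * w)| / |Real.sin (Real.pi * w)| * (2 * |w|)
        ≤ 1 / |Real.sin (Real.pi * w)| * |Real.sin (Real.pi * w)| := by gcongr
      _ = 1 := by field_simp

/-- the point `yy t` is away from `1/2`. -/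
lemma U_yy_far (t : ℝ) : 1 ≤ 4 * (1 + |t|) * ‖yy t - ((1 / 2 : ℝ) : UnitAddCircle)‖ := by
  obtain ⟨w, h1, h2, h3⟩ := U_half (yy t)
  rw [ct_yy] at h3
  rw [← h1]
  have hw : w ≠ 0 := by
    rintro rfl
    rw [abs_zero] at h1
    exact yy_ne_half t (sub_eq_zero.mp (norm_eq_zero.mp h1.symm))
  have h4 := U_sin_lower h2
  have hs : Real.sin (Real.pi * w) ≠ 0 := by
    intro h0
    rw [h0, abs_zero] at h4
    have := abs_pos.mpr hw
    linarith
  have h5 : t * Real.sin (Real.pi * w) = -Real.cos (Real.pi * w) := by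
    rw [h3]; field_simp
  have h6 := Real.sin_sq_add_cos_sq (Real.pi * w)
  have h7 : (1 + t ^ 2) * Real.sin (Real.pi * w) ^ 2 = 1 := by
    have : (t * Real.sin (Real.pi * w)) ^ 2 = Real.cos (Real.pi * w) ^ 2 := by rw [h5]; ring
    nlinarith
  have h8 : 1 ≤ ((1 + |t|) * |Real.sin (Real.pi * w)|) ^ 2 := by
    rw [mul_pow, sq_abs]
    have h9 : 1 + t ^ 2 ≤ (1 + |t|) ^ 2 := by
      nlinarith [abs_nonneg t, sq_abs t]
    nlinarith [sq_nonneg (Real.sin (Real.pi * w))]
  have h9 : 1 ≤ (1 + |t|) * |Real.sin (Real.pi * w)| := by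
    by_contra hlt
    push Not at hlt
    have h10 : 0 ≤ (1 + |t|) * |Real.sin (Real.pi * w)| := by positivity
    nlinarith
  have h10 := U_sin_upper w
  have h11 : 0 ≤ 1 + |t| := by positivity
  nlinarith [mul_le_mul_of_nonneg_left h10 h11]

lemma U_dist_yy (t t' : ℝ) : dist (yy t) (yy t') ≤ |t - t'| := by
  rw [dist_eq_norm]
  unfold yy
  rw [← AddCircle.coe_sub]
  refine (norm_coe_le_abs _).trans ?_
  rw [← sub_div, abs_div, abs_of_pos Real.pi_pos]
  have h1 : |Real.arctan t - Real.arctan t'| ≤ |t - t'| := by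
    have h2 := Convex.norm_image_sub_le_of_norm_hasDerivWithin_le (f := Real.arctan)
      (f' := fun x => 1 / (1 + x ^ 2)) (C := 1) (s := Set.univ) (x := t') (y := t)
      (fun x _ => (Real.hasDerivAt_arctan x).hasDerivWithinAt) (fun x _ => by
        rw [Real.norm_eq_abs, abs_of_pos (by positivity), div_le_one (by positivity)]
        nlinarith [sq_nonneg x]) convex_univ (Set.mem_univ _) (Set.mem_univ _)
    rwa [one_mul, Real.norm_eq_abs, Real.norm_eq_abs] at h2
  have h3 : 1 ≤ Real.pi := by linarith [Real.pi_gt_three]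
  rw [div_le_iff₀ Real.pi_pos]
  nlinarith [abs_nonneg (t - t')]

lemma U_flow_zero : flow 0 = 0 := by
  have h := flow_add 0 0
  rw [add_zero] at h
  exact add_left_cancel (a := flow 0) (by rw [add_zero]; exact h.symm)

/-- the second coordinates along a flow line. -/
lemma U_snd {x : Sol} (h : Good x.1) (s : ℝ) : ∃ C : ℝ, 0 ≤ C ∧ ∀ n : ℕ,
    |tt (tlq (x + flow s).1 n) - tt (tlq x.1 n)| ≤ C * (Real.exp (1 / 2) / 3) ^ n := by
  obtain ⟨C, hC, hb⟩ := pp_bound h (e := 1 / 2) (by norm_num)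
  refine ⟨10 * Real.exp (10 * |s|) * C * |s|, by positivity, fun n => ?_⟩
  have hg : Good (stl x n).1 := good_tlq h n
  have h1 : tt (tlq (x + flow s).1 n) = tt (stl x n + flow (s / 3 ^ n)).1 := by
    rw [← stl_flow]; rfl
  have h2 : tt (tlq x.1 n) = tt (stl x n + flow 0).1 := by
    rw [U_flow_zero, add_zero]; rfl
  have h3 : (1 : ℝ) ≤ 3 ^ n := one_le_pow₀ (by norm_num)
  have h4 : |s / 3 ^ n| ≤ |s| := by
    rw [abs_div, abs_of_pos (by positivity : (0 : ℝ) < 3 ^ n)]
    exact div_le_self (abs_nonneg _) h3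
  have h5 := Convex.norm_image_sub_le_of_norm_hasDerivWithin_le
    (f := fun u : ℝ => tt (stl x n + flow u).1) (f' := fun u : ℝ => dd (stl x n + flow u).1)
    (C := 10 * Real.exp (10 * |s|) * (C * Real.exp (1 / 2 * n))) (s := Set.Icc (-|s|) |s|)
    (x := 0) (y := s / 3 ^ n)
    (fun u _ => (hasDerivAt_tt hg u).hasDerivWithinAt) (fun u hu => by
      rw [Real.norm_eq_abs]
      refine (dd_le hg u).trans ?_
      have hu' : |u| ≤ |s| := abs_le.mpr hu
      have h6 : ∑' m, pp (stl x n).1 m ≤ C * Real.exp (1 / 2 * n) := hb n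
      have h7 : 0 ≤ ∑' m, pp (stl x n).1 m :=
        tsum_nonneg fun m => Finset.prod_nonneg fun j _ => (ka_pos _).le
      gcongr) (convex_Icc _ _) (by simp) (abs_le.mp h4)
  rw [h1, h2]
  rw [Real.norm_eq_abs, Real.norm_eq_abs, sub_zero, abs_div,
    abs_of_pos (by positivity : (0 : ℝ) < 3 ^ n)] at h5
  refine h5.trans (le_of_eq ?_)
  have h6 : Real.exp (1 / 2 * n) = Real.exp (1 / 2) ^ n := by
    rw [← Real.exp_nat_mul]; congr 1; ring
  rw [h6, div_pow]
  field_simp

lemma U_exp_half : Real.exp (1 / 2) / 3 < 1 := by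
  rw [div_lt_one (by norm_num)]
  have h1 : Real.exp (1 / 2) ≤ Real.exp 1 := Real.exp_le_exp.mpr (by norm_num)
  have h2 := Real.exp_one_lt_d9
  linarith

lemma fcoe_flow_mem {x : Sol} (h : Good x.1) (s : ℝ) :
    femb (x + flow s) ∈ unstableSet fmap (femb x) := by
  obtain ⟨C, hC, hb⟩ := U_snd h s
  set θ : ℝ := Real.exp (1 / 2) / 3 with hθ
  have hθ0 : 0 < θ := by positivity
  have hθ3 : 1 / 3 ≤ θ := by
    rw [hθ]
    have : 1 ≤ Real.exp (1 / 2) := Real.one_le_exp (by norm_num)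
    gcongr
  refine ⟨femb_mem (good_flow h s), |s| + C, θ, hθ0, U_exp_half, fun n => ?_⟩
  have hpow : (0 : ℝ) ≤ θ ^ n := by positivity
  show dist ((x.1 n, yy (tt (tlq x.1 n))) : Torus)
    ((x + flow s).1 n, yy (tt (tlq (x + flow s).1 n))) ≤ _
  rw [Prod.dist_eq]
  apply max_le
  · show dist (x.1 n) (x.1 n + (flow s).1 n) ≤ _
    rw [dist_self_add_right]
    refine (norm_flow_le s n).trans ?_
    have h1 : (1 / 3 : ℝ) ^ n ≤ θ ^ n := by gcongr
    have h2 : |s| * (1 / 3) ^ n ≤ |s| * θ ^ n := by gcongr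
    nlinarith
  · show dist (yy (tt (tlq x.1 n))) (yy (tt (tlq (x + flow s).1 n))) ≤ _
    rw [dist_comm]
    refine (U_dist_yy _ _).trans ((hb n).trans ?_)
    nlinarith [mul_nonneg (abs_nonneg s) hpow]

theorem funstable_eq_flow {x : Sol} (h : Good x.1) {y : ℕ → Torus}
    (hy : y ∈ unstableSet fmap (femb x)) : ∃ s : ℝ, y = femb (x + flow s) := by
  obtain ⟨hyn, C, θ, hθ0, hθ1, hdist⟩ := hy
  -- first coordinates
  let ξ : Sol := ⟨fun n => (y n).1, by
    intro n
    have := congrArg Prod.fst (hyn n)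
    rw [fmap_fst] at this
    exact this⟩
  have hd1 : Tendsto (fun n => ‖(ξ - x).1 n‖) atTop (𝓝 0) := by
    apply tendsto_of_bound hθ0 hθ1 (fun n => norm_nonneg _) (C := C)
    intro n
    refine le_trans ?_ (hdist n)
    show ‖(y n).1 - x.1 n‖ ≤ dist ((x.1 n, yy (tt (tlq x.1 n))) : Torus) (y n)
    rw [Prod.dist_eq, ← dist_eq_norm, dist_comm]
    exact le_max_left _ _
  have hd2 : ∀ n, dist (yy (tt (tlq x.1 n))) (y n).2 ≤ C * θ ^ n := by
    intro n
    refine le_trans ?_ (hdist n)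
    show dist (yy (tt (tlq x.1 n))) (y n).2 ≤ dist ((x.1 n, yy (tt (tlq x.1 n))) : Torus) (y n)
    rw [Prod.dist_eq]
    exact le_max_right _ _
  obtain ⟨s, hs⟩ := exists_flow_of_tendsto (ξ - x) hd1
  have hξx : x + flow s = ξ := by rw [← hs]; abel
  have hgξ : Good ξ.1 := by rw [← hξx]; exact good_flow h s
  -- the exponent
  obtain ⟨e, he0, he1, he2⟩ : ∃ e : ℝ, 0 < e ∧ e ≤ 1 / 4 ∧ Real.exp e * θ < 1 := by
    have hlog : 0 < -Real.log θ := by
      have := Real.log_neg hθ0 hθ1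
      linarith
    refine ⟨min (1 / 4) (-Real.log θ / 2), lt_min (by norm_num) (by linarith), min_le_left _ _, ?_⟩
    have h1 : Real.exp (min (1 / 4) (-Real.log θ / 2)) ≤ Real.exp (-Real.log θ / 2) :=
      Real.exp_le_exp.mpr (min_le_right _ _)
    have h2 : Real.exp (-Real.log θ / 2) * θ < 1 := by
      have h3 : Real.exp (-Real.log θ / 2) * θ = Real.exp (-Real.log θ / 2 + Real.log θ) := by
        rw [Real.exp_add, Real.exp_log hθ0]
      rw [h3, Real.exp_lt_one_iff]
      linarith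
    nlinarith
  obtain ⟨C1, hC1, hb1⟩ := tt_bound h he0
  obtain ⟨C2, hC2, hb2⟩ := tt_bound hgξ he0
  obtain ⟨C3, hC3, hb3⟩ := prod_le hgξ he0
  -- distance to `1/2`
  have hfar : ∀ n : ℕ, 1 / (4 * (1 + C1)) * Real.exp (-(e * n)) ≤
      ‖(y n).2 - ((1 / 2 : ℝ) : UnitAddCircle)‖ + C * θ ^ n := by
    intro n
    have h1 := U_yy_far (tt (tlq x.1 n))
    have h2 := hb1 n
    have h3 : (1 : ℝ) ≤ Real.exp (e * n) := Real.one_le_exp (by positivity)
    have h4 : 1 + |tt (tlq x.1 n)| ≤ (1 + C1) * Real.exp (e * n) := by nlinarith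
    have h5 : ‖yy (tt (tlq x.1 n)) - ((1 / 2 : ℝ) : UnitAddCircle)‖ ≤
        ‖(y n).2 - ((1 / 2 : ℝ) : UnitAddCircle)‖ + C * θ ^ n := by
      have h6 := hd2 n
      rw [dist_eq_norm] at h6
      have h7 : yy (tt (tlq x.1 n)) - ((1 / 2 : ℝ) : UnitAddCircle) =
          ((y n).2 - ((1 / 2 : ℝ) : UnitAddCircle)) + (yy (tt (tlq x.1 n)) - (y n).2) := by abel
      rw [h7]
      exact (norm_add_le _ _).trans (by gcongr)
    refine le_trans ?_ h5
    set δ := ‖yy (tt (tlq x.1 n)) - ((1 / 2 : ℝ) : UnitAddCircle)‖ with hδ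
    have hδ0 : 0 ≤ δ := norm_nonneg _
    have h6 : 1 ≤ 4 * ((1 + C1) * Real.exp (e * n)) * δ := by
      refine h1.trans ?_
      gcongr
    rw [Real.exp_neg, ← div_eq_mul_inv, div_div, div_le_iff₀ (by positivity)]
    linarith
  -- large `n`
  obtain ⟨N, hN⟩ : ∃ N : ℕ, ∀ n ≥ N, 1 / (8 * (1 + C1)) * Real.exp (-(e * n)) ≤
      ‖(y n).2 - ((1 / 2 : ℝ) : UnitAddCircle)‖ := by
    have h1 : Tendsto (fun n : ℕ => C * (Real.exp e * θ) ^ n) atTop (𝓝 (C * 0)) :=
      (tendsto_pow_atTop_nhds_zero_of_lt_one (by positivity) he2).const_mul _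
    rw [mul_zero] at h1
    have h2 := (tendsto_order.1 h1).2 (1 / (8 * (1 + C1))) (by positivity)
    obtain ⟨N, hN⟩ := eventually_atTop.1 h2
    refine ⟨N, fun n hn => ?_⟩
    have h3 := hN n hn
    have h4 := hfar n
    have h5 : C * θ ^ n ≤ 1 / (8 * (1 + C1)) * Real.exp (-(e * n)) := by
      have h6 : C * θ ^ n = C * (Real.exp e * θ) ^ n * Real.exp (-(e * n)) := by
        rw [mul_pow, ← Real.exp_nat_mul, mul_comm (n : ℝ) e, mul_assoc, mul_assoc, mul_comm (θ ^ n),
          ← mul_assoc (Real.exp (e * n)), ← Real.exp_add]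
        simp
      rw [h6]
      gcongr
    have h6 : 1 / (4 * (1 + C1)) * Real.exp (-(e * n)) =
        1 / (8 * (1 + C1)) * Real.exp (-(e * n)) + 1 / (8 * (1 + C1)) * Real.exp (-(e * n)) := by
      field_simp
      ring
    linarith
  -- the second coordinates avoid `1/2`
  have hlarge : ∀ n ≥ N, (y n).2 ≠ ((1 / 2 : ℝ) : UnitAddCircle) := by
    intro n hn h0
    have h1 := hN n hn
    rw [h0, sub_self, norm_zero] at h1
    have : 0 < 1 / (8 * (1 + C1)) * Real.exp (-(e * n)) := by positivity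
    linarith
  have hne : ∀ n, (y n).2 ≠ ((1 / 2 : ℝ) : UnitAddCircle) := by
    intro n h0
    have hup : ∀ k, (y (n + k)).2 = ((1 / 2 : ℝ) : UnitAddCircle) := by
      intro k
      induction k with
      | zero => exact h0
      | succ k ih =>
        rw [← hyn (n + k), fmap_snd_eq_half_iff] at ih
        exact ih
    exact hlarge (n + N) (by omega) (hup N)
  -- the recursion
  have hrec : ∀ n, ct (y n).2 = ka (ξ.1 (n + 1)) * ct (y (n + 1)).2 + kb (ξ.1 (n + 1)) := by
    intro n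
    have h1 : y (n + 1) = ((y (n + 1)).1, yy (ct (y (n + 1)).2)) :=
      Prod.ext rfl (yy_ct (hne (n + 1))).symm
    conv_lhs => rw [← hyn n, h1, fmap_yy]
    show ct (yy _) = _
    rw [ct_yy]
  have htrec : ∀ n, tt (tlq ξ.1 n) = ka (ξ.1 (n + 1)) * tt (tlq ξ.1 (n + 1)) +
      kb (ξ.1 (n + 1)) := by
    intro n
    have h1 := tt_cons (good_tlq hgξ n)
    have h2 : tlq (tlq ξ.1 n) 1 = tlq ξ.1 (n + 1) := by
      funext k
      show ξ.1 (k + 1 + n) = ξ.1 (k + (n + 1))
      rw [show k + 1 + n = k + (n + 1) by omega]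
    have h3 : (tlq ξ.1 n) 1 = ξ.1 (n + 1) := by
      show ξ.1 (1 + n) = ξ.1 (n + 1)
      rw [add_comm]
    rw [h2, h3] at h1
    exact h1
  have hprod : ∀ m k, ct (y m).2 - tt (tlq ξ.1 m) =
      (∏ j ∈ range k, ka (ξ.1 (m + j + 1))) * (ct (y (m + k)).2 - tt (tlq ξ.1 (m + k))) := by
    intro m k
    induction k with
    | zero => simp
    | succ k ih =>
      rw [ih, hrec (m + k), htrec (m + k), Finset.prod_range_succ, ← add_assoc]
      ring
  -- bounds of the differences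
  have hu : ∀ n ≥ N, |ct (y n).2 - tt (tlq ξ.1 n)| ≤ (4 * (1 + C1) + C2) * Real.exp (e * n) := by
    intro n hn
    have h1 := U_ct_le (y n).2
    have h2 := hN n hn
    have h3 : |ct (y n).2| ≤ 4 * (1 + C1) * Real.exp (e * n) := by
      have h4 : |ct (y n).2| * (2 * (1 / (8 * (1 + C1)) * Real.exp (-(e * n)))) ≤ 1 := by
        refine le_trans ?_ h1
        gcongr
      have h5 : |ct (y n).2| * (2 * (1 / (8 * (1 + C1)) * Real.exp (-(e * n)))) =
          |ct (y n).2| / (4 * (1 + C1) * Real.exp (e * n)) := by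
        rw [Real.exp_neg]
        field_simp
        ring
      rw [h5, div_le_one (by positivity)] at h4
      exact h4
    have h4 := hb2 n
    calc |ct (y n).2 - tt (tlq ξ.1 n)| ≤ |ct (y n).2| + |tt (tlq ξ.1 n)| := abs_sub _ _
      _ ≤ 4 * (1 + C1) * Real.exp (e * n) + C2 * Real.exp (e * n) := by gcongr
      _ = _ := by ring
  have hzero : ∀ m, ct (y m).2 = tt (tlq ξ.1 m) := by
    intro m
    rw [← sub_eq_zero]
    have hsq : (1 : ℝ) ≤ Real.sqrt 2 := Real.one_le_sqrt.mpr (by norm_num)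
    set B : ℝ := C3 * (4 * (1 + C1) + C2) * Real.exp (2 * e * m) with hB
    have hbound : ∀ᶠ k : ℕ in atTop, |ct (y m).2 - tt (tlq ξ.1 m)| ≤
        B * Real.exp (-(1 / 2 * (k : ℝ))) := by
      filter_upwards [eventually_ge_atTop N] with k hk
      rw [hprod m k, abs_mul]
      have h1 := hb3 m k
      have h2 := hu (m + k) (by omega)
      have h3 : 0 ≤ ∏ j ∈ range k, ka (ξ.1 (m + j + 1)) :=
        Finset.prod_nonneg fun j _ => (ka_pos _).le
      rw [abs_of_nonneg h3]
      calc (∏ j ∈ range k, ka (ξ.1 (m + j + 1))) * |ct (y (m + k)).2 - tt (tlq ξ.1 (m + k))|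
          ≤ (C3 * Real.exp (e * m - (Real.sqrt 2 - e) * k)) *
            ((4 * (1 + C1) + C2) * Real.exp (e * ((m + k : ℕ) : ℝ))) := by gcongr
        _ = C3 * (4 * (1 + C1) + C2) *
            Real.exp (2 * e * m + -((Real.sqrt 2 - 2 * e) * k)) := by
            have : Real.exp (2 * e * m + -((Real.sqrt 2 - 2 * e) * k)) =
                Real.exp (e * m - (Real.sqrt 2 - e) * k) * Real.exp (e * ((m + k : ℕ) : ℝ)) := by
              rw [← Real.exp_add]
              congr 1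
              push_cast
              ring
            rw [this]; ring
        _ ≤ B * Real.exp (-(1 / 2 * (k : ℝ))) := by
            rw [hB, mul_assoc (C3 * (4 * (1 + C1) + C2)), ← Real.exp_add]
            gcongr
            have : (0 : ℝ) ≤ k := Nat.cast_nonneg k
            nlinarith
    have hlim : Tendsto (fun k : ℕ => B * Real.exp (-(1 / 2 * (k : ℝ)))) atTop (𝓝 (B * 0)) := by
      apply Tendsto.const_mul
      apply Real.tendsto_exp_atBot.comp
      apply tendsto_neg_atTop_atBot.comp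
      exact tendsto_natCast_atTop_atTop.const_mul_atTop (by norm_num)
    rw [mul_zero] at hlim
    have := ge_of_tendsto hlim hbound
    exact abs_eq_zero.1 (le_antisymm this (abs_nonneg _))
  refine ⟨s, ?_⟩
  rw [hξx]
  funext n
  refine Prod.ext rfl ?_
  show (y n).2 = yy (tt (tlq ξ.1 n))
  rw [← hzero n, yy_ct (hne n)]

end Pool.Agent.FS
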