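import Mathlib
import Pool.Agent.Lib_MP_a891d2_fs.FSUnst

/-! # Q: the partition subordinate to the unstable curves -/

namespace Pool.Agent.FS

open MeasureTheory Filter Topology Finset
open Pool.Agent.Results.MP_a891d2_an.TorusExample

lemma Q_measurable_tlq (n : ℕ) :
    Measurable (fun y : ℕ → Torus => tlq (fun k => (y k).1) n) := by
  apply measurable_pi_lambda
  intro k
  exact measurable_fst.comp (measurable_pi_apply (k + n))

lemma Q_measurable_fpart : Measurable fpart := by
  unfold fpart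
  apply Measurable.prodMk
  · apply measurable_pi_lambda
    intro n
    exact measurable_digit.comp (measurable_fst.comp (measurable_pi_apply n))
  · apply measurable_pi_lambda
    intro n
    have h1 : Measurable fun y : ℕ → Torus => yy (tt (tlq (fun k => (y k).1) n)) :=
      continuous_yy.measurable.comp (measurable_tt.comp (Q_measurable_tlq n))
    exact (measurable_snd.comp (measurable_pi_apply n)).sub h1

lemma Q_toTorus_fcurve (x : Sol) (s : ℝ) : toTorus (fcurve x s) = femb (x + flow s) 0 := by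
  show (((cr (x.1 0) + s : ℝ) : UnitAddCircle),
      ((Real.arctan (tt (x + flow s).1) / Real.pi : ℝ) : UnitAddCircle)) =
    (x.1 0 + (flow s).1 0, yy (tt (tlq (x + flow s).1 0)))
  rw [AddCircle.coe_add, coe_cr, flow_apply]
  simp only [pow_zero, div_one]
  rfl

/-- the slope of the curve. -/
noncomputable def Q_slope (x : Sol) (s : ℝ) : ℝ :=
  1 / (1 + tt (x + flow s).1 ^ 2) * dd (x + flow s).1 / Real.pi

lemma Q_hasDerivAt_fcurve {x : Sol} (h : Good x.1) (s : ℝ) :
    HasDerivAt (fcurve x) ((1 : ℝ), Q_slope x s) s := by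
  have h1 : HasDerivAt (fun s : ℝ => cr (x.1 0) + s) 1 s :=
    (hasDerivAt_id' s).const_add _
  have h2 : HasDerivAt (fun s : ℝ => Real.arctan (tt (x + flow s).1) / Real.pi)
      (Q_slope x s) s := ((hasDerivAt_tt h s).arctan).div_const _
  exact h1.prodMk h2

lemma Q_continuous_slope {x : Sol} (h : Good x.1) : Continuous (Q_slope x) := by
  have h1 : Continuous fun s : ℝ => tt (x + flow s).1 :=
    continuous_iff_continuousAt.2 fun s => (hasDerivAt_tt h s).continuousAt
  unfold Q_slope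
  refine Continuous.div_const (Continuous.mul ?_ (continuous_dd h)) _
  refine continuous_const.div (continuous_const.add (h1.pow 2)) fun s => ?_
  positivity

lemma Q_hasDerivAt_arc {x : Sol} (h : Good x.1) (t : ℝ) :
    HasDerivAt (fun t : ℝ => fcurve x (t / 3)) ((1 / 3 : ℝ), Q_slope x (t / 3) / 3) t := by
  have h1 : HasDerivAt (fun t : ℝ => t / 3) (1 / 3) t := (hasDerivAt_id' t).div_const 3
  have h2 := (Q_hasDerivAt_fcurve h (t / 3)).scomp t h1
  refine h2.congr_deriv ?_
  ext
  · simp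
  · simp; ring

lemma Q_contDiff_arc {x : Sol} (h : Good x.1) :
    ContDiff ℝ 1 (fun t : ℝ => fcurve x (t / 3)) := by
  rw [contDiff_one_iff_deriv]
  refine ⟨fun t => (Q_hasDerivAt_arc h t).differentiableAt, ?_⟩
  have h1 : deriv (fun t : ℝ => fcurve x (t / 3)) =
      fun t => ((1 / 3 : ℝ), Q_slope x (t / 3) / 3) := by
    funext t
    exact (Q_hasDerivAt_arc h t).deriv
  rw [h1]
  exact continuous_const.prodMk
    (((Q_continuous_slope h).comp (continuous_id.div_const 3)).div_const 3)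

/-- description of the atoms. -/
lemma Q_atom {x : Sol} {y : ℕ → Torus} (hy : y ∈ atom fmap fpart (femb x)) :
    ∃ s : ℝ, |s| < 1 / 3 ∧ y = femb (x + flow s) ∧ cr (y 0).1 = cr (x.1 0) + s := by
  obtain ⟨hy, hq⟩ := hy
  unfold fpart at hq
  rw [Prod.mk.injEq] at hq
  have hq1 : ∀ n, digit (y n).1 = digit (x.1 n) := fun n => congrFun hq.1 n
  let z : Sol := ⟨fun n => (y n).1, by
    intro n
    have := congrArg Prod.fst (hy n)
    rw [fmap_fst] at this
    exact this⟩
  have hq2 : ∀ n, (y n).2 = yy (tt (tlq z.1 n)) := by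
    intro n
    have h1 : (y n).2 - yy (tt (tlq (fun k => (y k).1) n)) =
        yy (tt (tlq x.1 n)) - yy (tt (tlq x.1 n)) := congrFun hq.2 n
    rw [sub_self, sub_eq_zero] at h1
    exact h1
  have hz : z = x + flow (cr (z.1 0) - cr (x.1 0)) := eq_add_flow_of_digits hq1
  have hyz : y = femb z := by
    funext n
    exact Prod.ext rfl (hq2 n)
  refine ⟨cr (z.1 0) - cr (x.1 0), ?_, ?_, ?_⟩
  · have h1 : ⌊3 * cr (z.1 0)⌋ = ⌊3 * cr (x.1 0)⌋ := hq1 0
    have h2 := Int.abs_sub_lt_one_of_floor_eq_floor h1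
    have h3 : 3 * cr (z.1 0) - 3 * cr (x.1 0) = 3 * (cr (z.1 0) - cr (x.1 0)) := by ring
    rw [h3, abs_mul, abs_of_pos (by norm_num : (0 : ℝ) < 3)] at h2
    linarith
  · rw [← hz]; exact hyz
  · show cr (z.1 0) = cr (x.1 0) + (cr (z.1 0) - cr (x.1 0))
    ring

lemma Q_mem_atom {x : Sol} (h : Good x.1) {s : ℝ}
    (hfl : ⌊3 * (cr (x.1 0) + s)⌋ = ⌊3 * cr (x.1 0)⌋) :
    femb (x + flow s) ∈ atom fmap fpart (femb x) := by
  refine ⟨femb_mem (good_flow h s), ?_⟩
  unfold fpart
  rw [Prod.mk.injEq]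
  constructor
  · funext n
    exact digit_add_flow hfl n
  · funext n
    show yy (tt (tlq (x + flow s).1 n)) - yy (tt (tlq (x + flow s).1 n)) =
      yy (tt (tlq x.1 n)) - yy (tt (tlq x.1 n))
    rw [sub_self, sub_self]

lemma Q_subordinate {x : Sol} (hg : Good x.1) (hx : Int.fract (3 * cr (x.1 0)) ≠ 0) :
    SubordinateAt fmap fpart (femb x) (fun t => fcurve x (t / 3)) := by
  have hc0 := Q_toTorus_fcurve x
  refine ⟨?_, ?_, ?_, ?_, ?_⟩
  · refine ⟨Q_contDiff_arc hg, ?_, ?_, ?_, ?_⟩
    · intro t _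
      rw [(Q_hasDerivAt_arc hg t).deriv]
      intro h
      have := congrArg Prod.fst h
      norm_num at this
    · intro t ht t' ht' h
      have h := congrArg Prod.fst h
      replace h : ((cr (x.1 0) + t / 3 : ℝ) : UnitAddCircle) =
        ((cr (x.1 0) + t' / 3 : ℝ) : UnitAddCircle) := h
      rw [QuotientAddGroup.eq_iff_sub_mem, AddSubgroup.mem_zmultiples_iff] at h
      obtain ⟨k, hk⟩ := h
      simp only [zsmul_eq_mul, mul_one] at hk
      have h1 : |(k : ℝ)| < 1 := by
        rw [hk, abs_lt]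
        constructor <;> linarith [ht.1, ht.2, ht'.1, ht'.2]
      have h2 : |k| < 1 := by exact_mod_cast h1
      have h3 : k = 0 := Int.abs_lt_one_iff.1 h2
      rw [h3] at hk
      simp only [Int.cast_zero] at hk
      linarith
    · show toTorus (fcurve x (0 / 3)) = femb x 0
      rw [hc0, zero_div, U_flow_zero, add_zero]
    · intro t _
      exact ⟨femb (x + flow (t / 3)), fcoe_flow_mem hg (t / 3), (hc0 (t / 3)).symm⟩
  · intro y hy y' hy' h
    obtain ⟨s, _, rfl, hs⟩ := Q_atom hy
    obtain ⟨s', _, rfl, hs'⟩ := Q_atom hy'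
    simp only at h
    rw [h, hs'] at hs
    have : s = s' := by linarith
    rw [this]
  · intro y hy
    obtain ⟨s, _, rfl, hs⟩ := Q_atom hy
    exact fcoe_flow_mem hg s
  · intro y hy
    obtain ⟨s, hs1, rfl, hs⟩ := Q_atom hy
    refine ⟨3 * s, ?_, ?_⟩
    · rw [abs_lt] at hs1
      constructor <;> linarith
    · show femb (x + flow s) 0 = toTorus (fcurve x (3 * s / 3))
      rw [hc0, mul_div_cancel_left₀ _ (by norm_num : (3 : ℝ) ≠ 0)]
  · have hf0 := Int.fract_nonneg (3 * cr (x.1 0))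
    have hf1 := Int.fract_lt_one (3 * cr (x.1 0))
    refine ⟨min (Int.fract (3 * cr (x.1 0))) (1 - Int.fract (3 * cr (x.1 0))), ?_, ?_⟩
    · apply lt_min
      · exact lt_of_le_of_ne hf0 (Ne.symm hx)
      · linarith
    · intro t ht
      rw [lt_min_iff, abs_lt, abs_lt] at ht
      have hfl : ⌊3 * (cr (x.1 0) + t / 3)⌋ = ⌊3 * cr (x.1 0)⌋ := by
        rw [Int.floor_eq_iff]
        have := Int.floor_add_fract (3 * cr (x.1 0))
        constructor <;> linarith [ht.1.1, ht.1.2, ht.2.1, ht.2.2]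
      exact ⟨femb (x + flow (t / 3)), Q_mem_atom hg hfl, (hc0 (t / 3)).symm⟩

theorem isSubordinate_fpart : IsSubordinate fmap fmu' fpart := by
  refine ⟨Q_measurable_fpart, ?_⟩
  rw [ae_fmu'_iff]
  filter_upwards [ae_not_boundary, ae_good] with x hx hg
  exact ⟨fun t => fcurve x (t / 3), Q_subordinate hg hx⟩

end Pool.Agent.FS
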