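import Mathlib
import Pool.Agent.Lib_MP_a891d2_fs.FSPart

/-! # R: absolute continuity of the conditional measures of `fmu'` -/

namespace Pool.Agent.FS

open MeasureTheory Filter Topology Finset ProbabilityTheory
open Pool.Agent.Results.MP_a891d2_an.TorusExample

/-- The image on the circle of a null set of the line is null. -/
lemma R_null_image {Z : Set ℝ} (hZ : (volume : Measure ℝ) Z = 0) :
    (volume : Measure UnitAddCircle) ((fun s : ℝ => (s : UnitAddCircle)) '' Z) = 0 := by
  have hN := null_translates hZ 0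
  obtain ⟨Nm, hsub, hNm, hN0⟩ := exists_measurable_superset_of_null hN
  have hA : MeasurableSet (cr ⁻¹' Nm) := measurable_cr hNm
  have hA0 : (volume : Measure UnitAddCircle) (cr ⁻¹' Nm) = 0 := by
    apply null_of_preimage hA
    refine measure_mono_null ?_ (null_translates hN0 0)
    intro r hr
    refine ⟨cr (r : UnitAddCircle), hr, ?_⟩
    rw [coe_cr, AddCircle.coe_zero, zero_add]
  refine measure_mono_null ?_ hA0
  rintro _ ⟨s, hs, rfl⟩
  apply hsub
  refine ⟨s, hs, ?_⟩
  rw [coe_cr, AddCircle.coe_zero, zero_add]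

lemma R_femb_fst (x : Sol) : (femb x 0).1 = x.1 0 := rfl

lemma R_flow_zero : flow 0 = 0 := by
  apply Subtype.ext
  funext n
  rw [flow_apply]
  simp

section

variable {Y : Type} [MeasurableSpace Y] [StandardBorelSpace Y] (q : (ℕ → Torus) → Y)

omit [MeasurableSpace Y] [StandardBorelSpace Y] in
/-- For a subordinate partition, the part of the flow line in the atom has positive length. -/
lemma R_positive_length {x : Sol} {c : ℝ → ℝ × ℝ} (hc : SubordinateAt fmap q (femb x) c)
    (hx : Good x.1) :
    (volume : Measure ℝ) {s : ℝ | q (femb (x + flow s)) = q (femb x)} ≠ 0 := by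
  intro hzero
  obtain ⟨δ, hδ, hnb⟩ := hc.nbhd
  set Z : Set ℝ := {s : ℝ | q (femb (x + flow s)) = q (femb x)} with hZ
  have hnull := null_translates hzero (cr (x.1 0))
  rw [coe_cr] at hnull
  -- points of the arc near its centre
  have harc : ∀ t : ℝ, |t| < δ → ∃ s ∈ Z, toTorus (c t) = femb (x + flow s) 0 ∧
      (((c t).1 : ℝ) : UnitAddCircle) = x.1 0 + s := by
    intro t ht
    obtain ⟨y, hy, hyt⟩ := hnb t ht
    obtain ⟨s, hs⟩ := funstable_eq_flow hx (hc.unstable hy)
    have hy2 := hy.2
    rw [hs] at hyt hy2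
    refine ⟨s, hy2, hyt.symm, ?_⟩
    have h1 := congrArg Prod.fst hyt
    have h2 : (x + flow s).1 0 = (((c t).1 : ℝ) : UnitAddCircle) := h1
    rw [← h2]
    show x.1 0 + (flow s).1 0 = x.1 0 + s
    rw [flow_apply]
    simp
  set t₁ : ℝ := min (δ / 2) (1 / 2) with ht₁
  have ht₁0 : 0 < t₁ := lt_min (by linarith) (by norm_num)
  have ht₁δ : t₁ < δ := lt_of_le_of_lt (min_le_left _ _) (by linarith)
  have ht₁1 : t₁ ≤ 1 / 2 := min_le_right _ _
  -- the first coordinate is constant near the centre
  have hconst : ∀ t ∈ Set.Icc (0 : ℝ) t₁, (c t).1 = (c 0).1 := by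
    intro t ht
    by_contra hne
    have hcont : ContinuousOn (fun t => (c t).1) (Set.uIcc 0 t) :=
      (continuous_fst.comp hc.arc.smooth.continuous).continuousOn
    have hsub : Set.uIcc (c 0).1 (c t).1 ⊆
        {r : ℝ | ∃ s ∈ Z, (r : UnitAddCircle) = x.1 0 + s} := by
      intro r hr
      obtain ⟨u, hu, rfl⟩ := intermediate_value_uIcc hcont hr
      rw [Set.uIcc_of_le ht.1] at hu
      obtain ⟨s, hs, -, h2⟩ := harc u (by rw [abs_of_nonneg hu.1]; linarith [hu.2, ht.2])
      exact ⟨s, hs, h2⟩
    have h4 := measure_mono_null hsub hnull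
    rw [Set.uIcc, Real.volume_Icc, ENNReal.ofReal_eq_zero] at h4
    rcases lt_or_gt_of_ne hne with h | h
    · rw [sup_eq_left.2 h.le, inf_eq_right.2 h.le] at h4
      linarith
    · rw [sup_eq_right.2 h.le, inf_eq_left.2 h.le] at h4
      linarith
  -- the arc takes countably many values there
  set r₀ : ℝ := (c 0).1 - cr (x.1 0) with hr₀
  have hmaps : Set.MapsTo (fun t => toTorus (c t)) (Set.Icc (0 : ℝ) t₁)
      (Set.range fun k : ℤ => femb (x + flow (r₀ - k)) 0) := by
    intro t ht
    obtain ⟨s, -, h1, h2⟩ := harc t (by rw [abs_of_nonneg ht.1]; linarith [ht.2])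
    rw [hconst t ht] at h2
    have h3 : ((r₀ : ℝ) : UnitAddCircle) = (s : UnitAddCircle) := by
      rw [hr₀, AddCircle.coe_sub, coe_cr, h2]
      abel
    rw [QuotientAddGroup.eq_iff_sub_mem, AddSubgroup.mem_zmultiples_iff] at h3
    obtain ⟨k, hk⟩ := h3
    simp only [zsmul_eq_mul, mul_one] at hk
    refine ⟨k, ?_⟩
    show femb (x + flow (r₀ - k)) 0 = toTorus (c t)
    rw [h1]
    congr 3
    linarith
  have hinj : Set.InjOn (fun t => toTorus (c t)) (Set.Icc (0 : ℝ) t₁) := by
    apply hc.arc.embedded.mono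
    intro t ht
    constructor <;> linarith [ht.1, ht.2]
  have hcount := Set.MapsTo.countable_of_injOn hmaps hinj (Set.countable_range _)
  have h5 := hcount.measure_zero (volume : Measure ℝ)
  rw [Real.volume_Icc, ENNReal.ofReal_eq_zero] at h5
  linarith

/-- The flow argument: a set `S` whose slices are null is avoided almost surely. -/
lemma R_flow_argument (hq : Measurable q)
    (hpos : ∀ᵐ x ∂haarSol, (volume : Measure ℝ) {s : ℝ | q (femb (x + flow s)) = q (femb x)} ≠ 0)
    {S : Set (Y × UnitAddCircle)} (hS : MeasurableSet S)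
    (hS0 : ∀ y, (volume : Measure UnitAddCircle) (Prod.mk y ⁻¹' S) = 0) :
    ∀ᵐ x ∂haarSol, (q (femb x), (femb x 0).1) ∉ S := by
  have hqe : Measurable (fun x : Sol => q (femb x)) := hq.comp measurable_femb
  have he0 : Measurable (fun x : Sol => (femb x 0).1) :=
    measurable_fst.comp ((measurable_pi_apply 0).comp measurable_femb)
  set N : Set Sol := {x | (q (femb x), (femb x 0).1) ∈ S} with hN
  have hNm : MeasurableSet N := (hqe.prodMk he0) hS
  set H : Set (Sol × ℝ) := {p | p.1 + flow p.2 ∈ N ∧ q (femb (p.1 + flow p.2)) = q (femb p.1)}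
    with hH
  have hHm : MeasurableSet H := by
    apply MeasurableSet.inter
    · exact measurable_add_flow hNm
    · exact measurableSet_eq_fun (hqe.comp measurable_add_flow) (hqe.comp measurable_fst)
  -- slices of `H` in the `s` direction are null
  have hH1 : ∀ x : Sol, (volume : Measure ℝ) (Prod.mk x ⁻¹' H) = 0 := by
    intro x
    have hS1 := hS0 (q (femb x))
    have hSm : MeasurableSet (Prod.mk (q (femb x)) ⁻¹' S) := measurable_prodMk_left hS
    set A : Set UnitAddCircle :=
      (fun ξ : UnitAddCircle => x.1 0 + ξ) ⁻¹' (Prod.mk (q (femb x)) ⁻¹' S) with hA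
    have hAm : MeasurableSet A := (measurable_const_add _) hSm
    have hA0 : (volume : Measure UnitAddCircle) A = 0 := by
      rw [hA, measure_preimage_add]
      exact hS1
    refine measure_mono_null ?_ (null_preimage hAm hA0)
    rintro s ⟨hs1, hs2⟩
    show (q (femb x), x.1 0 + (s : UnitAddCircle)) ∈ S
    have h1 : (q (femb (x + flow s)), (femb (x + flow s) 0).1) ∈ S := hs1
    have h2 : q (femb (x + flow s)) = q (femb x) := hs2
    rw [h2] at h1
    have h3 : (femb (x + flow s) 0).1 = x.1 0 + (s : UnitAddCircle) := by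
      show x.1 0 + (flow s).1 0 = _
      rw [flow_apply]
      simp
    rw [h3] at h1
    exact h1
  have hHnull : (haarSol.prod (volume : Measure ℝ)) H = 0 := by
    rw [Measure.measure_prod_null hHm]
    exact Eventually.of_forall hH1
  -- exchange the order
  have hHswap : ((volume : Measure ℝ).prod haarSol) (Prod.swap ⁻¹' H) = 0 := by
    rw [← Measure.map_apply measurable_swap hHm, Measure.prod_swap]
    exact hHnull
  have hH2 : ∀ᵐ s : ℝ, haarSol {x | (x, s) ∈ H} = 0 :=
    Measure.measure_ae_null_of_prod_null hHswap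
  -- translate
  set H' : Set (ℝ × Sol) := {p | p.2 ∈ N ∧ q (femb (p.2 + flow (-p.1))) = q (femb p.2)} with hH'
  have hH'm : MeasurableSet H' := by
    have h1 : Measurable (fun p : ℝ × Sol => p.2 + flow (-p.1)) :=
      (continuous_snd.add (continuous_flow.comp continuous_fst.neg)).measurable
    apply MeasurableSet.inter
    · exact measurable_snd hNm
    · exact measurableSet_eq_fun (hqe.comp h1) (hqe.comp measurable_snd)
  have hH'slice : ∀ᵐ s : ℝ, haarSol (Prod.mk s ⁻¹' H') = 0 := by
    filter_upwards [hH2] with s hs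
    have h1 : (fun x : Sol => x + flow s) ⁻¹' (Prod.mk s ⁻¹' H') = {x | (x, s) ∈ H} := by
      ext x
      simp only [hH', hH, Set.mem_preimage, Set.mem_ofPred_eq]
      have h2 : x + flow s + flow (-s) = x := by
        rw [add_assoc, ← flow_add, add_neg_cancel, R_flow_zero, add_zero]
      rw [h2]
      exact and_congr_right fun _ => eq_comm
    rw [← h1, measure_preimage_add_right] at hs
    exact hs
  have hH'null : ((volume : Measure ℝ).prod haarSol) H' = 0 := by
    rw [Measure.measure_prod_null hH'm]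
    exact hH'slice
  have hH'swap : (haarSol.prod (volume : Measure ℝ)) (Prod.swap ⁻¹' H') = 0 := by
    rw [← Measure.map_apply measurable_swap hH'm, Measure.prod_swap]
    exact hH'null
  have hH3 : ∀ᵐ x ∂haarSol, (volume : Measure ℝ) {s | (s, x) ∈ H'} = 0 :=
    Measure.measure_ae_null_of_prod_null hH'swap
  filter_upwards [hH3, hpos] with x hx1 hx2 hxN
  apply hx2
  have h1 : {s : ℝ | q (femb (x + flow s)) = q (femb x)} =
      (fun s : ℝ => -s) ⁻¹' {s | (s, x) ∈ H'} := by
    ext s
    simp only [hH', Set.mem_preimage, Set.mem_ofPred_eq, neg_neg]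
    exact ⟨fun h => ⟨hxN, h⟩, fun h => h.2⟩
  rw [h1]
  have h3 : (fun s : ℝ => -s) ⁻¹' {s | (s, x) ∈ H'} = -{s | (s, x) ∈ H'} := rfl
  rw [h3, Measure.measure_neg]
  exact hx1

/-- The conditional measures, pushed to the first coordinate, are absolutely continuous. -/
lemma R_cond_ac (hq : IsSubordinate fmap fmu' q) :
    ∀ᵐ x ∂fmu', (condDistrib (fun y : ℕ → Torus => y) q fmu' (q x)).map (fun y => (y 0).1) ≪
      (volume : Measure UnitAddCircle) := by
  set κ := condDistrib (fun y : ℕ → Torus => y) q fmu' with hκ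
  have h0m : Measurable (fun y : ℕ → Torus => (y 0).1) :=
    measurable_fst.comp (measurable_pi_apply 0)
  set κ' : Kernel Y UnitAddCircle := κ.map (fun y => (y 0).1) with hκ'
  set η : Kernel Y UnitAddCircle := Kernel.const Y (volume : Measure UnitAddCircle) with hη
  have hpos : ∀ᵐ x ∂haarSol,
      (volume : Measure ℝ) {s : ℝ | q (femb (x + flow s)) = q (femb x)} ≠ 0 := by
    have h1 := ae_fmu'_iff.1 hq.2
    filter_upwards [h1, ae_backward] with x h1 h2
    obtain ⟨c, hc⟩ := h1
    exact R_positive_length q hc h2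
  have hS := Kernel.measurableSet_mutuallySingularSet κ' η
  have hS0 : ∀ y, (volume : Measure UnitAddCircle)
      (Prod.mk y ⁻¹' (Kernel.mutuallySingularSet κ' η)) = 0 := by
    intro y
    have := Kernel.measure_mutuallySingularSetSlice κ' η y
    rw [hη, Kernel.const_apply] at this
    exact this
  have hflow := R_flow_argument q hq.1 hpos hS hS0
  have hcomp := compProd_map_condDistrib (mβ := inferInstance) (μ := fmu') (X := q)
    (Y := fun y : ℕ → Torus => y) measurable_id.aemeasurable
  have hTm : MeasurableSet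
      {p : Y × (ℕ → Torus) | (p.1, (p.2 0).1) ∈ Kernel.mutuallySingularSet κ' η} :=
    (measurable_fst.prodMk (h0m.comp measurable_snd)) hS
  have hT0 : ((fmu'.map q) ⊗ₘ κ)
      {p : Y × (ℕ → Torus) | (p.1, (p.2 0).1) ∈ Kernel.mutuallySingularSet κ' η} = 0 := by
    have hgm : Measurable (fun a : ℕ → Torus => (q a, a)) := hq.1.prodMk measurable_id
    rw [hκ, hcomp, Measure.map_apply hgm hTm]
    have h1 : ∀ᵐ x ∂fmu', (q x, (x 0).1) ∉ Kernel.mutuallySingularSet κ' η :=
      ae_fmu'_iff.2 hflow
    rw [ae_iff] at h1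
    simp only [not_not] at h1
    exact h1
  rw [Measure.compProd_apply hTm, lintegral_eq_zero_iff
    (Kernel.measurable_kernel_prodMk_left hTm)] at hT0
  have h2 : ∀ᵐ y ∂(fmu'.map q), κ' y ≪ η y := by
    filter_upwards [hT0] with y hy
    rw [← Kernel.singularPart_eq_zero_iff_absolutelyContinuous,
      Kernel.singularPart_eq_zero_iff_measure_eq_zero, hκ', Kernel.map_apply' _ h0m]
    · exact hy
    · exact Kernel.measurableSet_mutuallySingularSetSlice _ _ _
  have h3 := ae_of_ae_map hq.1.aemeasurable h2
  filter_upwards [h3] with x hx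
  rw [hκ', Kernel.map_apply _ h0m, hη, Kernel.const_apply] at hx
  exact hx

/-- The conditional measures live on the atoms. -/
lemma R_cond_concentrated (hq : Measurable q) :
    ∀ᵐ x ∂fmu', ∀ᵐ z ∂(condDistrib (fun y : ℕ → Torus => y) q fmu' (q x)),
      z ∈ atom fmap q x := by
  have hcomp := compProd_map_condDistrib (mβ := inferInstance) (μ := fmu') (X := q)
    (Y := fun y : ℕ → Torus => y) measurable_id.aemeasurable
  have hcl : MeasurableSet (naturalExtension fmap) := by
    have : naturalExtension fmap = ⋂ n, {x : ℕ → Torus | fmap (x (n + 1)) = x n} := by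
      ext x
      simp [naturalExtension]
    rw [this]
    apply MeasurableSet.iInter
    intro n
    exact measurableSet_eq_fun (continuous_fmap.measurable.comp (measurable_pi_apply (n + 1)))
      (measurable_pi_apply n)
  have hTm : MeasurableSet
      {p : Y × (ℕ → Torus) | p.2 ∈ naturalExtension fmap ∧ q p.2 = p.1} := by
    apply MeasurableSet.inter
    · exact measurable_snd hcl
    · exact measurableSet_eq_fun (hq.comp measurable_snd) measurable_fst
  have h1 : ∀ᵐ p ∂((fmu'.map q) ⊗ₘ (condDistrib (fun y : ℕ → Torus => y) q fmu')),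
      p.2 ∈ naturalExtension fmap ∧ q p.2 = p.1 := by
    have hgm : Measurable (fun a : ℕ → Torus => (q a, a)) := hq.prodMk measurable_id
    rw [hcomp, ae_map_iff hgm.aemeasurable hTm]
    filter_upwards [isNaturalLift_f.concentrated] with x hx
    exact ⟨hx, rfl⟩
  have h2 := Measure.ae_ae_of_ae_compProd h1
  have h3 := ae_of_ae_map hq.aemeasurable h2
  filter_upwards [h3] with x hx
  filter_upwards [hx] with z hz
  exact hz

theorem R_hasACConditionals (hq : IsSubordinate fmap fmu' q) : HasACConditionals fmap fmu' q := by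
  filter_upwards [R_cond_ac q hq, R_cond_concentrated q hq.1] with x hac hconc c hc
  have h0m : Measurable (fun y : ℕ → Torus => y 0) := measurable_pi_apply 0
  have h0m1 : Measurable (fun y : ℕ → Torus => (y 0).1) := measurable_fst.comp h0m
  have hcm : Measurable (fun t : ℝ => toTorus (c t)) :=
    (continuous_toTorus.comp hc.arc.smooth.continuous).measurable
  refine Measure.AbsolutelyContinuous.mk fun B hB hB0 => ?_
  rw [Measure.map_apply hcm hB, Measure.restrict_apply (hcm hB)] at hB0
  set T : Set ℝ := (fun t : ℝ => toTorus (c t)) ⁻¹' B ∩ Set.Icc (-1) 1 with hT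
  have hdiff : DifferentiableOn ℝ (fun t => (c t).1) T :=
    ((hc.arc.smooth.differentiable one_ne_zero).fst).differentiableOn
  have hnull : (volume : Measure ℝ) ((fun t => (c t).1) '' T) = 0 :=
    addHaar_image_eq_zero_of_differentiableOn_of_addHaar_eq_zero volume hdiff hB0
  have hnull' := R_null_image hnull
  obtain ⟨A, hsub, hAm, hA0⟩ := exists_measurable_superset_of_null hnull'
  have h1 := hac hA0
  rw [Measure.map_apply h0m1 hAm] at h1
  rw [Measure.map_apply h0m hB]
  refine measure_mono_null_ae ?_ h1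
  filter_upwards [hconc] with z hz hzB
  obtain ⟨t, ht, htz⟩ := hc.inArc z hz
  apply hsub
  refine ⟨(c t).1, ⟨t, ⟨?_, ht⟩, rfl⟩, ?_⟩
  · show toTorus (c t) ∈ B
    rw [← htz]
    exact hzB
  · have h2 := congrArg Prod.fst htz
    exact h2.symm

end

theorem fisSRB : IsSRB fmap fmu' := by
  refine ⟨⟨_, _, inferInstance, fpart, isSubordinate_fpart⟩, ?_⟩
  intro Y _ _ q hq
  exact R_hasACConditionals q hq

end Pool.Agent.FS
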