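import Mathlib
import Pool.Agent.Lib_MP_a891d2_fs.FSDiss
import Pool.Agent.Lib_MP_a891d2_fs.FSLift

/-! # The invariant measure is singular with respect to area -/

namespace Pool.Agent.FS

open MeasureTheory Filter Topology Finset
open Pool.Agent.Results.MP_a891d2_an.TorusExample

/-- `toTorus` maps Lebesgue measure on a unit square to the area measure. -/
lemma sing_mp (k l : ℤ) : MeasurePreserving toTorus
    ((volume.restrict (Set.Ioc (k : ℝ) (k + 1))).prod (volume.restrict (Set.Ioc (l : ℝ) (l + 1))))
    (volume : Measure Torus) :=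
  (UnitAddCircle.measurePreserving_mk (k : ℝ)).prod (UnitAddCircle.measurePreserving_mk (l : ℝ))

lemma sing_null_preimage {N : Set Torus} (hN : MeasurableSet N)
    (h : (volume : Measure Torus) N = 0) : (volume : Measure (ℝ × ℝ)) (toTorus ⁻¹' N) = 0 := by
  have hm : MeasurableSet (toTorus ⁻¹' N) := continuous_toTorus.measurable hN
  have h1 : ∀ k l : ℤ, (volume : Measure (ℝ × ℝ)) ((toTorus ⁻¹' N) ∩
      (Set.Ioc (k : ℝ) (k + 1) ×ˢ Set.Ioc (l : ℝ) (l + 1))) = 0 := by
    intro k l
    have h2 := (sing_mp k l).measure_preimage hN.nullMeasurableSet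
    rw [h, Measure.prod_restrict, Measure.restrict_apply hm] at h2
    exact h2
  have h3 : toTorus ⁻¹' N ⊆ ⋃ k : ℤ, ⋃ l : ℤ, ((toTorus ⁻¹' N) ∩
      (Set.Ioc (k : ℝ) (k + 1) ×ˢ Set.Ioc (l : ℝ) (l + 1))) := by
    intro v hv
    have hU : (⋃ k : ℤ, Set.Ioc (k : ℝ) (k + 1)) = Set.univ := iUnion_Ioc_intCast ℝ
    have h4 : v.1 ∈ ⋃ k : ℤ, Set.Ioc (k : ℝ) (k + 1) := by rw [hU]; trivial
    have h5 : v.2 ∈ ⋃ k : ℤ, Set.Ioc (k : ℝ) (k + 1) := by rw [hU]; trivial
    obtain ⟨k, hk⟩ := Set.mem_iUnion.1 h4
    obtain ⟨l, hl⟩ := Set.mem_iUnion.1 h5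
    exact Set.mem_iUnion.2 ⟨k, Set.mem_iUnion.2 ⟨l, hv, hk, hl⟩⟩
  exact measure_mono_null h3 (measure_iUnion_null fun k => measure_iUnion_null fun l => h1 k l)

lemma sing_null_of_preimage {N : Set Torus} (hN : MeasurableSet N)
    (h : (volume : Measure (ℝ × ℝ)) (toTorus ⁻¹' N) = 0) : (volume : Measure Torus) N = 0 := by
  rw [← (sing_mp 0 0).measure_preimage hN.nullMeasurableSet, Measure.prod_restrict]
  exact measure_mono_null (fun _ hv => hv) (le_antisymm ((Measure.restrict_apply_le _ _).trans h.le) bot_le)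

/-- the lift is injective. -/
lemma flift_injective : Function.Injective flift := by
  intro v w h
  unfold flift at h
  rw [Prod.mk.injEq] at h
  have h1 : v.1 = w.1 := by linarith [h.1]
  have hmono : StrictMono (fun t : ℝ => ffib (v.1, t)) := by
    apply strictMono_of_deriv_pos
    intro t
    rw [(hasDerivAt_ffib v.1 t).deriv]
    exact fvert_pos v.1 t
  have h2 : ffib (v.1, v.2) = ffib (v.1, w.2) := by
    have h3 := h.2
    rw [show v = (v.1, v.2) from rfl, show w = (w.1, w.2) from rfl, ← h1] at h3
    exact h3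
  exact Prod.ext h1 (hmono.injective h2)

/-- preimages of null sets are null. -/
lemma sing_preimage_null {N : Set Torus} (hN : MeasurableSet N)
    (h : (volume : Measure Torus) N = 0) : (volume : Measure Torus) (fmap ⁻¹' N) = 0 := by
  have hfm : Measurable fmap := continuous_fmap.measurable
  apply sing_null_of_preimage (hfm hN)
  set s : Set (ℝ × ℝ) := toTorus ⁻¹' (fmap ⁻¹' N) with hs
  have hsm : MeasurableSet s := continuous_toTorus.measurable (hfm hN)
  have hsub : flift '' s ⊆ toTorus ⁻¹' N := by
    rintro _ ⟨v, hv, rfl⟩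
    show toTorus (flift v) ∈ N
    rw [← fmap_toTorus]
    exact hv
  have himg : (volume : Measure (ℝ × ℝ)) (flift '' s) = 0 :=
    measure_mono_null hsub (sing_null_preimage hN h)
  have hdiff : ∀ v ∈ s, HasFDerivWithinAt flift (fderiv ℝ flift v) s v := fun v _ =>
    (((contDiff_flift (n := 1)).differentiable one_ne_zero v).hasFDerivAt).hasFDerivWithinAt
  have hint := lintegral_abs_det_fderiv_eq_addHaar_image (volume : Measure (ℝ × ℝ)) hsm hdiff
    flift_injective.injOn
  rw [himg] at hint
  have hmeas : Measurable (fun v : ℝ × ℝ => ENNReal.ofReal |(fderiv ℝ flift v).det|) := by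
    have h1 : Continuous (fun v : ℝ × ℝ => fderiv ℝ flift v) :=
      (contDiff_flift (n := 1)).continuous_fderiv one_ne_zero
    have h2 : Continuous (fun v : ℝ × ℝ => |(fderiv ℝ flift v).det|) :=
      (ContinuousLinearMap.continuous_det.comp h1).abs
    exact ENNReal.measurable_ofReal.comp h2.measurable
  rw [lintegral_eq_zero_iff hmeas] at hint
  have hpos : ∀ v : ℝ × ℝ, ENNReal.ofReal |(fderiv ℝ flift v).det| ≠ 0 := by
    intro v
    have hb := isEndomorphism_fmap.localDiffeo v
    have hu : (fderiv ℝ flift v).det ≠ 0 := by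
      have := LinearEquiv.isUnit_det' (LinearEquiv.ofBijective (fderiv ℝ flift v).toLinearMap hb)
      exact this.ne_zero
    simp [hu]
  have h2 : ∀ᵐ v ∂(volume.restrict s), False := by
    filter_upwards [hint] with v hv
    exact hpos v hv
  have h3 : (volume.restrict s) = (0 : Measure (ℝ × ℝ)) := by
    rw [← Measure.measure_univ_eq_zero]
    simpa [ae_iff] using h2
  rw [← Measure.restrict_apply_self]
  rw [h3]
  simp

/-- The invariant measure is singular with respect to area. -/
theorem fmu_singular : fmu ⟂ₘ (volume : Measure Torus) := by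
  have hfm : Measurable fmap := continuous_fmap.measurable
  haveI hLD : fmu.HaveLebesgueDecomposition (volume : Measure Torus) :=
    Measure.haveLebesgueDecomposition_of_sigmaFinite _ _
  set ν : Measure Torus := (volume : Measure Torus).withDensity
    (fmu.rnDeriv (volume : Measure Torus)) with hν
  set σ : Measure Torus := fmu.singularPart (volume : Measure Torus) with hσ
  have hdec : fmu = σ + ν := Measure.haveLebesgueDecomposition_add fmu (volume : Measure Torus)
  have hνac : ν ≪ (volume : Measure Torus) := withDensity_absolutelyContinuous _ _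
  haveI : IsFiniteMeasure ν := by
    refine ⟨lt_of_le_of_lt ?_ (measure_lt_top fmu Set.univ)⟩
    rw [hdec]
    exact le_add_self
  -- the image of `ν` is absolutely continuous and at most `fmu`
  have hmapac : ν.map fmap ≪ (volume : Measure Torus) := by
    refine Measure.AbsolutelyContinuous.mk fun N hN hN0 => ?_
    rw [Measure.map_apply hfm hN]
    exact hνac (sing_preimage_null hN hN0)
  have hinv : fmu.map fmap = fmu := ergodic_fmap.toMeasurePreserving.map_eq
  have hle : ν.map fmap ≤ fmu := by
    calc ν.map fmap ≤ (σ + ν).map fmap := by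
          rw [Measure.map_add _ _ hfm]
          exact Measure.le_add_left le_rfl
      _ = fmu := by rw [← hdec, hinv]
  -- hence at most `ν`
  have hms : σ ⟂ₘ (volume : Measure Torus) := fmu.mutuallySingular_singularPart _
  obtain ⟨S, hS, hS1, hS2⟩ := hms
  have hle2 : ν.map fmap ≤ ν := by
    rw [Measure.le_iff]
    intro A hA
    have h1 : (ν.map fmap) A = (ν.map fmap) (A ∩ S) := by
      have h2 : (ν.map fmap) (A ∩ Sᶜ) = 0 :=
        hmapac (measure_mono_null Set.inter_subset_right hS2)
      rw [← measure_inter_add_diff A hS, Set.diff_eq, h2, add_zero]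
    have h3 : fmu (A ∩ S) = ν (A ∩ S) := by
      conv_lhs => rw [hdec]
      rw [Measure.add_apply, measure_mono_null Set.inter_subset_right hS1, zero_add]
    rw [h1]
    calc (ν.map fmap) (A ∩ S) ≤ fmu (A ∩ S) := hle _
      _ = ν (A ∩ S) := h3
      _ ≤ ν A := measure_mono Set.inter_subset_left
  have heq : ν.map fmap = ν := by
    apply Measure.eq_of_le_of_measure_univ_eq hle2
    rw [Measure.map_apply hfm MeasurableSet.univ, Set.preimage_univ]
  -- by dissipativity `ν = 0`
  by_cases h0 : ν = 0
  · have : fmu = σ := by rw [hdec, h0, add_zero]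
    rw [this]
    exact fmu.mutuallySingular_singularPart _
  · exfalso
    have hpos : ν Set.univ ≠ 0 := by
      intro h
      exact h0 (Measure.measure_univ_eq_zero.1 h)
    have hfin : ν Set.univ ≠ ⊤ := measure_ne_top _ _
    refine fisDissipative ((ν Set.univ)⁻¹ • ν) ⟨?_⟩ ?_ ?_
    · rw [Measure.smul_apply, smul_eq_mul, ENNReal.inv_mul_cancel hpos hfin]
    · exact hνac.smul_left _
    · rw [Measure.map_smul, heq]

end Pool.Agent.FS
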